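import Pool.Agent.Lib_MP_27c196_co.E.Defs

/-! H24 E, piece A1: areas of sectors and triangles -/

set_option linter.unusedVariables false

noncomputable section

namespace H24

open Finset MeasureTheory

/-- rotation taking the direction `e` to `1` -/
private def A1_rot (e : ℂ) (he : ‖e‖ = 1) : ℂ ≃ₗᵢ[ℝ] ℂ :=
  rotation ⟨(starRingEnd ℂ) e, by simp [Submonoid.unitSphere, he]⟩

private theorem A1_rot_apply (e : ℂ) (he : ‖e‖ = 1) (z : ℂ) :
    A1_rot e he z = z * (starRingEnd ℂ) e := by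
  rw [A1_rot, rotation_apply, mul_comm]

private theorem A1_conj_ne {e : ℂ} (he : ‖e‖ = 1) : (starRingEnd ℂ) e ≠ 0 := by
  intro h
  rw [map_eq_zero] at h
  rw [h, norm_zero] at he
  exact zero_ne_one he

private theorem A1_norm {e : ℂ} (he : ‖e‖ = 1) (z : ℂ) : ‖z * (starRingEnd ℂ) e‖ = ‖z‖ := by
  rw [norm_mul, RCLike.norm_conj, he, mul_one]

private theorem A1_vol_preimage {e : ℂ} (he : ‖e‖ = 1) {S : Set ℂ} (hS : MeasurableSet S) :
    volume.real ((fun z : ℂ => z * (starRingEnd ℂ) e) ⁻¹' S) = volume.real S := by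
  have h1 : (fun z : ℂ => z * (starRingEnd ℂ) e) = A1_rot e he := by
    funext z
    rw [A1_rot_apply]
  rw [h1, Measure.real, Measure.real,
    (LinearIsometryEquiv.measurePreserving (A1_rot e he)).measure_preimage hS.nullMeasurableSet]

theorem Sec_meas (R : ℝ) (e : ℂ) (α β : ℝ) : MeasurableSet (Sec R e α β) := by
  have h0 : Measurable (fun z : ℂ => (z * (starRingEnd ℂ) e).arg) :=
    Complex.measurable_arg.comp (by fun_prop)
  have h1 : MeasurableSet {z : ℂ | z ≠ 0} := (measurableSet_singleton (0 : ℂ)).compl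
  have h2 : MeasurableSet {z : ℂ | ‖z‖ < R} := measurableSet_lt (by fun_prop) (by fun_prop)
  have h3 : MeasurableSet {z : ℂ | α < (z * (starRingEnd ℂ) e).arg} :=
    measurableSet_lt measurable_const h0
  have h4 : MeasurableSet {z : ℂ | (z * (starRingEnd ℂ) e).arg < β} :=
    measurableSet_lt h0 measurable_const
  exact h1.inter (h2.inter (h3.inter h4))

private theorem A1_int_id {R : ℝ} (hR : 0 ≤ R) : ∫ x in Set.Ioo 0 R, x = R ^ 2 / 2 := by
  rw [← integral_Ioc_eq_integral_Ioo, ← intervalIntegral.integral_of_le hR, integral_id]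
  ring

private theorem A1_arg {r θ : ℝ} (hr : 0 < r) (h1 : -Real.pi < θ) (h2 : θ < Real.pi) :
    (Complex.polarCoord.symm (r, θ)).arg = θ := by
  rw [Complex.polarCoord_symm_apply]
  have := Complex.arg_mul_cos_add_sin_mul_I hr (θ := θ) ⟨h1, h2.le⟩
  simpa using this

private theorem A1_sec_one {R : ℝ} (hR : 0 ≤ R) {α β : ℝ} (h1 : -Real.pi ≤ α) (h2 : α ≤ β)
    (h3 : β ≤ Real.pi) : volume.real {z : ℂ | z ≠ 0 ∧ ‖z‖ < R ∧ α < z.arg ∧ z.arg < β} =
      R ^ 2 * (β - α) / 2 := by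
  set S : Set ℂ := {z : ℂ | z ≠ 0 ∧ ‖z‖ < R ∧ α < z.arg ∧ z.arg < β} with hS
  have hSm : MeasurableSet S := by
    have := Sec_meas R 1 α β
    simpa [Sec, hS] using this
  have e1 : ∫ p : ℂ, S.indicator (fun _ => (1 : ℝ)) p = volume.real S := by
    rw [integral_indicator_const _ hSm]
    simp
  rw [← e1, ← Complex.integral_comp_polarCoord_symm]
  have e2 : ∀ p ∈ polarCoord.target, p.1 • S.indicator (fun _ => (1 : ℝ))
      (Complex.polarCoord.symm p) =
      (Set.Ioo (0 : ℝ) R ×ˢ Set.Ioo α β).indicator (fun p : ℝ × ℝ => p.1) p := by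
    rintro ⟨r, θ⟩ hp
    rw [polarCoord_target] at hp
    obtain ⟨hr, hθ⟩ := hp
    simp only [Set.mem_Ioi] at hr
    simp only [Set.mem_Ioo] at hθ
    have harg := A1_arg hr hθ.1 hθ.2
    have hnorm : ‖Complex.polarCoord.symm (r, θ)‖ = r := by
      rw [Complex.norm_polarCoord_symm]
      exact abs_of_pos hr
    have hne : Complex.polarCoord.symm (r, θ) ≠ 0 := by
      rw [← norm_pos_iff, hnorm]
      exact hr
    by_cases hm : r < R ∧ α < θ ∧ θ < β
    · have m1 : Complex.polarCoord.symm (r, θ) ∈ S := by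
        refine ⟨hne, ?_, ?_, ?_⟩
        · rw [hnorm]; exact hm.1
        · rw [harg]; exact hm.2.1
        · rw [harg]; exact hm.2.2
      have m2 : (r, θ) ∈ Set.Ioo (0 : ℝ) R ×ˢ Set.Ioo α β := ⟨⟨hr, hm.1⟩, hm.2⟩
      rw [Set.indicator_of_mem m1, Set.indicator_of_mem m2]
      simp
    · have m1 : Complex.polarCoord.symm (r, θ) ∉ S := by
        rintro ⟨-, h4, h5, h6⟩
        rw [hnorm] at h4
        rw [harg] at h5 h6
        exact hm ⟨h4, h5, h6⟩
      have m2 : (r, θ) ∉ Set.Ioo (0 : ℝ) R ×ˢ Set.Ioo α β := by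
        rintro ⟨h4, h5⟩
        exact hm ⟨h4.2, h5⟩
      rw [Set.indicator_of_notMem m1, Set.indicator_of_notMem m2]
      simp
  rw [setIntegral_congr_fun polarCoord.open_target.measurableSet e2,
    setIntegral_indicator (measurableSet_Ioo.prod measurableSet_Ioo)]
  have e3 : polarCoord.target ∩ Set.Ioo (0 : ℝ) R ×ˢ Set.Ioo α β =
      Set.Ioo (0 : ℝ) R ×ˢ Set.Ioo α β := by
    apply Set.inter_eq_right.2
    rintro ⟨r, θ⟩ ⟨h4, h5⟩
    rw [polarCoord_target]
    exact ⟨h4.1, lt_of_le_of_lt h1 h5.1, lt_of_lt_of_le h5.2 h3⟩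
  rw [e3]
  have e4 := setIntegral_prod_mul (μ := (volume : Measure ℝ)) (ν := (volume : Measure ℝ))
    (fun x : ℝ => x) (fun _ : ℝ => (1 : ℝ)) (Set.Ioo (0 : ℝ) R) (Set.Ioo α β)
  simp only [mul_one] at e4
  rw [Measure.volume_eq_prod, e4, A1_int_id hR]
  have e5 : ∫ _y in Set.Ioo α β, (1 : ℝ) = β - α := by
    rw [setIntegral_const]
    simp [h2]
  rw [e5]
  ring

/-- polar coordinates (and rotation invariance of the area) -/
theorem Sec_vol {R : ℝ} (hR : 0 ≤ R) {e : ℂ} (he : ‖e‖ = 1) {α β : ℝ} (h1 : -Real.pi ≤ α) (h2 : α ≤ β)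
    (h3 : β ≤ Real.pi) : volume.real (Sec R e α β) = R ^ 2 * (β - α) / 2 := by
  have hSm : MeasurableSet {z : ℂ | z ≠ 0 ∧ ‖z‖ < R ∧ α < z.arg ∧ z.arg < β} := by
    have := Sec_meas R 1 α β
    simpa [Sec] using this
  rw [← A1_sec_one hR h1 h2 h3, ← A1_vol_preimage he hSm]
  congr 1
  ext z
  simp only [Sec, Set.mem_ofPred_eq, Set.mem_preimage]
  rw [A1_norm he, mul_ne_zero_iff]
  constructor
  · rintro ⟨h4, h5⟩
    exact ⟨⟨h4, A1_conj_ne he⟩, h5⟩
  · rintro ⟨h4, h5⟩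
    exact ⟨h4.1, h5⟩

theorem Tri_meas (c : ℝ) (e : ℂ) (a b : ℝ) : MeasurableSet (Tri c e a b) := by
  have h0 : Continuous (fun z : ℂ => (z * (starRingEnd ℂ) e).re) := by fun_prop
  have h1 : Continuous (fun z : ℂ => (z * (starRingEnd ℂ) e).im) := by fun_prop
  have k1 : IsOpen {z : ℂ | 0 < (z * (starRingEnd ℂ) e).re} := isOpen_lt continuous_const h0
  have k2 : IsOpen {z : ℂ | (z * (starRingEnd ℂ) e).re < c} := isOpen_lt h0 continuous_const
  have k3 : IsOpen {z : ℂ | (z * (starRingEnd ℂ) e).re * Real.tan a < (z * (starRingEnd ℂ) e).im} :=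
    isOpen_lt (h0.mul continuous_const) h1
  have k4 : IsOpen {z : ℂ | (z * (starRingEnd ℂ) e).im < (z * (starRingEnd ℂ) e).re * Real.tan b} :=
    isOpen_lt h1 (h0.mul continuous_const)
  exact (k1.inter (k2.inter (k3.inter k4))).measurableSet

private theorem A1_tan_le {a b : ℝ} (h1 : -(Real.pi / 2) < a) (h2 : a ≤ b)
    (h3 : b < Real.pi / 2) : Real.tan a ≤ Real.tan b :=
  Real.strictMonoOn_tan.monotoneOn ⟨h1, lt_of_le_of_lt h2 h3⟩ ⟨lt_of_lt_of_le h1 h2, h3⟩ h2

private theorem A1_tri_one {c : ℝ} (hc : 0 ≤ c) {u v : ℝ} (huv : u ≤ v) :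
    volume.real {z : ℂ | 0 < z.re ∧ z.re < c ∧ z.re * u < z.im ∧ z.im < z.re * v} =
      c ^ 2 / 2 * (v - u) := by
  have e1 : {z : ℂ | 0 < z.re ∧ z.re < c ∧ z.re * u < z.im ∧ z.im < z.re * v} =
      Complex.measurableEquivRealProd ⁻¹'
        (regionBetween (fun x => x * u) (fun x => x * v) (Set.Ioo 0 c)) := by
    ext z
    simp only [Set.mem_ofPred_eq, Set.mem_preimage, regionBetween, Set.mem_Ioo,
      Complex.measurableEquivRealProd_apply]
    tauto
  have hm : MeasurableSet (regionBetween (fun x : ℝ => x * u) (fun x => x * v) (Set.Ioo 0 c)) :=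
    measurableSet_regionBetween (by fun_prop) (by fun_prop) measurableSet_Ioo
  have hi : ∀ w : ℝ, IntegrableOn (fun x : ℝ => x * w) (Set.Ioo 0 c) volume := by
    intro w
    have : IntegrableOn (fun x : ℝ => x * w) (Set.Icc 0 c) volume :=
      (by fun_prop : Continuous fun x : ℝ => x * w).continuousOn.integrableOn_Icc
    exact this.mono_set Set.Ioo_subset_Icc_self
  rw [Measure.real, e1,
    Complex.volume_preserving_equiv_real_prod.measure_preimage hm.nullMeasurableSet,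
    Measure.volume_eq_prod, volume_regionBetween_eq_integral (hi u) (hi v) measurableSet_Ioo]
  · have e2 : ∫ y in Set.Ioo 0 c, ((fun x : ℝ => x * v) - fun x => x * u) y = c ^ 2 / 2 * (v - u) := by
      have e3 : ∀ y : ℝ, ((fun x : ℝ => x * v) - fun x => x * u) y = y * (v - u) := by
        intro y
        simp only [Pi.sub_apply]
        ring
      simp_rw [e3]
      rw [integral_mul_const, A1_int_id hc]
    rw [e2, ENNReal.toReal_ofReal]
    have : 0 ≤ v - u := by linarith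
    positivity
  · intro x hx
    exact mul_le_mul_of_nonneg_left huv hx.1.le

theorem Tri_vol {c : ℝ} (hc : 0 ≤ c) {e : ℂ} (he : ‖e‖ = 1) {a b : ℝ} (h1 : -(Real.pi / 2) < a) (h2 : a ≤ b)
    (h3 : b < Real.pi / 2) : volume.real (Tri c e a b) = c ^ 2 / 2 * (Real.tan b - Real.tan a) := by
  have hm : MeasurableSet {z : ℂ | 0 < z.re ∧ z.re < c ∧ z.re * Real.tan a < z.im ∧
      z.im < z.re * Real.tan b} := by
    have := Tri_meas c 1 a b
    simpa [Tri] using this
  rw [← A1_tri_one hc (A1_tan_le h1 h2 h3), ← A1_vol_preimage he hm]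
  rfl

private theorem A1_arg_iff {w : ℂ} (hw : 0 < w.re) : -(Real.pi / 2) < w.arg ∧
    w.arg < Real.pi / 2 := by
  have := Complex.abs_arg_lt_pi_div_two_iff.2 (Or.inl hw)
  exact abs_lt.1 this

/-- points of `Tri c e a b` have relative angle in `(a, b)`, and norm `< c / cos β` if `|a|, |b| ≤ β < π/2` -/
theorem Tri_arg {c : ℝ} {e : ℂ} {a b : ℝ} (h1 : -(Real.pi / 2) < a) (h3 : b < Real.pi / 2) {z : ℂ}
    (hz : z ∈ Tri c e a b) (h2 : a ≤ b) :
    z ≠ 0 ∧ a < (z * (starRingEnd ℂ) e).arg ∧ (z * (starRingEnd ℂ) e).arg < b := by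
  obtain ⟨k1, k2, k3, k4⟩ := hz
  set w := z * (starRingEnd ℂ) e with hw
  obtain ⟨l1, l2⟩ := A1_arg_iff k1
  have htan := Complex.tan_arg w
  refine ⟨?_, ?_, ?_⟩
  · rintro rfl
    rw [zero_mul] at hw
    rw [hw] at k1
    simp at k1
  · by_contra hcon
    have hle : w.arg ≤ a := not_lt.1 hcon
    have h5 := A1_tan_le l1 hle (lt_of_le_of_lt h2 h3)
    rw [htan, div_le_iff₀ k1] at h5
    linarith
  · by_contra hcon
    have hle : b ≤ w.arg := not_lt.1 hcon
    have h5 := A1_tan_le (lt_of_lt_of_le h1 h2) hle l2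
    rw [htan, le_div_iff₀ k1] at h5
    linarith

theorem Tri_norm {c : ℝ} {e : ℂ} (he : ‖e‖ = 1) {a b β : ℝ} (ha : -β ≤ a) (hb : b ≤ β) (h0 : 0 ≤ β)
    (h3 : β < Real.pi / 2) {z : ℂ} (hz : z ∈ Tri c e a b)
    (h2 : a ≤ b) : ‖z‖ * Real.cos β < c := by
  obtain ⟨-, k1, k2⟩ := Tri_arg (lt_of_lt_of_le (by linarith) ha) (lt_of_le_of_lt hb h3) hz h2
  set w := z * (starRingEnd ℂ) e with hw
  have hre : w.re < c := hz.2.1
  have hcos : Real.cos β ≤ Real.cos w.arg := by
    rw [← Real.cos_abs w.arg]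
    apply Real.cos_le_cos_of_nonneg_of_le_pi (abs_nonneg _) (by linarith [Real.pi_pos])
    rw [abs_le]
    exact ⟨by linarith, by linarith⟩
  have h4 := Complex.norm_mul_cos_arg w
  have h5 : ‖w‖ = ‖z‖ := A1_norm he z
  rw [← h5]
  calc ‖w‖ * Real.cos β ≤ ‖w‖ * Real.cos w.arg := mul_le_mul_of_nonneg_left hcos (norm_nonneg _)
    _ = w.re := h4
    _ < c := hre

private theorem A1_im_pos {z : ℂ} (hz : z ≠ 0) (h : z.arg < Real.pi) : 0 < z.im ↔ 0 < z.arg := by
  have h1 := Complex.norm_mul_sin_arg z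
  have hn : 0 < ‖z‖ := norm_pos_iff.2 hz
  have h2 := Complex.neg_pi_lt_arg z
  constructor
  · intro h3
    by_contra hcon
    have h4 := Real.sin_nonpos_of_nonpos_of_neg_pi_le (not_lt.1 hcon) h2.le
    have := mul_nonpos_of_nonneg_of_nonpos hn.le h4
    linarith
  · intro h3
    have h4 := Real.sin_pos_of_pos_of_lt_pi h3 h
    have := mul_pos hn h4
    linarith

/-- upper half plane and relative angles: for `z ≠ 0` and a unit vector `e` with `|arg e| < π/2`, relative angle `ω = arg (z conj e)` with `|ω| < π/2`: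
`0 < z.im ↔ - arg e < ω`. -/
theorem up_iff {e z : ℂ} (he : ‖e‖ = 1) (hz : z ≠ 0) (h1 : |e.arg| < Real.pi / 2)
    (h2 : |(z * (starRingEnd ℂ) e).arg| < Real.pi / 2) : 0 < z.im ↔ -e.arg < (z * (starRingEnd ℂ) e).arg := by
  set w := z * (starRingEnd ℂ) e with hw
  have he0 : e ≠ 0 := by
    intro h
    rw [h, norm_zero] at he
    exact zero_ne_one he
  have hw0 : w ≠ 0 := mul_ne_zero hz (A1_conj_ne he)
  have hz' : z = w * e := by
    have h3 : (starRingEnd ℂ) e * e = 1 := by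
      rw [mul_comm, Complex.mul_conj, Complex.normSq_eq_norm_sq, he]
      norm_num
    rw [hw, mul_assoc, h3, mul_one]
  obtain ⟨h3, h4⟩ := abs_lt.1 h1
  obtain ⟨h5, h6⟩ := abs_lt.1 h2
  have harg : z.arg = w.arg + e.arg := by
    rw [hz']
    exact Complex.arg_mul hw0 he0 ⟨by linarith, by linarith⟩
  rw [A1_im_pos hz (by rw [harg]; linarith), harg]
  constructor
  · intro h; linarith
  · intro h; linarith

theorem half_disc_vol {R : ℝ} (hR : 0 ≤ R) : volume.real (Metric.ball (0 : ℂ) R ∩ Up) = Real.pi * R ^ 2 / 2 := by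
  have h1 := Sec_vol hR (e := 1) (by simp) (α := 0) (β := Real.pi) (by linarith [Real.pi_pos])
    Real.pi_pos.le le_rfl
  have h2 : Metric.ball (0 : ℂ) R ∩ Up = Sec R 1 0 Real.pi := by
    ext z
    simp only [Set.mem_inter_iff, mem_ball_zero_iff, Up, Sec, Set.mem_ofPred_eq, map_one, mul_one]
    constructor
    · rintro ⟨h3, h4⟩
      have hz : z ≠ 0 := by
        rintro rfl
        simp at h4
      have hlt : z.arg < Real.pi := by
        refine lt_of_le_of_ne (Complex.arg_le_pi z) ?_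
        intro h
        rw [Complex.arg_eq_pi_iff] at h
        linarith [h.2]
      exact ⟨hz, h3, (A1_im_pos hz hlt).1 h4, hlt⟩
    · rintro ⟨hz, h3, h4, hlt⟩
      exact ⟨h3, (A1_im_pos hz hlt).2 h4⟩
  rw [h2, h1]
  ring

end H24
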