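import Pool.Agent.Lib_MP_27c196_co.E.Defs

/-! H24 E, piece A2: arcs are disjoint, cells and sectors -/

set_option linter.unusedVariables false

noncomputable section

namespace H24

open Finset MeasureTheory

private theorem A2_sq3 : √3 * √3 = 3 := Real.mul_self_sqrt (by norm_num)

private theorem A2_pos3 : 0 < √3 := Real.sqrt_pos.2 (by norm_num)

private theorem A2_lt_iff (q : ℂ) : ‖q‖ < 2 / √3 ↔ √3 / 2 * ‖q‖ < 1 := by
  have h3 := A2_pos3
  rw [lt_div_iff₀ h3]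
  constructor <;> intro h <;> linarith

private theorem A2_le_iff (q : ℂ) : ‖q‖ ≤ 2 / √3 ↔ √3 / 2 * ‖q‖ ≤ 1 := by
  have h3 := A2_pos3
  rw [le_div_iff₀ h3]
  constructor <;> intro h <;> linarith

theorem bet_pos {q : ℂ} (h : ‖q‖ < 2 / √3) : 0 < bet q := by
  unfold bet
  rw [Real.arccos_pos]
  exact (A2_lt_iff q).1 h

theorem bet_le {q : ℂ} (h : 1 ≤ ‖q‖) : bet q ≤ Real.pi / 6 := by
  have h3 := A2_pos3
  have e : Real.arccos (√3 / 2) = Real.pi / 6 := by
    rw [← Real.cos_pi_div_six]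
    exact Real.arccos_cos (by positivity) (by linarith [Real.pi_pos])
  unfold bet
  rw [← e]
  exact Real.arccos_le_arccos (by nlinarith)

theorem cos_bet {q : ℂ} (h : ‖q‖ ≤ 2 / √3) : Real.cos (bet q) = √3 / 2 * ‖q‖ := by
  have h3 := A2_pos3
  unfold bet
  refine Real.cos_arccos ?_ ((A2_le_iff q).1 h)
  have : 0 ≤ √3 / 2 * ‖q‖ := by positivity
  linarith

/-- `‖q‖ ≤ 1 + (π/6 - bet q)` -/
theorem norm_le_of_bet {q : ℂ} (h1 : 1 ≤ ‖q‖) (h : ‖q‖ < 2 / √3) : ‖q‖ ≤ 1 + (Real.pi / 6 - bet q) := by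
  have h3 := A2_pos3
  have h33 := A2_sq3
  have hb := bet_le h1
  have hc := cos_bet h.le
  set d : ℝ := Real.pi / 6 - bet q with hd
  have hd0 : 0 ≤ d := by linarith
  have e : bet q = Real.pi / 6 - d := by rw [hd]; ring
  rw [e, Real.cos_sub, Real.cos_pi_div_six, Real.sin_pi_div_six] at hc
  have hcos : Real.cos d ≤ 1 := Real.cos_le_one d
  have hsin : Real.sin d ≤ d := Real.sin_le hd0
  -- `√3 ‖q‖ = √3 cos d + sin d`
  have h5 : √3 * ‖q‖ ≤ √3 * (1 + d) := by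
    have h6 : √3 * ‖q‖ = √3 * Real.cos d + Real.sin d := by linarith
    rw [h6]
    have h7 : 1 ≤ √3 := by nlinarith
    nlinarith
  exact le_of_mul_le_mul_left h5 h3

private theorem A2_dr {q : ℂ} (h : 1 ≤ ‖q‖) : ‖dr q‖ = 1 ∧ q = (‖q‖ : ℂ) * dr q := by
  have h0 : (‖q‖ : ℂ) ≠ 0 := by
    have : ‖q‖ ≠ 0 := by linarith
    exact_mod_cast this
  constructor
  · unfold dr
    rw [norm_div, Complex.norm_real, norm_norm, div_self]
    linarith
  · unfold dr
    field_simp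

private theorem A2_conj_norm (e : ℂ) : ‖(starRingEnd ℂ) e‖ = ‖e‖ := by
  rw [RCLike.norm_conj]

/-- `‖z - q‖^2` -/
private theorem A2_norm_sub {q z : ℂ} (h : 1 ≤ ‖q‖) :
    ‖z - q‖ ^ 2 = ‖z‖ ^ 2 - 2 * ‖q‖ * (z * (starRingEnd ℂ) (dr q)).re + ‖q‖ ^ 2 := by
  obtain ⟨h1, h2⟩ := A2_dr h
  have e : (z * (starRingEnd ℂ) q).re = ‖q‖ * (z * (starRingEnd ℂ) (dr q)).re := by
    have h4 : z * (starRingEnd ℂ) q = (‖q‖ : ℂ) * (z * (starRingEnd ℂ) (dr q)) := by
      conv_lhs => rw [h2]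
      rw [map_mul, Complex.conj_ofReal]
      ring
    rw [h4, Complex.re_ofReal_mul]
  have h3 := Complex.normSq_sub z q
  rw [Complex.normSq_eq_norm_sq, Complex.normSq_eq_norm_sq, Complex.normSq_eq_norm_sq, e] at h3
  rw [h3]
  ring

private theorem A2_lt_norm {q z : ℂ} (h : 1 ≤ ‖q‖)
    (hz : (z * (starRingEnd ℂ) (dr q)).re < ‖q‖ / 2) : ‖z‖ < ‖z - q‖ := by
  have h1 := A2_norm_sub (z := z) h
  have h2 : ‖z‖ ^ 2 < ‖z - q‖ ^ 2 := by
    rw [h1]
    nlinarith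
  exact lt_of_pow_lt_pow_left₀ 2 (norm_nonneg _) h2

/-- If the angle between `q, q'` were less than `bet q + bet q'` then
`‖q - q'‖^2 < (4/3) (cos² b + cos² b' - 2 cos b cos b' cos (b + b')) = (4/3) sin² (b + b') ≤ 1`. -/
theorem bet_angle {q q' : ℂ} (h1 : 1 ≤ ‖q‖) (h1' : 1 ≤ ‖q'‖) (h2 : ‖q‖ < 2 / √3) (h2' : ‖q'‖ < 2 / √3)
    (h : 1 ≤ ‖q - q'‖) : bet q + bet q' ≤ |(dr q' * (starRingEnd ℂ) (dr q)).arg| := by
  by_contra hcon
  rw [not_le] at hcon
  have h3 := A2_pos3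
  have h33 := A2_sq3
  obtain ⟨n1, e1⟩ := A2_dr h1
  obtain ⟨n1', e1'⟩ := A2_dr h1'
  set w : ℂ := dr q' * (starRingEnd ℂ) (dr q) with hw
  have hwn : ‖w‖ = 1 := by rw [hw, norm_mul, A2_conj_norm, n1, n1', one_mul]
  have hre : w.re = Real.cos |w.arg| := by
    have h4 := Complex.norm_mul_cos_arg w
    rw [hwn, one_mul] at h4
    rw [Real.cos_abs, h4]
  have hb := bet_le h1
  have hb' := bet_le h1'
  have hb0 := bet_pos h2
  have hb0' := bet_pos h2'
  have hc := cos_bet h2.le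
  have hc' := cos_bet h2'.le
  have hpi := Real.pi_pos
  have hlt : Real.cos (bet q + bet q') < w.re := by
    rw [hre]
    exact Real.cos_lt_cos_of_nonneg_of_le_pi (abs_nonneg _) (by linarith) hcon
  have hN := A2_norm_sub (z := q') h1
  have e5 : (q' * (starRingEnd ℂ) (dr q)).re = ‖q'‖ * w.re := by
    conv_lhs => rw [e1']
    rw [hw, mul_assoc, Complex.re_ofReal_mul]
  rw [e5] at hN
  have hN' : ‖q' - q‖ = ‖q - q'‖ := norm_sub_rev _ _
  rw [hN'] at hN
  have hge : 1 ≤ ‖q - q'‖ ^ 2 := by nlinarith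
  set a : ℝ := bet q with ha
  set b : ℝ := bet q' with hb2
  have hs1 := Real.sin_sq_add_cos_sq a
  have hs2 := Real.sin_sq_add_cos_sq b
  have hid : Real.cos a ^ 2 + Real.cos b ^ 2 - 2 * Real.cos a * Real.cos b * Real.cos (a + b) =
      Real.sin (a + b) ^ 2 := by
    rw [Real.cos_add, Real.sin_add]
    have e6 : Real.sin a ^ 2 = 1 - Real.cos a ^ 2 := by linarith
    have e7 : Real.sin b ^ 2 = 1 - Real.cos b ^ 2 := by linarith
    ring_nf
    rw [e6, e7]
    ring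
  have hsin : Real.sin (a + b) ≤ √3 / 2 := by
    rw [← Real.sin_pi_div_three]
    exact Real.sin_le_sin_of_le_of_le_pi_div_two (by linarith) (by linarith) (by linarith)
  have hsin0 : 0 ≤ Real.sin (a + b) :=
    Real.sin_nonneg_of_nonneg_of_le_pi (by linarith) (by linarith)
  have hsq : Real.sin (a + b) ^ 2 ≤ 3 / 4 := by nlinarith
  have hq : 0 < ‖q‖ := by linarith
  have hq' : 0 < ‖q'‖ := by linarith
  -- `(3/4) ‖q - q'‖²`
  have hx : (3 / 4) * ‖q - q'‖ ^ 2 = Real.cos a ^ 2 + Real.cos b ^ 2 -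
      2 * Real.cos a * Real.cos b * w.re := by
    rw [hN, hc, hc']
    have : (√3 : ℝ) ^ 2 = 3 := by rw [sq]; exact h33
    ring_nf
    rw [this]
    ring
  have hpos : 0 < Real.cos a * Real.cos b := by
    rw [hc, hc']
    positivity
  have hy : Real.cos a * Real.cos b * Real.cos (a + b) < Real.cos a * Real.cos b * w.re :=
    mul_lt_mul_of_pos_left hlt hpos
  linarith

theorem Sq_disjoint {q q' : ℂ} (h1 : 1 ≤ ‖q‖) (h1' : 1 ≤ ‖q'‖) (h2 : ‖q‖ < 2 / √3) (h2' : ‖q'‖ < 2 / √3)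
    (h : 1 ≤ ‖q - q'‖) : Disjoint (Sq q) (Sq q') := by
  rw [Set.disjoint_left]
  rintro z ⟨hz0, -, ha1, ha2⟩ ⟨-, -, hb1, hb2⟩
  have hang := bet_angle h1 h1' h2 h2' h
  obtain ⟨n1, e1⟩ := A2_dr h1
  obtain ⟨n1', e1'⟩ := A2_dr h1'
  have hb := bet_le h1
  have hb' := bet_le h1'
  have hpi := Real.pi_pos
  have d0 : dr q ≠ 0 := by rw [← norm_ne_zero_iff, n1]; norm_num
  have d0' : dr q' ≠ 0 := by rw [← norm_ne_zero_iff, n1']; norm_num
  have c0 : (starRingEnd ℂ) (dr q) ≠ 0 := by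
    rw [← norm_ne_zero_iff, A2_conj_norm, n1]; norm_num
  have c0' : (starRingEnd ℂ) (dr q') ≠ 0 := by
    rw [← norm_ne_zero_iff, A2_conj_norm, n1']; norm_num
  set u : ℂ := z * (starRingEnd ℂ) (dr q) with hu
  set v : ℂ := z * (starRingEnd ℂ) (dr q') with hv
  have hu0 : u ≠ 0 := mul_ne_zero hz0 c0
  have hv0 : v ≠ 0 := mul_ne_zero hz0 c0'
  have hcv : ((starRingEnd ℂ) v).arg = -v.arg := by
    rw [Complex.arg_conj, if_neg]
    linarith
  have hcv0 : (starRingEnd ℂ) v ≠ 0 := by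
    rw [← norm_ne_zero_iff, A2_conj_norm, norm_ne_zero_iff]; exact hv0
  have e2 : u * (starRingEnd ℂ) v = ((‖z‖ ^ 2 : ℝ) : ℂ) * (dr q' * (starRingEnd ℂ) (dr q)) := by
    have h5 : z * (starRingEnd ℂ) z = ((‖z‖ ^ 2 : ℝ) : ℂ) := by
      rw [Complex.mul_conj, Complex.normSq_eq_norm_sq]
    rw [← h5, hu, hv, map_mul, Complex.conj_conj]
    ring
  have hzp : 0 < ‖z‖ ^ 2 := by
    have := norm_pos_iff.2 hz0
    positivity
  have e3 : (dr q' * (starRingEnd ℂ) (dr q)).arg = u.arg - v.arg := by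
    rw [← Complex.arg_real_mul _ hzp, ← e2, Complex.arg_mul hu0 hcv0, hcv]
    · ring
    · rw [hcv]
      exact ⟨by linarith, by linarith⟩
  rw [e3] at hang
  have h6 : |u.arg - v.arg| < bet q + bet q' := by
    rw [abs_lt]
    constructor <;> linarith
  linarith

private theorem A2_bet_nonneg (q : ℂ) : 0 ≤ bet q := Real.arccos_nonneg _

/-- off the sector of `q` the bisector condition holds inside the disc of radius `1/√3` -/
theorem off_sector {q z : ℂ} (h1 : 1 ≤ ‖q‖) (hz : ‖z‖ < 1 / √3) (h : z ∉ Sq q ∨ 2 / √3 ≤ ‖q‖) : ‖z‖ < ‖z - q‖ := by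
  have h3 := A2_pos3
  have h33 := A2_sq3
  obtain ⟨n1, e1⟩ := A2_dr h1
  refine A2_lt_norm h1 ?_
  set u : ℂ := z * (starRingEnd ℂ) (dr q) with hu
  have hun : ‖u‖ = ‖z‖ := by rw [hu, norm_mul, A2_conj_norm, n1, mul_one]
  have hfar : 2 / √3 ≤ ‖q‖ → u.re < ‖q‖ / 2 := by
    intro h2
    have h4 : u.re ≤ ‖u‖ := Complex.re_le_norm u
    rw [hun] at h4
    have h5 : 2 / √3 = 2 * (1 / √3) := by ring
    linarith
  rcases h with h | h
  · rcases le_or_gt (2 / √3) ‖q‖ with h2 | h2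
    · exact hfar h2
    · by_cases hz0 : z = 0
      · have : u = 0 := by rw [hu, hz0, zero_mul]
        rw [this, Complex.zero_re]
        linarith
      · have hb : bet q ≤ |u.arg| := by
          by_contra hcon
          rw [not_le, abs_lt] at hcon
          exact h ⟨hz0, hz, hcon.1, hcon.2⟩
        have hcos : Real.cos |u.arg| ≤ Real.cos (bet q) :=
          Real.cos_le_cos_of_nonneg_of_le_pi (A2_bet_nonneg q) (Complex.abs_arg_le_pi u) hb
        rw [Real.cos_abs, cos_bet h2.le] at hcos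
        have h4 : u.re = ‖z‖ * Real.cos u.arg := by
          rw [← hun, Complex.norm_mul_cos_arg]
        have hzp : 0 < ‖z‖ := norm_pos_iff.2 hz0
        have h5 : u.re ≤ ‖z‖ * (√3 / 2 * ‖q‖) := by
          rw [h4]
          exact mul_le_mul_of_nonneg_left hcos hzp.le
        have h6 : ‖z‖ * √3 < 1 := by
          rwa [lt_div_iff₀ h3] at hz
        have h7 : ‖z‖ * (√3 / 2 * ‖q‖) < ‖q‖ / 2 := by
          have : ‖z‖ * (√3 / 2 * ‖q‖) = (‖z‖ * √3) * (‖q‖ / 2) := by ring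
          rw [this]
          have hq : 0 < ‖q‖ / 2 := by linarith
          nlinarith
        linarith
  · exact hfar h

theorem tri_side {q z : ℂ} (h1 : 1 ≤ ‖q‖) {a b : ℝ} (hz : z ∈ Tri (‖q‖ / 2) (dr q) a b) : ‖z‖ < ‖z - q‖ :=
  A2_lt_norm h1 hz.2.1

theorem Cell_open (Q : Finset ℂ) : IsOpen (Cell Q) := by
  have e : Cell Q = ⋂ q ∈ Q, {z : ℂ | ‖z‖ < ‖z - q‖} := by
    ext z
    simp [Cell]
  rw [e]
  refine isOpen_biInter_finset fun q _ => ?_
  exact isOpen_lt continuous_norm ((continuous_id.sub continuous_const).norm)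

private theorem A2_pi : 3.1415 < Real.pi ∧ Real.pi < 3.1416 :=
  ⟨Real.pi_gt_d4, Real.pi_lt_d4⟩

private theorem A2_sqrt3 : 1.7320 < √3 ∧ √3 < 1.7321 := by
  constructor
  · exact Real.lt_sqrt_of_sq_lt (by norm_num)
  · rw [Real.sqrt_lt' (by norm_num)]
    norm_num

/-- numerical facts: `c0` is between `0.8269` and `0.8271` -/
theorem c0_bounds : 0.8269 < c0 ∧ c0 < 0.8271 := by
  obtain ⟨p1, p2⟩ := A2_pi
  obtain ⟨s1, s2⟩ := A2_sqrt3
  unfold c0
  constructor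
  · rw [lt_div_iff₀ (by linarith)]
    linarith
  · rw [div_lt_iff₀ (by linarith)]
    linarith

/-- `Gf` is concave on `[0, π/6]` with `Gf 0 = Gf (π/6) = 0`, `Gf (π/12) = 1/4 - c0 π/12 ≥ (1/8) π/12` -/
theorem Gf_ge {b : ℝ} (h0 : 0 ≤ b) (h1 : b ≤ Real.pi / 6) : (1 / 8) * min b (Real.pi / 6 - b) ≤ Gf b := by
  have hpi := Real.pi_pos
  obtain ⟨p1, p2⟩ := A2_pi
  obtain ⟨s1, s2⟩ := A2_sqrt3
  have hconc := strictConcaveOn_sin_Icc.concaveOn
  have hsc : Real.sin b * Real.cos b = Real.sin (2 * b) / 2 := by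
    rw [Real.sin_two_mul]; ring
  have hc0 : c0 * Real.pi = 3 * √3 / 2 := by
    unfold c0
    field_simp
  have hk : 1 / 8 * Real.pi ≤ 3 * (1 - √3 / 2) := by linarith
  unfold Gf
  rw [hsc]
  rcases le_or_gt b (Real.pi / 12) with hb | hb
  · have h2 : min b (Real.pi / 6 - b) = b := min_eq_left (by linarith)
    rw [h2]
    set l : ℝ := 12 * b / Real.pi with hl
    have hlpi : l * Real.pi = 12 * b := by
      rw [hl]; field_simp
    have hl0 : 0 ≤ l := by positivity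
    have hl1 : l ≤ 1 := by
      rw [hl, div_le_one hpi]
      linarith
    have h3 := hconc.2 (x := Real.pi / 6) (y := 0) ⟨by linarith, by linarith⟩
      ⟨le_rfl, hpi.le⟩ hl0 (by linarith : (0 : ℝ) ≤ 1 - l) (by ring)
    simp only [smul_eq_mul, Real.sin_pi_div_six, Real.sin_zero, mul_zero, add_zero] at h3
    have h4 : l * (Real.pi / 6) = 2 * b := by linarith
    rw [h4] at h3
    -- multiply by π
    have h5 : (1 / 8 * b) * Real.pi ≤ (Real.sin (2 * b) / 2 - c0 * b) * Real.pi := by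
      have h6 : (l * (1 / 2)) * Real.pi ≤ Real.sin (2 * b) * Real.pi :=
        mul_le_mul_of_nonneg_right h3 hpi.le
      have h7 : c0 * b * Real.pi = 3 * √3 / 2 * b := by
        rw [← hc0]; ring
      nlinarith
    exact le_of_mul_le_mul_right h5 hpi
  · have h2 : min b (Real.pi / 6 - b) = Real.pi / 6 - b := min_eq_right (by linarith)
    rw [h2]
    set l : ℝ := 12 * (Real.pi / 6 - b) / Real.pi with hl
    have hlpi : l * Real.pi = 12 * (Real.pi / 6 - b) := by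
      rw [hl]; field_simp
    have hl0 : 0 ≤ l := by
      rw [hl]
      apply div_nonneg _ hpi.le
      linarith
    have hl1 : l ≤ 1 := by
      rw [hl, div_le_one hpi]
      linarith
    have h3 := hconc.2 (x := Real.pi / 6) (y := Real.pi / 3) ⟨by linarith, by linarith⟩
      ⟨by linarith, by linarith⟩ hl0 (by linarith : (0 : ℝ) ≤ 1 - l) (by ring)
    simp only [smul_eq_mul, Real.sin_pi_div_six, Real.sin_pi_div_three] at h3
    have h4 : l * (Real.pi / 6) + (1 - l) * (Real.pi / 3) = 2 * b := by linarith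
    rw [h4] at h3
    have h5 : (1 / 8 * (Real.pi / 6 - b)) * Real.pi ≤
        (Real.sin (2 * b) / 2 - c0 * b) * Real.pi := by
      have h6 : (l * (1 / 2) + (1 - l) * (√3 / 2)) * Real.pi ≤ Real.sin (2 * b) * Real.pi :=
        mul_le_mul_of_nonneg_right h3 hpi.le
      have h7 : c0 * b * Real.pi = 3 * √3 / 2 * b := by
        rw [← hc0]; ring
      have h8 : (l * (1 / 2) + (1 - l) * (√3 / 2)) * Real.pi =
          (l * Real.pi) * (1 / 2 - √3 / 2) + √3 / 2 * Real.pi := by ring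
      rw [h8, hlpi] at h6
      have h9 : 1 / 8 * Real.pi * (Real.pi / 6 - b) ≤ 3 * (1 - √3 / 2) * (Real.pi / 6 - b) :=
        mul_le_mul_of_nonneg_right hk (by linarith)
      nlinarith
    exact le_of_mul_le_mul_right h5 hpi

end H24
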