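import Pool.Agent.Lib_MP_27c196_co.E.A1
import Pool.Agent.Lib_MP_27c196_co.E.A2

/-! H24 E, piece B1: interior cells, lower bound -/

set_option linter.unusedVariables false

noncomputable section

namespace H24

open Finset MeasureTheory

private theorem B1_mem {Q : Finset ℂ} {q : ℂ} (hq : q ∈ Qn Q) : q ∈ Q ∧ ‖q‖ < 2 / √3 :=
  Finset.mem_filter.1 hq

private theorem B1_dr {q : ℂ} (h : 1 ≤ ‖q‖) : ‖dr q‖ = 1 := by
  unfold dr
  rw [norm_div, Complex.norm_real, norm_norm, div_self]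
  linarith

private theorem B1_bet {Q : Finset ℂ} (hQ : Sep1 Q) {q : ℂ} (hq : q ∈ Qn Q) :
    0 < bet q ∧ bet q ≤ Real.pi / 6 :=
  ⟨bet_pos (B1_mem hq).2, bet_le (hQ.1 q (B1_mem hq).1)⟩

private theorem B1_Sq_sub (q : ℂ) : Sq q ⊆ Metric.ball 0 (1 / √3) := by
  rintro z ⟨-, h, -⟩
  rwa [mem_ball_zero_iff]

private theorem B1_Sq_vol {Q : Finset ℂ} (hQ : Sep1 Q) {q : ℂ} (hq : q ∈ Qn Q) :
    volume.real (Sq q) = bet q / 3 := by
  obtain ⟨h1, h2⟩ := B1_bet hQ hq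
  have hpi := Real.pi_pos
  have h3 := sqrt3_sq
  have h0 := sqrt3_pos
  unfold Sq
  rw [Sec_vol (by positivity) (B1_dr (hQ.1 q (B1_mem hq).1)) (by linarith) (by linarith)
    (by linarith)]
  have : (1 / √3) ^ 2 = 1 / 3 := by
    rw [div_pow, one_pow, sq, h3]
  rw [this]
  ring

private theorem B1_disj {Q : Finset ℂ} (hQ : Sep1 Q) {q q' : ℂ} (hq : q ∈ Qn Q) (hq' : q' ∈ Qn Q)
    (hne : q ≠ q') : Disjoint (Sq q) (Sq q') :=
  Sq_disjoint (hQ.1 q (B1_mem hq).1) (hQ.1 q' (B1_mem hq').1) (B1_mem hq).2 (B1_mem hq').2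
    (hQ.2 q (B1_mem hq).1 q' (B1_mem hq').1 hne)

private theorem B1_ball : volume.real (Metric.ball (0 : ℂ) (1 / √3)) = Real.pi / 3 := by
  have h3 := sqrt3_sq
  have h0 := sqrt3_pos
  rw [Measure.real, Complex.volume_ball, ENNReal.toReal_mul, ENNReal.toReal_pow,
    ENNReal.toReal_ofReal (by positivity)]
  have : (1 / √3) ^ 2 = 1 / 3 := by
    rw [div_pow, one_pow, sq, h3]
  rw [this]
  simp
  ring

private theorem B1_fin {S : Set ℂ} (h : S ⊆ Metric.ball 0 (1 / √3)) : volume S ≠ ⊤ :=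
  ne_top_of_le_ne_top Metric.isBounded_ball.measure_lt_top.ne (measure_mono h)

private theorem B1_union {Q : Finset ℂ} (hQ : Sep1 Q) :
    volume.real (⋃ q ∈ Qn Q, Sq q) = (∑ q ∈ Qn Q, bet q) / 3 := by
  rw [measureReal_biUnion_finset (fun q hq q' hq' hne => B1_disj hQ hq hq' hne)
    (fun q hq => Sec_meas _ _ _ _) (fun q hq => B1_fin (B1_Sq_sub q)), Finset.sum_div]
  exact Finset.sum_congr rfl fun q hq => B1_Sq_vol hQ hq

/-- the disjoint sectors have areas `bet q / 3` in a disc of area `π/3` -/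
theorem sum_bet_le {Q : Finset ℂ} (hQ : Sep1 Q) : ∑ q ∈ Qn Q, bet q ≤ Real.pi := by
  have h1 := B1_union hQ
  have h2 : volume.real (⋃ q ∈ Qn Q, Sq q) ≤ volume.real (Metric.ball (0 : ℂ) (1 / √3)) :=
    measureReal_mono (Set.iUnion₂_subset fun q _ => B1_Sq_sub q) (B1_fin subset_rfl)
  rw [h1, B1_ball] at h2
  linarith

private theorem B1_Tri_sub {Q : Finset ℂ} (hQ : Sep1 Q) {q : ℂ} (hq : q ∈ Qn Q) :
    Tri (‖q‖ / 2) (dr q) (-bet q) (bet q) ⊆ Sq q := by
  intro z hz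
  obtain ⟨h1, h2⟩ := B1_bet hQ hq
  have hpi := Real.pi_pos
  have h0 := sqrt3_pos
  have hq1 := hQ.1 q (B1_mem hq).1
  obtain ⟨k1, k2, k3⟩ := Tri_arg (by linarith) (by linarith) hz (by linarith)
  have k4 := Tri_norm (β := bet q) (B1_dr hq1) le_rfl le_rfl h1.le (by linarith) hz (by linarith)
  rw [cos_bet (B1_mem hq).2.le] at k4
  refine ⟨k1, ?_, k2, k3⟩
  rw [lt_div_iff₀ h0]
  have hqp : 0 < ‖q‖ := by linarith
  have k5 : (‖z‖ * √3) * (‖q‖ / 2) < 1 * (‖q‖ / 2) := by linarith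
  exact lt_of_mul_lt_mul_right k5 (by positivity)

private theorem B1_Tri_vol {Q : Finset ℂ} (hQ : Sep1 Q) {q : ℂ} (hq : q ∈ Qn Q) :
    volume.real (Tri (‖q‖ / 2) (dr q) (-bet q) (bet q)) =
      Real.sin (bet q) * Real.cos (bet q) / 3 := by
  obtain ⟨h1, h2⟩ := B1_bet hQ hq
  have hpi := Real.pi_pos
  have h0 := sqrt3_pos
  have h3 := sqrt3_sq
  have hq1 := hQ.1 q (B1_mem hq).1
  rw [Tri_vol (by positivity) (B1_dr hq1) (by linarith) (by linarith) (by linarith),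
    Real.tan_neg, Real.tan_eq_sin_div_cos]
  have hc := cos_bet (B1_mem hq).2.le
  have hc0 : Real.cos (bet q) ≠ 0 := by
    rw [hc]
    have : 0 < ‖q‖ := by linarith
    positivity
  have h4 : (‖q‖ / 2) ^ 2 = Real.cos (bet q) ^ 2 / 3 := by
    rw [hc]
    have : (√3 : ℝ) ^ 2 = 3 := by rw [sq]; exact h3
    ring_nf
    rw [this]
    ring
  rw [h4]
  field_simp
  ring

/-- `Cell Q ∩ ball` contains the disc minus the sectors `Sq q` (`off_sector`) and the triangles `Tri (‖q‖/2) (dr q) (-bet q) (bet q) ⊆ Sq q` of area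
`(1/3) sin cos` (`‖q‖/2 = cos (bet q)/√3`). -/
theorem int_lower {Q : Finset ℂ} (hQ : Sep1 Q) :
    √3 / 2 + (1 - c0) / 3 * (Real.pi - ∑ q ∈ Qn Q, bet q) + (1 / 3) * ∑ q ∈ Qn Q, Gf (bet q) ≤
      volume.real (Cell Q ∩ Metric.ball 0 (1 / √3)) := by
  set D : Set ℂ := Metric.ball 0 (1 / √3) with hD
  set U : Set ℂ := ⋃ q ∈ Qn Q, Sq q with hU
  set S : Set ℂ := ⋃ q ∈ Qn Q, Tri (‖q‖ / 2) (dr q) (-bet q) (bet q) with hS
  have hUD : U ⊆ D := Set.iUnion₂_subset fun q _ => B1_Sq_sub q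
  have hSU : S ⊆ U := Set.iUnion₂_mono fun q hq => B1_Tri_sub hQ hq
  have hUm : MeasurableSet U := Finset.measurableSet_biUnion _ fun q _ => Sec_meas _ _ _ _
  have hSm : MeasurableSet S := Finset.measurableSet_biUnion _ fun q _ => Tri_meas _ _ _ _
  have hSv : volume.real S = ∑ q ∈ Qn Q, Real.sin (bet q) * Real.cos (bet q) / 3 := by
    rw [hS, measureReal_biUnion_finset (fun q hq q' hq' hne =>
      (B1_disj hQ hq hq' hne).mono (B1_Tri_sub hQ hq) (B1_Tri_sub hQ hq'))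
      (fun q hq => Tri_meas _ _ _ _)
      (fun q hq => B1_fin ((B1_Tri_sub hQ hq).trans (B1_Sq_sub q)))]
    exact Finset.sum_congr rfl fun q hq => B1_Tri_vol hQ hq
  have hDU : volume.real (D \ U) = Real.pi / 3 - (∑ q ∈ Qn Q, bet q) / 3 := by
    rw [measureReal_sdiff hUD hUm (B1_fin subset_rfl), B1_ball, B1_union hQ]
  have hdis : Disjoint (D \ U) S := by
    rw [Set.disjoint_left]
    intro z hz hz'
    exact hz.2 (hSU hz')
  have hsum : volume.real ((D \ U) ∪ S) = volume.real (D \ U) + volume.real S :=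
    measureReal_union hdis hSm (B1_fin Set.sdiff_subset) (B1_fin (hSU.trans hUD))
  have hsub : (D \ U) ∪ S ⊆ Cell Q ∩ D := by
    rintro z (hz | hz)
    · refine ⟨fun q hq => ?_, hz.1⟩
      refine off_sector (hQ.1 q hq) (mem_ball_zero_iff.1 hz.1) ?_
      rcases lt_or_ge ‖q‖ (2 / √3) with h | h
      · left
        intro hzq
        exact hz.2 (Set.mem_biUnion (Finset.mem_coe.2 (Finset.mem_filter.2 ⟨hq, h⟩)) hzq)
      · exact Or.inr h
    · obtain ⟨q, hq, hzq⟩ := Set.mem_iUnion₂.1 hz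
      have hzS := B1_Tri_sub hQ hq hzq
      have hzD := B1_Sq_sub q hzS
      refine ⟨fun q' hq' => ?_, hzD⟩
      by_cases hqq : q' = q
      · rw [hqq]
        exact tri_side (hQ.1 q (B1_mem hq).1) hzq
      · refine off_sector (hQ.1 q' hq') (mem_ball_zero_iff.1 hzD) ?_
        rcases lt_or_ge ‖q'‖ (2 / √3) with h | h
        · left
          intro hzq'
          exact Set.disjoint_left.1 (B1_disj hQ (Finset.mem_filter.2 ⟨hq', h⟩) hq hqq) hzq' hzS
        · exact Or.inr h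
  have hle : volume.real ((D \ U) ∪ S) ≤ volume.real (Cell Q ∩ D) :=
    measureReal_mono hsub (B1_fin Set.inter_subset_right)
  rw [hsum, hDU, hSv] at hle
  refine le_trans (le_of_eq ?_) hle
  have hG : ∑ q ∈ Qn Q, Gf (bet q) = (∑ q ∈ Qn Q, Real.sin (bet q) * Real.cos (bet q)) -
      c0 * ∑ q ∈ Qn Q, bet q := by
    unfold Gf
    rw [Finset.sum_sub_distrib, Finset.mul_sum]
  have hc : c0 * Real.pi = 3 * √3 / 2 := by
    have := Real.pi_pos
    unfold c0
    field_simp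
  rw [hG, ← Finset.sum_div]
  linear_combination (-1 / 3) * hc

end H24
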