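import Pool.Agent.Lib_MP_27c196_co.E.B1

/-! H24 E, piece B2: interior cells, stability -/

set_option linter.unusedVariables false

noncomputable section

namespace H24

open Finset MeasureTheory

private theorem B2_conj_norm (e : ℂ) : ‖(starRingEnd ℂ) e‖ = ‖e‖ := by
  rw [RCLike.norm_conj]

private theorem B2_dr {q : ℂ} (h : 1 ≤ ‖q‖) : ‖dr q‖ = 1 ∧ q = (‖q‖ : ℂ) * dr q := by
  have h0 : (‖q‖ : ℂ) ≠ 0 := by
    have : ‖q‖ ≠ 0 := by linarith
    exact_mod_cast this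
  constructor
  · unfold dr
    rw [norm_div, Complex.norm_real, norm_norm, div_self]
    linarith
  · unfold dr
    field_simp

private theorem B2_mem {Q : Finset ℂ} (hQ : Sep1 Q) {q : ℂ} (h : q ∈ Qn Q) : q ∈ Q ∧ 1 ≤ ‖q‖ ∧ ‖q‖ < 2 / √3 := by
  unfold Qn at h
  rw [Finset.mem_filter] at h
  exact ⟨h.1, hQ.1 q h.1, h.2⟩

private theorem B2_sec_fin (R : ℝ) (e : ℂ) (α β : ℝ) : volume (Sec R e α β) ≠ ⊤ := by
  have h : Sec R e α β ⊆ Metric.ball 0 R := by
    rintro z ⟨-, h, -⟩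
    rwa [mem_ball_zero_iff]
  exact ne_top_of_le_ne_top (measure_ball_lt_top.ne) (measure_mono h)

/-- the angle between `q1` and `q2` when the sectors have a common point -/
private theorem B2_arg {a b z : ℂ} (ha : ‖a‖ = 1) (hb : ‖b‖ = 1) (hz0 : z ≠ 0)
    (h1 : -(Real.pi / 2) < (z * (starRingEnd ℂ) a).arg) (h2 : (z * (starRingEnd ℂ) a).arg < Real.pi / 2)
    (h3 : -(Real.pi / 2) < (z * (starRingEnd ℂ) b).arg) (h4 : (z * (starRingEnd ℂ) b).arg < Real.pi / 2) :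
    (b * (starRingEnd ℂ) a).arg = (z * (starRingEnd ℂ) a).arg - (z * (starRingEnd ℂ) b).arg := by
  have hpi := Real.pi_pos
  have c0 : (starRingEnd ℂ) a ≠ 0 := by
    rw [← norm_ne_zero_iff, B2_conj_norm, ha]; norm_num
  have c0' : (starRingEnd ℂ) b ≠ 0 := by
    rw [← norm_ne_zero_iff, B2_conj_norm, hb]; norm_num
  set u : ℂ := z * (starRingEnd ℂ) a with hu
  set v : ℂ := z * (starRingEnd ℂ) b with hv
  have hu0 : u ≠ 0 := mul_ne_zero hz0 c0
  have hv0 : v ≠ 0 := mul_ne_zero hz0 c0'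
  have hcv : ((starRingEnd ℂ) v).arg = -v.arg := by
    rw [Complex.arg_conj, if_neg]
    linarith
  have hcv0 : (starRingEnd ℂ) v ≠ 0 := by
    rw [← norm_ne_zero_iff, B2_conj_norm, norm_ne_zero_iff]; exact hv0
  have e2 : u * (starRingEnd ℂ) v = ((‖z‖ ^ 2 : ℝ) : ℂ) * (b * (starRingEnd ℂ) a) := by
    have h5 : z * (starRingEnd ℂ) z = ((‖z‖ ^ 2 : ℝ) : ℂ) := by
      rw [Complex.mul_conj, Complex.normSq_eq_norm_sq]
    rw [← h5, hu, hv, map_mul, Complex.conj_conj]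
    ring
  have hzp : 0 < ‖z‖ ^ 2 := by
    have := norm_pos_iff.2 hz0
    positivity
  rw [← Complex.arg_real_mul _ hzp, ← e2, Complex.arg_mul hu0 hcv0, hcv]
  · ring
  · rw [hcv]
    exact ⟨by linarith, by linarith⟩

/-- NEXT NEIGHBOUR in a window `U` (the whole plane or the upper half plane). `q1` is a near point with `bet q1 ≥ π/12`. The sector `S = Sec (1/√3) (dr q1) (bet q1) (bet q1 + ε)` is in the window, and the part of
`ball ∩ U` not covered by the sectors of the big near points (`bet > π/12`) has area `< ε/6` = area of `S`. So some `z ∈ S` is in `Sq q2`, `q2` big, `q2 ≠ q1`;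
`arg (dr q2 conj (dr q1)) ∈ (bet q1 - bet q2, bet q1 + bet q2 + ε)` and (`bet_angle`) it is `≥ bet q1 + bet q2` in absolute value. -/
theorem next_neighbour {Q : Finset ℂ} (hQ : Sep1 Q) {U : Set ℂ} (hU : MeasurableSet U) {ε : ℝ} (hε : 0 < ε) (hε1 : ε ≤ 1 / 10) {q1 : ℂ}
    (hq1 : q1 ∈ Qn Q) (hwin : Sec (1 / √3) (dr q1) (bet q1) (bet q1 + ε) ⊆ U)
    (hcov : volume.real ((Metric.ball 0 (1 / √3) ∩ U) \ ⋃ q ∈ (Qn Q).filter (fun q => Real.pi / 12 < bet q), Sq q) < ε / 6) :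
    ∃ q2 ∈ Qn Q, Real.pi / 12 < bet q2 ∧ bet q1 + bet q2 ≤ (dr q2 * (starRingEnd ℂ) (dr q1)).arg ∧
      (dr q2 * (starRingEnd ℂ) (dr q1)).arg ≤ bet q1 + bet q2 + ε := by
  obtain ⟨m1, n1, l1⟩ := B2_mem hQ hq1
  obtain ⟨d1, -⟩ := B2_dr n1
  have b1 := bet_pos l1
  have b1' := bet_le n1
  have hpi : 3 < Real.pi := Real.pi_gt_three
  have h3 : 0 < √3 := Real.sqrt_pos.2 (by norm_num)
  have h33 : √3 ^ 2 = 3 := Real.sq_sqrt (by norm_num)
  have hvol : volume.real (Sec (1 / √3) (dr q1) (bet q1) (bet q1 + ε)) = ε / 6 := by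
    rw [Sec_vol (by positivity) d1 (by linarith) (by linarith) (by linarith)]
    rw [div_pow, h33]
    ring
  have hex : ∃ z ∈ Sec (1 / √3) (dr q1) (bet q1) (bet q1 + ε),
      z ∈ ⋃ q ∈ (Qn Q).filter (fun q => Real.pi / 12 < bet q), Sq q := by
    by_contra hcon
    push Not at hcon
    have hsub : Sec (1 / √3) (dr q1) (bet q1) (bet q1 + ε) ⊆
        (Metric.ball 0 (1 / √3) ∩ U) \ ⋃ q ∈ (Qn Q).filter (fun q => Real.pi / 12 < bet q), Sq q := by
      intro z hz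
      refine ⟨⟨?_, hwin hz⟩, hcon z hz⟩
      rw [mem_ball_zero_iff]
      exact hz.2.1
    have hfin : volume ((Metric.ball (0 : ℂ) (1 / √3) ∩ U) \
        ⋃ q ∈ (Qn Q).filter (fun q => Real.pi / 12 < bet q), Sq q) ≠ ⊤ := by
      refine ne_top_of_le_ne_top (measure_ball_lt_top (x := (0 : ℂ)) (r := 1 / √3)).ne (measure_mono ?_)
      rintro z ⟨⟨hz, -⟩, -⟩
      exact hz
    have := measureReal_mono hsub hfin
    rw [hvol] at this
    linarith
  obtain ⟨z, ⟨hz0, hzR, hza, hzb⟩, hz⟩ := hex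
  simp only [Set.mem_iUnion] at hz
  obtain ⟨q2, hq2, hz2⟩ := hz
  rw [Finset.mem_filter] at hq2
  obtain ⟨m2, n2, l2⟩ := B2_mem hQ hq2.1
  obtain ⟨d2, -⟩ := B2_dr n2
  have b2 := bet_pos l2
  have b2' := bet_le n2
  obtain ⟨-, -, hzc, hzd⟩ := hz2
  have hne : q1 ≠ q2 := by
    rintro rfl
    linarith
  have hsep := hQ.2 q1 m1 q2 m2 hne
  have hang := bet_angle n1 n2 l1 l2 hsep
  have harg := B2_arg d1 d2 hz0 (by linarith) (by linarith) (by linarith) (by linarith)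
  refine ⟨q2, hq2.1, hq2.2, ?_, by linarith⟩
  rcases le_abs.1 hang with h | h
  · exact h
  · exfalso
    linarith

private theorem B2_w6 : w6 = Complex.exp (((Real.pi / 3 : ℝ) : ℂ) * Complex.I) := by
  rw [Complex.exp_mul_I, ← Complex.ofReal_cos, ← Complex.ofReal_sin, Real.cos_pi_div_three, Real.sin_pi_div_three]
  apply Complex.ext <;> simp [w6]

private theorem B2_w6_norm : ‖w6‖ = 1 := by
  rw [B2_w6, Complex.norm_exp_ofReal_mul_I]

private theorem B2_w6_six : w6 ^ 6 = 1 := by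
  rw [B2_w6, ← Complex.exp_nat_mul]
  have : ((6 : ℕ) : ℂ) * (((Real.pi / 3 : ℝ) : ℂ) * Complex.I) = 2 * Real.pi * Complex.I := by
    push_cast
    ring
  rw [this, Complex.exp_two_pi_mul_I]

/-- chord at most arc -/
private theorem B2_chord {u : ℂ} (hu : ‖u‖ = 1) : ‖u - w6‖ ≤ |u.arg - Real.pi / 3| := by
  have e1 : u = Complex.exp ((u.arg : ℂ) * Complex.I) := by
    have := Complex.norm_mul_exp_arg_mul_I u
    rw [hu, Complex.ofReal_one, one_mul] at this
    exact this.symm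
  have e2 : u - w6 = w6 * (Complex.exp (Complex.I * ((u.arg - Real.pi / 3 : ℝ) : ℂ)) - 1) := by
    rw [mul_sub, mul_one]
    congr 1
    rw [B2_w6, ← Complex.exp_add]
    conv_lhs => rw [e1]
    congr 1
    push_cast
    ring
  rw [e2, norm_mul, B2_w6_norm, one_mul]
  exact Real.norm_exp_I_mul_ofReal_sub_one_le

/-- bounds on the sums, from `int_lower` -/
private theorem B2_sums {Q : Finset ℂ} (hQ : Sep1 Q) {η : ℝ}
    (h : volume.real (Cell Q ∩ Metric.ball 0 (1 / √3)) - √3 / 2 < η) :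
    0 < η ∧ Real.pi - ∑ q ∈ Qn Q, bet q ≤ 17.4 * η ∧ ∑ q ∈ Qn Q, min (bet q) (Real.pi / 6 - bet q) ≤ 24 * η := by
  have h1 := int_lower hQ
  have h2 := sum_bet_le hQ
  obtain ⟨c1, c2⟩ := c0_bounds
  have h4 : (1 / 8) * ∑ q ∈ Qn Q, min (bet q) (Real.pi / 6 - bet q) ≤ ∑ q ∈ Qn Q, Gf (bet q) := by
    rw [Finset.mul_sum]
    apply Finset.sum_le_sum
    intro q hq
    obtain ⟨-, n, l⟩ := B2_mem hQ hq
    exact Gf_ge (bet_pos l).le (bet_le n)
  have h5 : 0 ≤ ∑ q ∈ Qn Q, min (bet q) (Real.pi / 6 - bet q) := by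
    apply Finset.sum_nonneg
    intro q hq
    obtain ⟨-, n, l⟩ := B2_mem hQ hq
    exact le_min (bet_pos l).le (by linarith [bet_le n])
  set A := ∑ q ∈ Qn Q, bet q with hA
  set B := ∑ q ∈ Qn Q, min (bet q) (Real.pi / 6 - bet q) with hB
  set C := ∑ q ∈ Qn Q, Gf (bet q) with hC
  have h6 : 0 ≤ (1 - c0) / 3 * (Real.pi - A) := mul_nonneg (by linarith) (by linarith)
  have h7 : (0.1729 : ℝ) / 3 * (Real.pi - A) ≤ (1 - c0) / 3 * (Real.pi - A) :=
    mul_le_mul_of_nonneg_right (by linarith) (by linarith)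
  have hη : 0 < η := by linarith
  refine ⟨hη, ?_, ?_⟩
  · linarith
  · linarith

/-- INTERIOR LOCAL LEMMA. `e := vol - √3/2 < η`. By `int_lower` and `c0_bounds`: `π - sum bet ≤ 17.4 η`, `sum Gf ≤ 3 η`, so (`Gf_ge`) `sum min (bet, π/6 - bet) ≤ 24 η`; big points: `bet ≥ π/6 - 24 η`; uncovered area
`≤ (2 * 17.4 η + 2 * 24 η)/6 < 84 η / 6`. There is a big point `q_0`; `next_neighbour` with `U = univ`, `ε = 84 η`, five times: angles of `q_j` relative to `F = dr q_0` are `j π/3 + O(84 j η)`, norms `≤ 1 + 24 η`. -/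
theorem int_local {Q : Finset ℂ} (hQ : Sep1 Q) {η : ℝ} (hη : η ≤ 1 / 100000)
    (h : volume.real (Cell Q ∩ Metric.ball 0 (1 / √3)) - √3 / 2 < η) :
    ∃ F : ℂ, ‖F‖ = 1 ∧ ∀ j : ℕ, ∃ q ∈ Q, ‖q - F * w6 ^ j‖ ≤ 1000 * η := by
  obtain ⟨hη0, s1, s2⟩ := B2_sums hQ h
  have hpi : 3 < Real.pi := Real.pi_gt_three
  have h3 : 0 < √3 := Real.sqrt_pos.2 (by norm_num)
  have h33 : √3 ^ 2 = 3 := Real.sq_sqrt (by norm_num)
  classical
  set Bg := (Qn Q).filter (fun q => Real.pi / 12 < bet q) with hBg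
  have hmin0 : ∀ q ∈ Qn Q, 0 ≤ min (bet q) (Real.pi / 6 - bet q) := by
    intro q hq
    obtain ⟨-, n, l⟩ := B2_mem hQ hq
    exact le_min (bet_pos l).le (by linarith [bet_le n])
  have hbig : ∀ q ∈ Qn Q, Real.pi / 12 < bet q → Real.pi / 6 - 24 * η ≤ bet q := by
    intro q hq hb
    have h1 := Finset.single_le_sum hmin0 hq
    have h2 : min (bet q) (Real.pi / 6 - bet q) = Real.pi / 6 - bet q := min_eq_right (by linarith)
    simp only [h2] at h1
    linarith
  -- the sum over the big points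
  have hsum : Real.pi - 41.4 * η ≤ ∑ q ∈ Bg, bet q := by
    have h1 := Finset.sum_filter_add_sum_filter_not (Qn Q) (fun q => Real.pi / 12 < bet q) bet
    have h2 : ∑ q ∈ (Qn Q).filter (fun q => ¬ Real.pi / 12 < bet q), bet q ≤
        ∑ q ∈ Qn Q, min (bet q) (Real.pi / 6 - bet q) := by
      calc ∑ q ∈ (Qn Q).filter (fun q => ¬ Real.pi / 12 < bet q), bet q
          = ∑ q ∈ (Qn Q).filter (fun q => ¬ Real.pi / 12 < bet q), min (bet q) (Real.pi / 6 - bet q) := by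
            apply Finset.sum_congr rfl
            intro q hq
            rw [Finset.mem_filter] at hq
            rw [min_eq_left]
            linarith [hq.2]
        _ ≤ ∑ q ∈ Qn Q, min (bet q) (Real.pi / 6 - bet q) :=
            Finset.sum_le_sum_of_subset_of_nonneg (Finset.filter_subset _ _) (fun q hq _ => hmin0 q hq)
    linarith
  -- the uncovered area
  have hcov : volume.real ((Metric.ball (0 : ℂ) (1 / √3) ∩ Set.univ) \ ⋃ q ∈ Bg, Sq q) < 84 * η / 6 := by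
    have hm : ∀ q ∈ Bg, MeasurableSet (Sq q) := fun q _ => Sec_meas _ _ _ _
    have hd : (Bg : Set ℂ).PairwiseDisjoint Sq := by
      intro q hq q' hq' hne
      rw [hBg] at hq hq'
      obtain ⟨m1, n1, l1⟩ := B2_mem hQ (Finset.mem_filter.1 (Finset.mem_coe.1 hq)).1
      obtain ⟨m2, n2, l2⟩ := B2_mem hQ (Finset.mem_filter.1 (Finset.mem_coe.1 hq')).1
      exact Sq_disjoint n1 n2 l1 l2 (hQ.2 q m1 q' m2 hne)
    have hU : volume.real (⋃ q ∈ Bg, Sq q) = ∑ q ∈ Bg, bet q / 3 := by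
      rw [measureReal_biUnion_finset hd hm (fun q _ => B2_sec_fin _ _ _ _)]
      apply Finset.sum_congr rfl
      intro q hq
      obtain ⟨m1, n1, l1⟩ := B2_mem hQ (Finset.mem_filter.1 hq).1
      have b1 := bet_pos l1
      have b2 := bet_le n1
      unfold Sq
      rw [Sec_vol (by positivity) (B2_dr n1).1 (by linarith) (by linarith) (by linarith)]
      rw [div_pow, h33]
      ring
    have hball : volume.real (Metric.ball (0 : ℂ) (1 / √3)) = Real.pi / 3 := by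
      rw [measureReal_def, Complex.volume_ball, ENNReal.toReal_mul, ENNReal.toReal_pow,
        ENNReal.toReal_ofReal (by positivity), ENNReal.coe_toReal, NNReal.coe_real_pi]
      rw [div_pow, h33]
      ring
    have hsub : (⋃ q ∈ Bg, Sq q) ⊆ Metric.ball (0 : ℂ) (1 / √3) := by
      intro z hz
      simp only [Set.mem_iUnion] at hz
      obtain ⟨q, -, hz2⟩ := hz
      rw [mem_ball_zero_iff]
      exact hz2.2.1
    rw [Set.inter_univ, measureReal_sdiff hsub (Finset.measurableSet_biUnion _ hm)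
      (measure_ball_lt_top (x := (0 : ℂ)) (r := 1 / √3)).ne, hU, hball, ← Finset.sum_div]
    linarith
  -- a big point
  have hne : Bg.Nonempty := by
    by_contra hcon
    rw [Finset.not_nonempty_iff_eq_empty] at hcon
    rw [hcon, Finset.sum_empty] at hsum
    linarith
  obtain ⟨q0, hq0⟩ := hne
  have hq0' := Finset.mem_filter.1 hq0
  obtain ⟨m0, n0, l0⟩ := B2_mem hQ hq0'.1
  refine ⟨dr q0, (B2_dr n0).1, ?_⟩
  have key : ∀ n : ℕ, ∃ q ∈ Bg, ‖dr q - dr q0 * w6 ^ n‖ ≤ 84 * n * η := by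
    intro n
    induction n with
    | zero => exact ⟨q0, hq0, by simp⟩
    | succ n ih =>
      obtain ⟨q, hq, hqn⟩ := ih
      have hq' := Finset.mem_filter.1 hq
      obtain ⟨m1, n1, l1⟩ := B2_mem hQ hq'.1
      obtain ⟨q2, hq2, hb2, ha1, ha2⟩ := next_neighbour hQ MeasurableSet.univ (ε := 84 * η) (by linarith) (by linarith)
        hq'.1 (Set.subset_univ _) hcov
      obtain ⟨m2, n2, l2⟩ := B2_mem hQ hq2
      have c1 := hbig q hq'.1 hq'.2
      have c2 := hbig q2 hq2 hb2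
      have c1' := bet_le n1
      have c2' := bet_le n2
      refine ⟨q2, Finset.mem_filter.2 ⟨hq2, hb2⟩, ?_⟩
      obtain ⟨d1, -⟩ := B2_dr n1
      obtain ⟨d2, -⟩ := B2_dr n2
      set u : ℂ := dr q2 * (starRingEnd ℂ) (dr q) with hu
      have hun : ‖u‖ = 1 := by rw [hu, norm_mul, B2_conj_norm, d1, d2, one_mul]
      have hch := B2_chord hun
      have habs : |u.arg - Real.pi / 3| ≤ 84 * η := by
        rw [abs_le]
        constructor <;> linarith
      have e1 : dr q2 = u * dr q := by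
        rw [hu, mul_assoc, mul_comm ((starRingEnd ℂ) (dr q)), Complex.mul_conj, Complex.normSq_eq_norm_sq, d1]
        simp
      have e2 : dr q2 - dr q0 * w6 ^ (n + 1) = (u - w6) * dr q + w6 * (dr q - dr q0 * w6 ^ n) := by
        rw [e1, pow_succ]
        ring
      calc ‖dr q2 - dr q0 * w6 ^ (n + 1)‖ = ‖(u - w6) * dr q + w6 * (dr q - dr q0 * w6 ^ n)‖ := by rw [e2]
        _ ≤ ‖(u - w6) * dr q‖ + ‖w6 * (dr q - dr q0 * w6 ^ n)‖ := norm_add_le _ _
        _ = ‖u - w6‖ + ‖dr q - dr q0 * w6 ^ n‖ := by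
          rw [norm_mul, norm_mul, d1, B2_w6_norm, mul_one, one_mul]
        _ ≤ 84 * η + 84 * n * η := add_le_add (hch.trans habs) hqn
        _ = 84 * ((n + 1 : ℕ) : ℝ) * η := by
          push_cast
          ring
  intro j
  obtain ⟨q, hq, hqj⟩ := key (j % 6)
  have hq' := Finset.mem_filter.1 hq
  obtain ⟨m1, n1, l1⟩ := B2_mem hQ hq'.1
  refine ⟨q, m1, ?_⟩
  have hj : w6 ^ j = w6 ^ (j % 6) := by
    conv_lhs => rw [← Nat.div_add_mod j 6]
    rw [pow_add, pow_mul, B2_w6_six, one_pow, one_mul]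
  have hj5 : ((j % 6 : ℕ) : ℝ) ≤ 5 := by
    have : j % 6 ≤ 5 := by omega
    exact_mod_cast this
  obtain ⟨d1, e1⟩ := B2_dr n1
  have hnorm := norm_le_of_bet n1 l1
  have hb := hbig q hq'.1 hq'.2
  have e2 : q - dr q = (((‖q‖ - 1 : ℝ)) : ℂ) * dr q := by
    conv_lhs => rw [e1]
    have : dr ((‖q‖ : ℂ) * dr q) = dr q := by rw [← e1]
    rw [this]
    push_cast
    ring
  have e3 : ‖q - dr q‖ ≤ 24 * η := by
    rw [e2, norm_mul, d1, mul_one, Complex.norm_real, Real.norm_eq_abs, abs_of_nonneg (by linarith)]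
    linarith
  have e4 : q - dr q0 * w6 ^ j = (q - dr q) + (dr q - dr q0 * w6 ^ (j % 6)) := by
    rw [hj]
    ring
  rw [e4]
  refine (norm_add_le _ _).trans ?_
  have e5 : 84 * ((j % 6 : ℕ) : ℝ) * η ≤ 84 * 5 * η := by
    apply mul_le_mul_of_nonneg_right _ hη0.le
    linarith
  linarith

theorem int_local_lower {Q : Finset ℂ} (hQ : Sep1 Q) :
    √3 / 2 ≤ volume.real (Cell Q ∩ Metric.ball 0 (1 / √3)) := by
  by_contra hcon
  rw [not_le] at hcon
  have h := (B2_sums hQ (η := 0) (by linarith)).1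
  exact lt_irrefl _ h

end H24
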