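import Pool.Agent.Lib_MP_27c196_co.E.A2

/-! H24 E, piece C1: wall cells, the part below -/

set_option linter.unusedVariables false

noncomputable section

namespace H24

open Finset MeasureTheory

private theorem C1_normSq (z : ℂ) : ‖z‖ ^ 2 = z.re ^ 2 + z.im ^ 2 := by
  rw [← Complex.normSq_eq_norm_sq, Complex.normSq_apply]
  ring

private theorem C1_lt_iff (z q : ℂ) : ‖z‖ < ‖z - q‖ ↔ 2 * (z.re * q.re + z.im * q.im) < ‖q‖ ^ 2 := by
  rw [← sq_lt_sq₀ (norm_nonneg _) (norm_nonneg _), C1_normSq z, C1_normSq (z - q), C1_normSq q,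
    Complex.sub_re, Complex.sub_im]
  have e : (z.re - q.re) ^ 2 + (z.im - q.im) ^ 2 =
      z.re ^ 2 + z.im ^ 2 + (q.re ^ 2 + q.im ^ 2) - 2 * (z.re * q.re + z.im * q.im) := by ring
  rw [e]
  constructor <;> intro h <;> linarith

private theorem C1_sqrt : 1.732 < √3 ∧ √3 < 1.7321 := by
  constructor
  · rw [Real.lt_sqrt (by norm_num)]; norm_num
  · rw [Real.sqrt_lt' (by norm_num)]; norm_num

private theorem C1_norm {x t h ψ : ℝ} (hh0 : 0 ≤ h) (hh : h ≤ √3 / 12) (hψ1 : ψ ≤ 1 / 10) (hx : 0 < x)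
    (ht0 : 0 < t) (htd : t < √3 / 4 + h) (hxb : x < 1 / 2 - t * h + t * ψ) :
    x ^ 2 + t ^ 2 < 0.5625 := by
  obtain ⟨hs1, hs2⟩ := C1_sqrt
  have htd' : t < 0.5774 := by linarith
  have hhb : h < 0.1444 := by linarith
  have h0 : t * ψ ≤ t * (1 / 10) := mul_le_mul_of_nonneg_left hψ1 ht0.le
  have h4 : x < 1 / 2 + t * (1 / 10 - h) := by linarith
  have h6 : x ^ 2 < (1 / 2 + t * (1 / 10 - h)) ^ 2 := pow_lt_pow_left₀ h4 hx.le (by norm_num)
  have h7 : t * t ≤ t * (√3 / 4 + h) := mul_le_mul_of_nonneg_left htd.le ht0.le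
  have h8 : t * (1 / 10 + √3 / 4) ≤ 0.5774 * (1 / 10 + √3 / 4) :=
    mul_le_mul_of_nonneg_right htd'.le (by positivity)
  have h9 : (1 / 10 - h) ^ 2 ≤ 1 / 100 := by
    have h10 : 0 ≤ h * (2 / 10 - h) := mul_nonneg hh0 (by linarith)
    linarith [h10]
  have h10 : t ^ 2 ≤ 0.5774 ^ 2 := pow_le_pow_left₀ ht0.le htd'.le 2
  have h11 : t ^ 2 * (1 / 10 - h) ^ 2 ≤ 0.5774 ^ 2 * (1 / 100) :=
    mul_le_mul h10 h9 (sq_nonneg _) (by norm_num)
  have e : (1 / 2 + t * (1 / 10 - h)) ^ 2 = 1 / 4 + t * (1 / 10 - h) + t ^ 2 * (1 / 10 - h) ^ 2 := by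
    ring
  rw [e] at h6
  norm_num at h8 h11 ⊢
  linarith

private theorem C1_cs (z q : ℂ) : z.re * q.re + z.im * q.im ≤ ‖z‖ * ‖q‖ := by
  have h6 : (z.re * q.re + z.im * q.im) ^ 2 ≤ (‖z‖ * ‖q‖) ^ 2 := by
    rw [mul_pow, C1_normSq z, C1_normSq q]
    have := sq_nonneg (z.re * q.im - z.im * q.re)
    linarith [this]
  exact (abs_le_of_sq_le_sq' h6 (by positivity)).2

/-- `z = x + i y`, `y < 0`. `‖z‖ ≤ 0.75` on this set (`(1/2 + d (1/10 - h))² + d² ≤ 0.5625` for `d = √3/4 + h`, `0 ≤ h ≤ √3/12`). To show `z·q < ‖q‖²/2`: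
* `‖q‖ ≥ 3/2`: `z·q ≤ 0.75 ‖q‖`.
* `q.re ≤ 0`: `z·q ≤ |y| h ≤ 0.1 < 1/2`.
* `q.re > 0, q.im < 0` (then `ψ = 0`): `(1/2)(‖q‖² - q.re) ≥ |y| (|q.im| - h q.re)`: clear if `q.re ≥ 1`, and for `q.re < 1` the left side is `≥ (1 - q.re)/2` and the right one `≤ |y| h (1 - q.re)`.
* `q.re > 0, q.im ≥ 0`, `‖q‖ < 3/2`: `z·q < q.re/2 + |y| ψ q.re - |y| q.im ≤ ‖q‖/2`. -/
theorem lower_right {Q : Finset ℂ} {h ψ : ℝ} (hh0 : 0 ≤ h) (hh : h ≤ √3 / 12) (hQ1 : ∀ q ∈ Q, 1 ≤ ‖q‖)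
    (hy : ∀ q ∈ Q, -h ≤ q.im) (hψ0 : 0 ≤ ψ) (hψ1 : ψ ≤ 1 / 10)
    (hψ : 0 < ψ → ∀ q ∈ Q, 0 < q.re → ‖q‖ < 3 / 2 → ψ * ‖q‖ ≤ q.im) :
    {z : ℂ | -(√3 / 4 + h) < z.im ∧ z.im < 0 ∧ 0 < z.re ∧ z.re < 1 / 2 + z.im * h - z.im * ψ} ⊆
      Cell Q ∩ Metric.ball 0 (4 / 5) := by
  rintro z ⟨hz1, hz2, hz3, hz4⟩
  obtain ⟨hs1, hs2⟩ := C1_sqrt
  have hcs := C1_cs z
  have hn0 := C1_normSq z
  set x := z.re with hx
  obtain ⟨t, ht⟩ : ∃ t : ℝ, z.im = -t := ⟨-z.im, by ring⟩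
  rw [ht] at hz1 hz2 hz4 hn0
  have ht0 : 0 < t := by linarith
  have htd : t < √3 / 4 + h := by linarith
  have hxb : x < 1 / 2 - t * h + t * ψ := by linarith
  have htd' : t < 0.5774 := by linarith
  have hhb : h < 0.1444 := by linarith
  have hth0 : 0 ≤ t * h := mul_nonneg ht0.le hh0
  have hth : t * h ≤ 0.0834 := by
    have := mul_le_mul htd'.le hhb.le hh0 (by norm_num)
    norm_num at this ⊢
    linarith
  have hz : ‖z‖ ^ 2 < 0.5625 := by
    rw [hn0, neg_sq]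
    exact C1_norm hh0 hh hψ1 hz3 ht0 htd hxb
  have hz' : ‖z‖ < 3 / 4 := by
    have : ‖z‖ ^ 2 < (3 / 4) ^ 2 := by norm_num; norm_num at hz; exact hz
    exact lt_of_pow_lt_pow_left₀ 2 (by norm_num) this
  refine ⟨?_, ?_⟩
  · intro q hq
    have hcs' := hcs q
    rw [C1_lt_iff, ← hx]
    rw [ht] at hcs' ⊢
    have hq1 := hQ1 q hq
    have hq2 := hy q hq
    have hn1 : ‖q‖ ≤ ‖q‖ ^ 2 := by
      have := mul_le_mul_of_nonneg_right hq1 (norm_nonneg q)
      rw [sq]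
      linarith
    have hre : q.re ≤ ‖q‖ := (le_abs_self _).trans (Complex.abs_re_le_norm q)
    rcases le_or_gt (3 / 2) ‖q‖ with h4 | h4
    · have h5 : ‖z‖ * ‖q‖ < 3 / 4 * ‖q‖ := mul_lt_mul_of_pos_right hz' (by linarith)
      have h6 : 3 / 2 * ‖q‖ ≤ ‖q‖ ^ 2 := by
        rw [sq]
        exact mul_le_mul_of_nonneg_right h4 (norm_nonneg q)
      linarith
    rcases le_or_gt q.re 0 with h5 | h5
    · have h6 : x * q.re ≤ 0 := mul_nonpos_of_nonneg_of_nonpos hz3.le h5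
      have h7 : t * (-q.im) ≤ t * h := mul_le_mul_of_nonneg_left (by linarith) ht0.le
      linarith
    have hmul := mul_lt_mul_of_pos_right hxb h5
    rcases lt_or_ge q.im 0 with h6 | h6
    · have hψz : ψ = 0 := by
        by_contra hne
        have hpos : 0 < ψ := lt_of_le_of_ne hψ0 (Ne.symm hne)
        have h7 := hψ hpos q hq h5 h4
        have h8 : 0 < ψ * ‖q‖ := mul_pos hpos (by linarith)
        linarith
      rw [hψz] at hmul
      have h9 : t * (-q.im) ≤ t * h := mul_le_mul_of_nonneg_left (by linarith) ht0.le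
      rcases le_or_gt 1 q.re with h8 | h8
      · have h10 : t * h * 1 ≤ t * h * q.re := mul_le_mul_of_nonneg_left h8 hth0
        linarith
      · have h10 : t * h * (1 - q.re) ≤ 0.0834 * (1 - q.re) :=
          mul_le_mul_of_nonneg_right hth (by linarith)
        norm_num at h10
        linarith
    · have h8 : ψ * q.re ≤ q.im := by
        rcases eq_or_lt_of_le hψ0 with h9 | h9
        · rw [← h9, zero_mul]; exact h6
        · have h10 := hψ h9 q hq h5 h4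
          have h11 : ψ * q.re ≤ ψ * ‖q‖ := mul_le_mul_of_nonneg_left hre hψ0
          linarith
      have h9 : 0 ≤ t * h * q.re := mul_nonneg hth0 h5.le
      have h10 : t * (ψ * q.re) ≤ t * q.im := mul_le_mul_of_nonneg_left h8 ht0.le
      linarith
  · rw [mem_ball_zero_iff]
    linarith

private theorem C1_area {d : ℝ} {f g : ℝ → ℝ} (hf : Continuous f) (hg : Continuous g)
    (hfg : ∀ y ∈ Set.Ioo (-d) 0, f y ≤ g y) :
    volume {z : ℂ | -d < z.im ∧ z.im < 0 ∧ f z.im < z.re ∧ z.re < g z.im} =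
      ENNReal.ofReal (∫ y in Set.Ioo (-d) 0, (g y - f y)) ∧
    MeasurableSet {z : ℂ | -d < z.im ∧ z.im < 0 ∧ f z.im < z.re ∧ z.re < g z.im} := by
  have hb : Bornology.IsBounded (Set.Ioo (-d) (0 : ℝ)) := Metric.isBounded_Ioo _ _
  have fi : IntegrableOn f (Set.Ioo (-d) 0) :=
    (hf.integrableOn_Icc (a := -d) (b := 0)).mono_set Set.Ioo_subset_Icc_self
  have gi : IntegrableOn g (Set.Ioo (-d) 0) :=
    (hg.integrableOn_Icc (a := -d) (b := 0)).mono_set Set.Ioo_subset_Icc_self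
  have h1 := volume_regionBetween_eq_integral (μ := volume) fi gi measurableSet_Ioo hfg
  have hm : MeasurableSet (regionBetween f g (Set.Ioo (-d) 0)) :=
    measurableSet_regionBetween hf.measurable hg.measurable measurableSet_Ioo
  have hp : MeasurePreserving (fun z : ℂ => (z.im, z.re)) volume (volume.prod volume) :=
    (Measure.measurePreserving_swap (μ := (volume : Measure ℝ)) (ν := (volume : Measure ℝ))).comp
      Complex.volume_preserving_equiv_real_prod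
  have hS : {z : ℂ | -d < z.im ∧ z.im < 0 ∧ f z.im < z.re ∧ z.re < g z.im} =
      (fun z : ℂ => (z.im, z.re)) ⁻¹' regionBetween f g (Set.Ioo (-d) 0) := by
    ext z
    simp only [regionBetween, Set.mem_Ioo, Set.mem_preimage, Set.mem_ofPred_eq]
    tauto
  rw [hS]
  refine ⟨?_, hp.measurable hm⟩
  rw [hp.measure_preimage hm.nullMeasurableSet, h1]
  rfl

private theorem C1_int {d a : ℝ} (hd : 0 ≤ d) :
    ∫ y in Set.Ioo (-d) 0, (1 / 2 + y * a) = d / 2 - a * d ^ 2 / 2 := by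
  rw [← integral_Ioc_eq_integral_Ioo, ← intervalIntegral.integral_of_le (by linarith)]
  rw [intervalIntegral.integral_add (by simp) (by
    exact (continuous_id.mul continuous_const).intervalIntegrable _ _)]
  rw [intervalIntegral.integral_mul_const, integral_id]
  simp
  ring

private theorem C1_refl {Q : Finset ℂ} {z : ℂ}
    (h : -(starRingEnd ℂ) z ∈ Cell (Q.image fun q => -(starRingEnd ℂ) q)) : z ∈ Cell Q := by
  intro q hq
  have h1 := h (-(starRingEnd ℂ) q) (Finset.mem_image_of_mem _ hq)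
  have h2 : -(starRingEnd ℂ) z - -(starRingEnd ℂ) q = -(starRingEnd ℂ) (z - q) := by
    rw [map_sub]; ring
  rw [h2, norm_neg, norm_neg, RCLike.norm_conj, RCLike.norm_conj] at h1
  exact h1

/-- area `∫_0^d (1/2 - y h + y ψ) dy = d/2 - h d²/2 + ψ d²/2`, twice (the left side by the reflection `z ↦ - conj z` of `Q`); `d - h d² ≥ √3/4 + (2/3) h` and `d²/2 ≥ 3/32`. -/
theorem lower_total {Q : Finset ℂ} {h ψ ψ' : ℝ} (hh0 : 0 ≤ h) (hh : h ≤ √3 / 12) (hQ1 : ∀ q ∈ Q, 1 ≤ ‖q‖)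
    (hy : ∀ q ∈ Q, -h ≤ q.im) (hψ0 : 0 ≤ ψ) (hψ1 : ψ ≤ 1 / 10) (hψ0' : 0 ≤ ψ') (hψ1' : ψ' ≤ 1 / 10)
    (hψ : 0 < ψ → ∀ q ∈ Q, 0 < q.re → ‖q‖ < 3 / 2 → ψ * ‖q‖ ≤ q.im)
    (hψ' : 0 < ψ' → ∀ q ∈ Q, q.re < 0 → ‖q‖ < 3 / 2 → ψ' * ‖q‖ ≤ q.im) :
    √3 / 4 + 2 / 3 * h + 3 / 32 * (ψ + ψ') ≤
      volume.real (Cell Q ∩ {z : ℂ | -(√3 / 4 + h) < z.im ∧ z.im < 0} ∩ Metric.ball 0 (4 / 5)) := by
  obtain ⟨hs1, hs2⟩ := C1_sqrt
  set d := √3 / 4 + h with hd
  have hd0 : 0 ≤ d := by rw [hd]; linarith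
  -- the two regions
  set A : Set ℂ := {z : ℂ | -d < z.im ∧ z.im < 0 ∧ (0 : ℝ) < z.re ∧ z.re < 1 / 2 + z.im * (h - ψ)}
    with hA
  set B : Set ℂ := {z : ℂ | -d < z.im ∧ z.im < 0 ∧ -(1 / 2 + z.im * (h - ψ')) < z.re ∧
    z.re < (0 : ℝ)} with hB
  have hpos : ∀ a : ℝ, a ≤ 1 / 10 → 0 ≤ a → ∀ y ∈ Set.Ioo (-d) (0 : ℝ), 0 ≤ 1 / 2 + y * (h - a) := by
    intro a ha ha0 y hy'
    have h1 : -y * (h - a) ≤ -y * h := mul_le_mul_of_nonneg_left (by linarith) (by linarith [hy'.2])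
    have h2 : -y * h ≤ 1 * h := mul_le_mul_of_nonneg_right (by linarith [hy'.1]) hh0
    linarith
  obtain ⟨hAv, hAm⟩ := C1_area (d := d) (f := fun _ => 0) (g := fun y => 1 / 2 + y * (h - ψ))
    continuous_const (by fun_prop) (fun y hy' => hpos ψ hψ1 hψ0 y hy')
  obtain ⟨hBv, hBm⟩ := C1_area (d := d) (f := fun y => -(1 / 2 + y * (h - ψ'))) (g := fun _ => 0)
    (by fun_prop) continuous_const (fun y hy' => by linarith [hpos ψ' hψ1' hψ0' y hy'])
  simp only [sub_zero, zero_sub, neg_neg] at hAv hBv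
  rw [C1_int hd0] at hAv hBv
  have hAB : Disjoint A B := by
    rw [Set.disjoint_left]
    rintro z ⟨-, -, h1, -⟩ ⟨-, -, -, h2⟩
    linarith
  have hAs := lower_right hh0 hh hQ1 hy hψ0 hψ1 hψ
  have hBs := lower_right (Q := Q.image fun q => -(starRingEnd ℂ) q) hh0 hh
    (by
      intro q hq
      obtain ⟨q', hq', rfl⟩ := Finset.mem_image.1 hq
      rw [norm_neg, RCLike.norm_conj]
      exact hQ1 q' hq')
    (by
      intro q hq
      obtain ⟨q', hq', rfl⟩ := Finset.mem_image.1 hq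
      rw [Complex.neg_im, Complex.conj_im, neg_neg]
      exact hy q' hq') hψ0' hψ1'
    (by
      intro hp q hq
      obtain ⟨q', hq', rfl⟩ := Finset.mem_image.1 hq
      rw [norm_neg, RCLike.norm_conj, Complex.neg_im, Complex.conj_im, neg_neg, Complex.neg_re,
        Complex.conj_re]
      intro h1 h2
      exact hψ' hp q' hq' (by linarith) h2)
  set T : Set ℂ := Cell Q ∩ {z : ℂ | -d < z.im ∧ z.im < 0} ∩ Metric.ball 0 (4 / 5) with hT
  have hAT : A ⊆ T := by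
    rintro z ⟨h1, h2, h3, h4⟩
    obtain ⟨h5, h6⟩ := hAs (show _ ∧ _ ∧ _ ∧ _ from ⟨h1, h2, h3, by linarith⟩)
    exact ⟨⟨h5, h1, h2⟩, h6⟩
  have hBT : B ⊆ T := by
    rintro z ⟨h1, h2, h3, h4⟩
    obtain ⟨h5, h6⟩ := hBs (a := -(starRingEnd ℂ) z) (by
      refine ⟨?_, ?_, ?_, ?_⟩
      · rw [Complex.neg_im, Complex.conj_im, neg_neg]; exact h1
      · rw [Complex.neg_im, Complex.conj_im, neg_neg]; exact h2
      · rw [Complex.neg_re, Complex.conj_re]; linarith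
      · rw [Complex.neg_re, Complex.conj_re, Complex.neg_im, Complex.conj_im, neg_neg]; linarith)
    refine ⟨⟨C1_refl h5, h1, h2⟩, ?_⟩
    rw [mem_ball_zero_iff] at h6 ⊢
    rwa [norm_neg, RCLike.norm_conj] at h6
  have hTfin : volume T ≠ ⊤ := by
    refine ne_top_of_le_ne_top ?_ (measure_mono (Set.inter_subset_right))
    exact Metric.isBounded_ball.measure_lt_top.ne
  have hU : volume.real (A ∪ B) ≤ volume.real T :=
    measureReal_mono (Set.union_subset hAT hBT) hTfin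
  have hval : volume.real (A ∪ B) = (d / 2 - (h - ψ) * d ^ 2 / 2) + (d / 2 - (h - ψ') * d ^ 2 / 2) := by
    have hAf : volume A ≠ ⊤ := by rw [hA, hAv]; exact ENNReal.ofReal_ne_top
    have hBf : volume B ≠ ⊤ := by rw [hB, hBv]; exact ENNReal.ofReal_ne_top
    rw [measureReal_union hAB hBm hAf hBf]
    have h1 : d ^ 2 ≤ 1 / 3 + 0.001 := by
      have h2 : d ≤ 0.5774 := by linarith
      have := pow_le_pow_left₀ hd0 h2 2
      norm_num at this ⊢
      linarith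
    have hd1 : 0.433 ≤ d := by linarith
    have hx : ∀ a : ℝ, 0 ≤ a → 0 ≤ d / 2 - (h - a) * d ^ 2 / 2 := by
      intro a ha
      have h3 : (h - a) * d ^ 2 ≤ h * d ^ 2 := mul_le_mul_of_nonneg_right (by linarith) (sq_nonneg d)
      have h4 : h * d ^ 2 ≤ 0.1444 * 1 := mul_le_mul (by linarith) (by linarith) (sq_nonneg d)
        (by norm_num)
      norm_num at h4
      linarith
    unfold Measure.real
    rw [hA, hB, hAv, hBv, ENNReal.toReal_ofReal (hx ψ hψ0), ENNReal.toReal_ofReal (hx ψ' hψ0')]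
  have h3 : √3 ^ 2 = 3 := Real.sq_sqrt (by norm_num)
  have hd2 : d ≤ √3 / 3 := by linarith
  have hdd : d ^ 2 ≤ 1 / 3 := by
    have := pow_le_pow_left₀ hd0 hd2 2
    rw [div_pow, h3] at this
    norm_num at this ⊢
    exact this
  have hdl : 3 / 16 ≤ d ^ 2 := by
    have h4 : √3 / 4 ≤ d := by linarith
    have := pow_le_pow_left₀ (by positivity) h4 2
    rw [div_pow, h3] at this
    norm_num at this ⊢
    exact this
  have h5 : h * d ^ 2 ≤ h * (1 / 3) := mul_le_mul_of_nonneg_left hdd hh0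
  have h6 : (ψ + ψ') * (3 / 16) ≤ (ψ + ψ') * d ^ 2 :=
    mul_le_mul_of_nonneg_left hdl (by linarith)
  have h7 : (d / 2 - (h - ψ) * d ^ 2 / 2) + (d / 2 - (h - ψ') * d ^ 2 / 2) =
      d - h * d ^ 2 + (ψ + ψ') * d ^ 2 / 2 := by ring
  rw [h7] at hval
  linarith

end H24
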