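import Pool.Agent.Lib_MP_27c196_co.E.C2a

/-! H24 E, piece C2: wall cells, the part above (the arcs over the real axis; the general part and the
middle arcs `sum_lamU_le`, `upper_aux`, `tri_mid`, `lamU_zero`, `right_unique` are in `E/C2a`) -/

set_option linter.unusedVariables false

noncomputable section

namespace H24

open Finset MeasureTheory

private theorem C2_ball_ne : volume (Metric.ball (0 : ℂ) (1 / √3)) ≠ ⊤ :=
  (measure_ball_lt_top (μ := (volume : Measure ℂ)) (x := (0 : ℂ)) (r := 1 / √3)).ne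

private theorem C2_near_angles {q : ℂ} (h1 : 1 ≤ ‖q‖) (h2 : ‖q‖ < 2 / √3) (ha : |q.arg| < bet q) :
    |(dr q).arg| < Real.pi / 2 ∧ bet q < Real.pi / 2 := by
  have hb1 := bet_le h1
  have hpi := Real.pi_pos
  rw [C2a_dr_arg h1]
  exact ⟨by linarith, by linarith⟩

private theorem C2_lamU_le {q : ℂ} (h1 : 1 ≤ ‖q‖) (h2 : ‖q‖ < 2 / √3) (ha : |q.arg| < bet q) :
    lamU q ≤ bet q + q.arg := by
  have hb0 := bet_pos h2
  have hb1 := bet_le h1
  have hpi := Real.pi_pos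
  have h3 : √3 ^ 2 = 3 := Real.sq_sqrt (by norm_num)
  obtain ⟨k1, k2⟩ := C2_near_angles h1 h2 ha
  obtain ⟨a1, a2⟩ := abs_lt.1 ha
  have hsub : Sq q ∩ Up ⊆ Sec (1 / √3) (dr q) (-q.arg) (bet q) := by
    rintro z ⟨⟨hz0, hz1, hz2, hz3⟩, hzu⟩
    refine ⟨hz0, hz1, ?_, hz3⟩
    have h := (up_iff (C2a_dr_norm h1) hz0 k1 (by rw [abs_lt]; constructor <;> linarith)).1 hzu
    rwa [C2a_dr_arg h1] at h
  have hvol := Sec_vol (R := 1 / √3) (by positivity) (C2a_dr_norm h1) (α := -q.arg) (β := bet q)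
    (by linarith) (by linarith) (by linarith)
  have hne : volume (Sec (1 / √3) (dr q) (-q.arg) (bet q)) ≠ ⊤ := by
    refine measure_ne_top_of_subset ?_ C2_ball_ne
    rintro z ⟨-, hz, -⟩
    simpa using hz
  have hle := measureReal_mono hsub hne
  rw [hvol, div_pow, one_pow, h3] at hle
  unfold lamU
  linarith

private theorem C2_tri_ge {q : ℂ} (h1 : 1 ≤ ‖q‖) (h2 : ‖q‖ < 2 / √3) (ha : |q.arg| < bet q) :
    (Real.sin (bet q) * Real.cos (bet q) + Real.cos (bet q) ^ 2 * Real.tan q.arg) / 6 ≤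
      volume.real (Tri (‖q‖ / 2) (dr q) (-bet q) (bet q) ∩ Up) := by
  have hb0 := bet_pos h2
  have hb1 := bet_le h1
  have hpi := Real.pi_pos
  have h3 : √3 ^ 2 = 3 := Real.sq_sqrt (by norm_num)
  obtain ⟨k1, k2⟩ := C2_near_angles h1 h2 ha
  obtain ⟨a1, a2⟩ := abs_lt.1 ha
  have hsub : Tri (‖q‖ / 2) (dr q) (-q.arg) (bet q) ⊆ Tri (‖q‖ / 2) (dr q) (-bet q) (bet q) ∩ Up := by
    intro z hz
    obtain ⟨hz0, hza, hzb⟩ := Tri_arg (by linarith) (by linarith) hz (by linarith)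
    refine ⟨⟨hz.1, hz.2.1, ?_, hz.2.2.2⟩, ?_⟩
    · have ht : Real.tan (-bet q) ≤ Real.tan (-q.arg) :=
        Real.strictMonoOn_tan.monotoneOn ⟨by linarith, by linarith⟩ ⟨by linarith, by linarith⟩
          (by linarith)
      exact lt_of_le_of_lt (mul_le_mul_of_nonneg_left ht hz.1.le) hz.2.2.1
    · refine (up_iff (C2a_dr_norm h1) hz0 k1 (by rw [abs_lt]; constructor <;> linarith)).2 ?_
      rw [C2a_dr_arg h1]
      exact hza
  have hvol := Tri_vol (c := ‖q‖ / 2) (by positivity) (C2a_dr_norm h1) (a := -q.arg) (b := bet q)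
    (by linarith) (by linarith) (by linarith)
  have hne : volume (Tri (‖q‖ / 2) (dr q) (-bet q) (bet q) ∩ Up) ≠ ⊤ := by
    refine measure_ne_top_of_subset ?_ C2_ball_ne
    exact Set.inter_subset_left.trans ((C2a_tri_sub h1 h2).trans (C2a_Sq_ball q))
  have hle := measureReal_mono hsub hne
  rw [hvol] at hle
  refine le_trans (le_of_eq ?_) hle
  have hc := cos_bet h2.le
  have hcpos : 0 < Real.cos (bet q) := Real.cos_pos_of_mem_Ioo ⟨by linarith, by linarith⟩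
  have hq2 : ‖q‖ ^ 2 = 4 / 3 * Real.cos (bet q) ^ 2 := by
    rw [hc, mul_pow, div_pow, h3]
    ring
  rw [div_pow, hq2, Real.tan_neg, Real.tan_eq_sin_div_cos (bet q)]
  field_simp
  ring

private theorem C2_cos_sq {b : ℝ} (h0 : 0 ≤ b) (h1 : b ≤ Real.pi / 6) : 3 / 4 ≤ Real.cos b ^ 2 := by
  have hpi := Real.pi_pos
  have h2 : Real.cos (Real.pi / 6) ≤ Real.cos b :=
    Real.cos_le_cos_of_nonneg_of_le_pi h0 (by linarith) h1
  rw [Real.cos_pi_div_six] at h2
  have h3 : √3 ^ 2 = 3 := Real.sq_sqrt (by norm_num)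
  have h4 : 0 ≤ √3 / 2 := by positivity
  nlinarith

private theorem C2_num {q : ℂ} {h : ℝ} (h1 : 1 ≤ ‖q‖) (h2 : ‖q‖ < 2 / √3) (ha : |q.arg| < bet q)
    (hh : h ≤ √3 / 12) (hq : -h ≤ q.im) (hh0 : 0 ≤ h) :
    c0 / 6 * q.arg - max (0.01285 * q.arg) (0.046 * h) ≤
      Real.cos (bet q) ^ 2 * Real.tan q.arg / 6 := by
  have hb0 := bet_pos h2
  have hb1 := bet_le h1
  have hpi := Real.pi_pos
  obtain ⟨c1, c2⟩ := c0_bounds
  have hcs := C2_cos_sq hb0.le hb1
  have hcs1 : Real.cos (bet q) ^ 2 ≤ 1 := Real.cos_sq_le_one _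
  obtain ⟨a1, a2⟩ := abs_lt.1 ha
  rcases le_or_gt 0 q.arg with hp | hn
  · have ht : q.arg ≤ Real.tan q.arg := Real.le_tan hp (by linarith)
    have hm := le_max_left (0.01285 * q.arg) (0.046 * h)
    have e1 : 3 / 4 * q.arg ≤ Real.cos (bet q) ^ 2 * Real.tan q.arg := by
      have := mul_le_mul hcs ht hp (by positivity)
      exact this
    have e2 : c0 * q.arg ≤ 0.8271 * q.arg := mul_le_mul_of_nonneg_right c2.le hp
    linarith
  · obtain ⟨x, hx⟩ : ∃ x, x = -q.arg := ⟨_, rfl⟩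
    have hqx : q.arg = -x := by rw [hx]; ring
    have hx0 : 0 < x := by linarith
    have hx1 : x < Real.pi / 6 := by linarith
    have hs0 : 0 < Real.sin x := Real.sin_pos_of_pos_of_lt_pi hx0 (by linarith)
    have hc0 : 0 < Real.cos x := Real.cos_pos_of_mem_Ioo ⟨by linarith, by linarith⟩
    have him := Complex.norm_mul_sin_arg q
    rw [hqx, Real.sin_neg] at him
    have hsh : Real.sin x ≤ h := by nlinarith
    have h3 : √3 ^ 2 = 3 := Real.sq_sqrt (by norm_num)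
    have hh2 : h ^ 2 ≤ 1 / 48 := by
      have : h ^ 2 ≤ (√3 / 12) ^ 2 := pow_le_pow_left₀ hh0 hh 2
      rw [div_pow, h3] at this
      linarith
    have hsc := Real.sin_sq_add_cos_sq x
    have hcx : 0.98 ≤ Real.cos x := by
      have h5 : Real.sin x ^ 2 ≤ h ^ 2 := pow_le_pow_left₀ hs0.le hsh 2
      by_contra hcon
      push Not at hcon
      nlinarith
    have htx : Real.tan x ≤ 1.0205 * Real.sin x := by
      rw [Real.tan_eq_sin_div_cos, div_le_iff₀ hc0]
      nlinarith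
    have htx0 : 0 ≤ Real.tan x := by
      rw [Real.tan_eq_sin_div_cos]
      positivity
    have hsx : Real.sin x ≤ x := Real.sin_le hx0.le
    have hm := le_max_right (0.01285 * q.arg) (0.046 * h)
    rw [hqx] at hm ⊢
    rw [Real.tan_neg]
    have e1 : Real.cos (bet q) ^ 2 * Real.tan x ≤ 1 * Real.tan x :=
      mul_le_mul_of_nonneg_right hcs1 htx0
    have e2 : 0.8269 * Real.sin x ≤ c0 * x := by
      have := mul_le_mul c1.le hsx hs0.le (by linarith)
      exact this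
    linarith

/-- arc over the positive real axis, `φ = q.arg`, `|φ| < bet q`: by `up_iff` the relative angles are `(-φ, bet)`; `lamU = bet + φ`, area `(1/6) cos² (tan bet + tan φ)`,
so the difference is `(1/6) (cos² bet tan φ - c0 φ) ≥ - (1/6) (c0 - 3/4) φ` for `φ ≥ 0`, and for `φ < 0` it is `≥ -(1/6)(tan |φ| - c0 |φ|) ≥ - 0.046 h` when `sin |φ| ≤ h ≤ √3/12`. -/
theorem tri_right {q : ℂ} {h : ℝ} (h1 : 1 ≤ ‖q‖) (h2 : ‖q‖ < 2 / √3) (ha : |q.arg| < bet q) (hh : h ≤ √3 / 12)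
    (hq : -h ≤ q.im) (hh0 : 0 ≤ h) :
    c0 / 6 * lamU q + Gf (bet q) / 6 - max (0.01285 * q.arg) (0.046 * h) ≤
      volume.real (Tri (‖q‖ / 2) (dr q) (-bet q) (bet q) ∩ Up) := by
  have hl := C2_lamU_le h1 h2 ha
  have hg := C2_tri_ge h1 h2 ha
  have hn := C2_num h1 h2 ha hh hq hh0
  obtain ⟨c1, c2⟩ := c0_bounds
  have e1 : c0 / 6 * lamU q ≤ c0 / 6 * (bet q + q.arg) :=
    mul_le_mul_of_nonneg_left hl (by linarith)
  refine le_trans ?_ hg
  unfold Gf
  linarith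

/-- the reflection `z ↦ - conj z` -/
private def C2_refl : ℂ ≃ₗᵢ[ℝ] ℂ := Complex.conjLIE.trans (LinearIsometryEquiv.neg ℝ)

private theorem C2_refl_apply (z : ℂ) : C2_refl z = -(starRingEnd ℂ) z := rfl

private theorem C2_vol_refl {S : Set ℂ} (hS : MeasurableSet S) :
    volume.real ((fun z : ℂ => -(starRingEnd ℂ) z) ⁻¹' S) = volume.real S := by
  have h1 : (fun z : ℂ => -(starRingEnd ℂ) z) = C2_refl := by
    funext z
    rw [C2_refl_apply]
  rw [h1, Measure.real, Measure.real,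
    (LinearIsometryEquiv.measurePreserving C2_refl).measure_preimage hS.nullMeasurableSet]

private theorem C2_norm_refl (q : ℂ) : ‖-(starRingEnd ℂ) q‖ = ‖q‖ := by
  rw [norm_neg, RCLike.norm_conj]

private theorem C2_bet_refl (q : ℂ) : bet (-(starRingEnd ℂ) q) = bet q := by
  unfold bet
  rw [C2_norm_refl]

private theorem C2_dr_refl (q : ℂ) : dr (-(starRingEnd ℂ) q) = -(starRingEnd ℂ) (dr q) := by
  unfold dr
  rw [C2_norm_refl, map_div₀, Complex.conj_ofReal, neg_div]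

private theorem C2_im_refl (q : ℂ) : (-(starRingEnd ℂ) q).im = q.im := by simp

/-- relative positions are conjugated by the reflection -/
private theorem C2_rel_refl (z e : ℂ) :
    -(starRingEnd ℂ) z * (starRingEnd ℂ) (-(starRingEnd ℂ) e) =
      (starRingEnd ℂ) (z * (starRingEnd ℂ) e) := by
  rw [map_neg, map_mul]
  ring

private theorem C2_arg_conj_iff {w : ℂ} {β : ℝ} (hβ : β < Real.pi) :
    (-β < ((starRingEnd ℂ) w).arg ∧ ((starRingEnd ℂ) w).arg < β) ↔ (-β < w.arg ∧ w.arg < β) := by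
  rw [Complex.arg_conj]
  split_ifs with h
  · constructor
    · intro h1
      linarith [h1.2]
    · intro h1
      linarith [h1.2]
  · constructor
    · rintro ⟨h1, h2⟩
      exact ⟨by linarith, by linarith⟩
    · rintro ⟨h1, h2⟩
      exact ⟨by linarith, by linarith⟩

private theorem C2_lamU_refl {q : ℂ} (h1 : 1 ≤ ‖q‖) : lamU (-(starRingEnd ℂ) q) = lamU q := by
  have hb1 := bet_le h1
  have hpi := Real.pi_pos
  unfold lamU
  congr 1
  have hm : MeasurableSet (Sq (-(starRingEnd ℂ) q) ∩ Up) :=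
    (Sec_meas _ _ _ _).inter C2a_Up_meas
  rw [← C2_vol_refl hm]
  congr 1
  ext z
  have hrel := C2_rel_refl z (dr q)
  have harg := C2_arg_conj_iff (w := z * (starRingEnd ℂ) (dr q)) (β := bet q) (by linarith)
  simp only [Set.mem_preimage, Set.mem_inter_iff, Sq, Sec, Up, Set.mem_ofPred_eq, C2_bet_refl,
    C2_dr_refl, C2_norm_refl, C2_im_refl]
  rw [hrel, harg]
  have hz : -(starRingEnd ℂ) z ≠ 0 ↔ z ≠ 0 := by
    rw [neg_ne_zero, map_ne_zero]
  rw [hz]

private theorem C2_tri_refl (q : ℂ) :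
    volume.real (Tri (‖-(starRingEnd ℂ) q‖ / 2) (dr (-(starRingEnd ℂ) q)) (-bet (-(starRingEnd ℂ) q))
      (bet (-(starRingEnd ℂ) q)) ∩ Up) =
      volume.real (Tri (‖q‖ / 2) (dr q) (-bet q) (bet q) ∩ Up) := by
  rw [C2_norm_refl, C2_bet_refl, C2_dr_refl]
  have hm : MeasurableSet (Tri (‖q‖ / 2) (-(starRingEnd ℂ) (dr q)) (-bet q) (bet q) ∩ Up) :=
    (Tri_meas _ _ _ _).inter C2a_Up_meas
  rw [← C2_vol_refl hm]
  congr 1
  ext z
  have hrel := C2_rel_refl z (dr q)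
  simp only [Set.mem_preimage, Set.mem_inter_iff, Tri, Up, Set.mem_ofPred_eq, C2_im_refl]
  rw [hrel]
  simp only [Complex.conj_re, Complex.conj_im, Real.tan_neg]
  constructor
  · rintro ⟨⟨k1, k2, k3, k4⟩, k5⟩
    exact ⟨⟨k1, k2, by linarith, by linarith⟩, k5⟩
  · rintro ⟨⟨k1, k2, k3, k4⟩, k5⟩
    exact ⟨⟨k1, k2, by linarith, by linarith⟩, k5⟩

/-- the same over the negative real axis (reflection `q ↦ - conj q`) -/
theorem tri_left {q : ℂ} {h : ℝ} (h1 : 1 ≤ ‖q‖) (h2 : ‖q‖ < 2 / √3) (ha : |(-(starRingEnd ℂ) q).arg| < bet q)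
    (hh : h ≤ √3 / 12) (hq : -h ≤ q.im) (hh0 : 0 ≤ h) :
    c0 / 6 * lamU q + Gf (bet q) / 6 - max (0.01285 * (-(starRingEnd ℂ) q).arg) (0.046 * h) ≤
      volume.real (Tri (‖q‖ / 2) (dr q) (-bet q) (bet q) ∩ Up) := by
  have key := tri_right (q := -(starRingEnd ℂ) q) (h := h) (by rwa [C2_norm_refl])
    (by rwa [C2_norm_refl]) (by rwa [C2_bet_refl]) hh (by rwa [C2_im_refl]) hh0
  rw [C2_tri_refl, C2_lamU_refl h1, C2_bet_refl] at key
  exact key

end H24
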