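import Pool.Agent.Lib_MP_27c196_co.E.A1
import Pool.Agent.Lib_MP_27c196_co.E.A2

/-! H24 E, piece C2a: wall cells, the part above (the general part and the middle arcs) -/

set_option linter.unusedVariables false

noncomputable section

namespace H24

open Finset MeasureTheory

theorem C2a_Up_meas : MeasurableSet Up := measurableSet_lt measurable_const Complex.measurable_im

theorem C2a_mem {Q : Finset ℂ} {q : ℂ} (h : q ∈ Qn Q) : q ∈ Q ∧ ‖q‖ < 2 / √3 := by
  simpa [Qn] using h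

theorem C2a_Sq_ball (q : ℂ) : Sq q ⊆ Metric.ball 0 (1 / √3) := by
  rintro z ⟨_, h, _⟩
  simpa using h

theorem C2a_half : volume.real (Metric.ball (0 : ℂ) (1 / √3) ∩ Up) = Real.pi / 6 := by
  rw [half_disc_vol (by positivity), div_pow, one_pow, Real.sq_sqrt (by norm_num)]
  ring

theorem C2a_H_ne : volume (Metric.ball (0 : ℂ) (1 / √3) ∩ Up) ≠ ⊤ :=
  measure_ne_top_of_subset Set.inter_subset_left measure_ball_lt_top.ne

theorem C2a_disj {Q : Finset ℂ} (hQ : Sep1 Q) :
    Set.PairwiseDisjoint (↑(Qn Q)) (fun q => Sq q ∩ Up) := by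
  intro q hq q' hq' hne
  obtain ⟨a1, a2⟩ := C2a_mem (Finset.mem_coe.1 hq)
  obtain ⟨b1, b2⟩ := C2a_mem (Finset.mem_coe.1 hq')
  exact (Sq_disjoint (hQ.1 q a1) (hQ.1 q' b1) a2 b2 (hQ.2 q a1 q' b1 hne)).mono
    Set.inter_subset_left Set.inter_subset_left

theorem C2a_U_sub (Q : Finset ℂ) :
    (⋃ q ∈ Qn Q, (Sq q ∩ Up)) ⊆ Metric.ball (0 : ℂ) (1 / √3) ∩ Up := by
  refine Set.iUnion₂_subset fun q _ => ?_
  exact Set.inter_subset_inter_left _ (C2a_Sq_ball q)

theorem C2a_Sq_ne (q : ℂ) : volume (Sq q ∩ Up) ≠ ⊤ :=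
  measure_ne_top_of_subset (Set.inter_subset_inter_left _ (C2a_Sq_ball q)) C2a_H_ne

theorem C2a_union {Q : Finset ℂ} (hQ : Sep1 Q) :
    volume.real (⋃ q ∈ Qn Q, (Sq q ∩ Up)) = ∑ q ∈ Qn Q, volume.real (Sq q ∩ Up) :=
  measureReal_biUnion_finset (C2a_disj hQ) (fun q _ => (Sec_meas _ _ _ _).inter C2a_Up_meas)
    (fun q _ => C2a_Sq_ne q)

/-- the disjoint sets `Sq q ∩ Up` in the half disc -/
theorem sum_lamU_le {Q : Finset ℂ} (hQ : Sep1 Q) : ∑ q ∈ Qn Q, lamU q ≤ Real.pi := by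
  have h1 := C2a_union hQ
  have h2 : volume.real (⋃ q ∈ Qn Q, (Sq q ∩ Up)) ≤ volume.real (Metric.ball (0 : ℂ) (1 / √3) ∩ Up) :=
    measureReal_mono (C2a_U_sub Q) C2a_H_ne
  rw [C2a_half] at h2
  simp only [lamU]
  rw [← Finset.mul_sum, ← h1]
  linarith

theorem C2a_dr_norm {q : ℂ} (h1 : 1 ≤ ‖q‖) : ‖dr q‖ = 1 := by
  have h : ‖q‖ ≠ 0 := by linarith
  unfold dr
  rw [norm_div, Complex.norm_real, norm_norm, div_self h]

theorem C2a_dr_arg {q : ℂ} (h1 : 1 ≤ ‖q‖) : (dr q).arg = q.arg := by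
  have h : 0 < ‖q‖⁻¹ := by
    have : 0 < ‖q‖ := by linarith
    positivity
  have h2 : dr q = ((‖q‖⁻¹ : ℝ) : ℂ) * q := by
    unfold dr
    rw [div_eq_mul_inv, mul_comm, Complex.ofReal_inv]
  rw [h2, Complex.arg_real_mul q h]

theorem C2a_tri_sub {q : ℂ} (h1 : 1 ≤ ‖q‖) (h2 : ‖q‖ < 2 / √3) :
    Tri (‖q‖ / 2) (dr q) (-bet q) (bet q) ⊆ Sq q := by
  intro z hz
  have hb0 := bet_pos h2
  have hb1 := bet_le h1
  have hpi := Real.pi_pos
  obtain ⟨hz0, ha, hb⟩ := Tri_arg (by linarith) (by linarith) hz (by linarith)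
  refine ⟨hz0, ?_, ha, hb⟩
  have hn := Tri_norm (C2a_dr_norm h1) le_rfl le_rfl hb0.le (by linarith) hz (by linarith)
  rw [cos_bet h2.le] at hn
  have hq : 0 < ‖q‖ := by linarith
  have h3 : 0 < √3 := by positivity
  rw [lt_div_iff₀ h3]
  by_contra hc
  push Not at hc
  nlinarith

/-- `Cell ∩ ball ∩ Up` contains the half disc minus the sectors, and the upper parts of the triangles -/
theorem upper_aux {Q : Finset ℂ} (hQ : Sep1 Q) :
    Real.pi / 6 - (∑ q ∈ Qn Q, lamU q) / 6 +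
      ∑ q ∈ Qn Q, volume.real (Tri (‖q‖ / 2) (dr q) (-bet q) (bet q) ∩ Up) ≤
      volume.real (Cell Q ∩ Metric.ball 0 (1 / √3) ∩ Up) := by
  set U : Set ℂ := ⋃ q ∈ Qn Q, (Sq q ∩ Up) with hU
  set W : Set ℂ := ⋃ q ∈ Qn Q, (Tri (‖q‖ / 2) (dr q) (-bet q) (bet q) ∩ Up) with hW
  set H : Set ℂ := Metric.ball (0 : ℂ) (1 / √3) ∩ Up with hH
  have htri : ∀ q ∈ Qn Q, Tri (‖q‖ / 2) (dr q) (-bet q) (bet q) ⊆ Sq q := fun q hq =>
    C2a_tri_sub (hQ.1 q (C2a_mem hq).1) (C2a_mem hq).2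
  have hWU : W ⊆ U := Set.iUnion₂_mono fun q hq => Set.inter_subset_inter_left _ (htri q hq)
  have hUH : U ⊆ H := C2a_U_sub Q
  have hUm : MeasurableSet U :=
    Finset.measurableSet_biUnion _ fun q _ => (Sec_meas _ _ _ _).inter C2a_Up_meas
  have hWm : MeasurableSet W :=
    Finset.measurableSet_biUnion _ fun q _ => (Tri_meas _ _ _ _).inter C2a_Up_meas
  have hHne : volume H ≠ ⊤ := C2a_H_ne
  have hUne : volume U ≠ ⊤ := measure_ne_top_of_subset hUH hHne
  have hWne : volume W ≠ ⊤ := measure_ne_top_of_subset hWU hUne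
  have hvW : volume.real W =
      ∑ q ∈ Qn Q, volume.real (Tri (‖q‖ / 2) (dr q) (-bet q) (bet q) ∩ Up) := by
    refine measureReal_biUnion_finset ?_ (fun q _ => (Tri_meas _ _ _ _).inter C2a_Up_meas) ?_
    · intro q hq q' hq' hne
      exact (C2a_disj hQ hq hq' hne).mono
        (Set.inter_subset_inter_left _ (htri q (Finset.mem_coe.1 hq)))
        (Set.inter_subset_inter_left _ (htri q' (Finset.mem_coe.1 hq')))
    · intro q hq
      exact measure_ne_top_of_subset (Set.inter_subset_inter_left _ (htri q hq)) (C2a_Sq_ne q)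
  have hvU : volume.real U = ∑ q ∈ Qn Q, volume.real (Sq q ∩ Up) := C2a_union hQ
  have hdiff : volume.real (H \ U) = Real.pi / 6 - volume.real U := by
    rw [measureReal_sdiff hUH hUm hHne, hH, C2a_half]
  have hdisj : Disjoint (H \ U) W := by
    rw [Set.disjoint_left]
    intro z hz hzW
    exact hz.2 (hWU hzW)
  have hne1 : volume (H \ U) ≠ ⊤ := measure_ne_top_of_subset Set.sdiff_subset hHne
  have hun : volume.real ((H \ U) ∪ W) = volume.real (H \ U) + volume.real W :=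
    measureReal_union hdisj hWm hne1 hWne
  have hsub : (H \ U) ∪ W ⊆ Cell Q ∩ Metric.ball 0 (1 / √3) ∩ Up := by
    rintro z (hz | hz)
    · obtain ⟨⟨hzb, hzu⟩, hzU⟩ := hz
      refine ⟨⟨?_, hzb⟩, hzu⟩
      intro q hq
      have hzn : ‖z‖ < 1 / √3 := by simpa using hzb
      refine off_sector (hQ.1 q hq) hzn ?_
      by_cases hqn : ‖q‖ < 2 / √3
      · left
        intro hs
        apply hzU
        rw [hU]
        simp only [Set.mem_iUnion]
        exact ⟨q, by simp [Qn, hq, hqn], hs, hzu⟩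
      · right
        exact not_lt.1 hqn
    · rw [hW] at hz
      simp only [Set.mem_iUnion] at hz
      obtain ⟨q, hq, hzT, hzu⟩ := hz
      have hzS : z ∈ Sq q := htri q hq hzT
      have hzb : z ∈ Metric.ball (0 : ℂ) (1 / √3) := C2a_Sq_ball q hzS
      have hzn : ‖z‖ < 1 / √3 := by simpa using hzb
      obtain ⟨hqQ, hqn⟩ := C2a_mem hq
      refine ⟨⟨?_, hzb⟩, hzu⟩
      intro q' hq'
      by_cases hqq : q' = q
      · subst hqq
        exact tri_side (hQ.1 q' hq') hzT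
      · refine off_sector (hQ.1 q' hq') hzn ?_
        by_cases hqn' : ‖q'‖ < 2 / √3
        · left
          intro hs
          exact Set.disjoint_left.1 (Sq_disjoint (hQ.1 q' hq') (hQ.1 q hqQ) hqn' hqn
            (hQ.2 q' hq' q hqQ hqq)) hs hzS
        · right
          exact not_lt.1 hqn'
  have hCne : volume (Cell Q ∩ Metric.ball 0 (1 / √3) ∩ Up) ≠ ⊤ :=
    measure_ne_top_of_subset (Set.inter_subset_left.trans Set.inter_subset_right)
      (measure_ball_lt_top (x := (0 : ℂ)) (r := 1 / √3)).ne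
  have hfin := measureReal_mono hsub hCne
  have hlam : ∑ q ∈ Qn Q, lamU q = 6 * volume.real U := by
    rw [hvU, Finset.mul_sum]
    rfl
  rw [hlam, ← hvW]
  linarith

theorem C2a_polar {e z : ℂ} (he : ‖e‖ = 1) :
    (‖z‖ : ℂ) * Complex.exp (((z * (starRingEnd ℂ) e).arg + e.arg : ℝ) * Complex.I) = z := by
  have h2 := Complex.norm_mul_exp_arg_mul_I (z * (starRingEnd ℂ) e)
  have h3 := Complex.norm_mul_exp_arg_mul_I e
  rw [norm_mul, RCLike.norm_conj, he, mul_one] at h2
  rw [he, Complex.ofReal_one, one_mul] at h3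
  push_cast
  rw [add_mul, Complex.exp_add, h3, ← mul_assoc, h2, mul_assoc, Complex.conj_mul', he]
  simp

theorem C2a_im {e z : ℂ} (he : ‖e‖ = 1) :
    z.im = ‖z‖ * Real.sin ((z * (starRingEnd ℂ) e).arg + e.arg) := by
  have h4 := congrArg Complex.im (C2a_polar (z := z) he)
  rw [Complex.im_ofReal_mul, Complex.exp_ofReal_mul_I_im] at h4
  exact h4.symm

/-- the sector lies in the upper half plane -/
theorem C2a_mid_sub {q : ℂ} (h1 : 1 ≤ ‖q‖) (ha : bet q ≤ q.arg) (hb : q.arg ≤ Real.pi - bet q) :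
    Sq q ⊆ Up := by
  rintro z ⟨hz0, _, hza, hzb⟩
  change 0 < z.im
  rw [C2a_im (z := z) (C2a_dr_norm h1), C2a_dr_arg h1]
  exact mul_pos (norm_pos_iff.2 hz0) (Real.sin_pos_of_pos_of_lt_pi (by linarith) (by linarith))

/-- arc inside the upper half plane: triangle area `(1/3) sin cos = (c0/6) (2 bet) + Gf/3` -/
theorem tri_mid {q : ℂ} (h1 : 1 ≤ ‖q‖) (h2 : ‖q‖ < 2 / √3) (ha : bet q ≤ q.arg) (hb : q.arg ≤ Real.pi - bet q) :
    c0 / 6 * lamU q + Gf (bet q) / 6 ≤ volume.real (Tri (‖q‖ / 2) (dr q) (-bet q) (bet q) ∩ Up) := by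
  have hb0 := bet_pos h2
  have hb1 := bet_le h1
  have hpi := Real.pi_pos
  have hS := C2a_mid_sub h1 ha hb
  have hT := (C2a_tri_sub h1 h2).trans hS
  have h3 : √3 ^ 2 = 3 := Real.sq_sqrt (by norm_num)
  have hlam : lamU q = 2 * bet q := by
    unfold lamU
    rw [Set.inter_eq_self_of_subset_left hS]
    unfold Sq
    rw [Sec_vol (by positivity) (C2a_dr_norm h1) (by linarith) (by linarith) (by linarith), div_pow,
      one_pow, h3]
    ring
  rw [hlam, Set.inter_eq_self_of_subset_left hT,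
    Tri_vol (by positivity) (C2a_dr_norm h1) (by linarith) (by linarith) (by linarith), Real.tan_neg]
  have hc := cos_bet h2.le
  have hcpos : 0 < Real.cos (bet q) := Real.cos_pos_of_mem_Ioo ⟨by linarith, by linarith⟩
  have hG := Gf_ge hb0.le hb1
  have hG0 : 0 ≤ Gf (bet q) := by
    refine le_trans ?_ hG
    have : 0 ≤ min (bet q) (Real.pi / 6 - bet q) := le_min hb0.le (by linarith)
    positivity
  have hq2 : ‖q‖ ^ 2 = 4 / 3 * Real.cos (bet q) ^ 2 := by
    rw [hc, mul_pow, div_pow, h3]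
    ring
  have htan : (‖q‖ / 2) ^ 2 / 2 * (Real.tan (bet q) - -Real.tan (bet q)) =
      Real.sin (bet q) * Real.cos (bet q) / 3 := by
    rw [div_pow, hq2, Real.tan_eq_sin_div_cos]
    field_simp
    ring
  rw [htan]
  unfold Gf at hG0 ⊢
  linarith

theorem C2a_arg_refl {q : ℂ} (h0 : q ≠ 0) {φ : ℝ} (h1 : -Real.pi < φ) (h2 : φ ≤ Real.pi)
    (hc : Real.cos φ = -Real.cos q.arg) (hs : Real.sin φ = Real.sin q.arg) :
    (-(starRingEnd ℂ) q).arg = φ := by
  have h : -(starRingEnd ℂ) q = (‖q‖ : ℂ) * (Complex.cos φ + Complex.sin φ * Complex.I) := by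
    apply Complex.ext
    · rw [Complex.re_ofReal_mul, Complex.neg_re, Complex.conj_re]
      have : (Complex.cos φ + Complex.sin φ * Complex.I).re = Real.cos φ := by
        simp [← Complex.ofReal_cos, ← Complex.ofReal_sin]
      rw [this, hc]
      have := Complex.norm_mul_cos_arg q
      linarith
    · rw [Complex.im_ofReal_mul, Complex.neg_im, Complex.conj_im]
      have : (Complex.cos φ + Complex.sin φ * Complex.I).im = Real.sin φ := by
        simp [← Complex.ofReal_cos, ← Complex.ofReal_sin]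
      rw [this, hs]
      have := Complex.norm_mul_sin_arg q
      linarith
  rw [h]
  exact Complex.arg_mul_cos_add_sin_mul_I (norm_pos_iff.2 h0) ⟨h1, h2⟩

/-- the remaining near points do not meet the upper half plane: `lamU q = 0` -/
theorem lamU_zero {q : ℂ} {h : ℝ} (h1 : 1 ≤ ‖q‖) (h2 : ‖q‖ < 2 / √3) (hh : h ≤ √3 / 12) (hq : -h ≤ q.im)
    (ha : ¬ (bet q ≤ q.arg ∧ q.arg ≤ Real.pi - bet q)) (hb : ¬ |q.arg| < bet q)
    (hc : ¬ |(-(starRingEnd ℂ) q).arg| < bet q) : lamU q = 0 := by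
  have hb0 := bet_pos h2
  have hb1 := bet_le h1
  have hpi := Real.pi_pos
  have hq0 : q ≠ 0 := by
    intro h
    rw [h, norm_zero] at h1
    linarith
  have hr1 := Complex.neg_pi_lt_arg q
  have hr2 := Complex.arg_le_pi q
  have hr : -Real.pi + bet q ≤ q.arg ∧ q.arg ≤ -bet q := by
    rcases le_or_gt (bet q) q.arg with hA | hA
    · exfalso
      have hB : Real.pi - bet q < q.arg := by
        by_contra hB
        exact ha ⟨hA, not_lt.1 hB⟩
      apply hc
      rw [C2a_arg_refl hq0 (φ := Real.pi - q.arg) (by linarith) (by linarith)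
        (Real.cos_pi_sub _) (Real.sin_pi_sub _), abs_of_nonneg (by linarith)]
      linarith
    · have hB : q.arg ≤ -bet q := by
        by_contra hB
        exact hb (abs_lt.2 ⟨not_le.1 hB, hA⟩)
      refine ⟨?_, hB⟩
      by_contra hC
      apply hc
      rw [C2a_arg_refl hq0 (φ := -Real.pi - q.arg) (by linarith) (by linarith)
        (by rw [show -Real.pi - q.arg = -(q.arg + Real.pi) by ring, Real.cos_neg, Real.cos_add_pi])
        (by rw [show -Real.pi - q.arg = -(q.arg + Real.pi) by ring, Real.sin_neg, Real.sin_add_pi,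
          neg_neg]), abs_of_nonpos (by linarith)]
      linarith
  have he : Sq q ∩ Up = ∅ := by
    rw [Set.eq_empty_iff_forall_notMem]
    rintro z ⟨⟨hz0, _, hza, hzb⟩, hzu⟩
    change 0 < z.im at hzu
    rw [C2a_im (z := z) (C2a_dr_norm h1), C2a_dr_arg h1] at hzu
    have hs : Real.sin ((z * (starRingEnd ℂ) (dr q)).arg + q.arg) < 0 :=
      Real.sin_neg_of_neg_of_neg_pi_lt (by linarith) (by linarith)
    have := norm_pos_iff.2 hz0
    nlinarith
  unfold lamU
  rw [he]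
  simp

/-- at most one arc is over the positive real axis (`Sq_disjoint`: both would contain points of small argument, or `bet_angle`) -/
theorem right_unique {q q' : ℂ} (h1 : 1 ≤ ‖q‖) (h1' : 1 ≤ ‖q'‖) (h2 : ‖q‖ < 2 / √3) (h2' : ‖q'‖ < 2 / √3)
    (h : 1 ≤ ‖q - q'‖) (ha : |q.arg| < bet q) : ¬ |q'.arg| < bet q' := by
  intro ha'
  have hpi := Real.pi_pos
  have hb := bet_le h1
  have hb' := bet_le h1'
  have hA := bet_angle h1 h1' h2 h2' h
  have e1 : dr q ≠ 0 := by
    intro h0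
    have := C2a_dr_norm h1
    rw [h0, norm_zero] at this
    exact zero_ne_one this
  have e2 : dr q' ≠ 0 := by
    intro h0
    have := C2a_dr_norm h1'
    rw [h0, norm_zero] at this
    exact zero_ne_one this
  rw [abs_lt] at ha ha'
  have hcj : ((starRingEnd ℂ) (dr q)).arg = -q.arg := by
    rw [Complex.arg_conj, C2a_dr_arg h1, if_neg]
    intro h0
    rw [h0] at ha
    linarith
  have e3 : (starRingEnd ℂ) (dr q) ≠ 0 := (map_ne_zero _).2 e1
  have hm : (dr q' * (starRingEnd ℂ) (dr q)).arg = q'.arg + -q.arg := by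
    rw [Complex.arg_mul e2 e3, C2a_dr_arg h1', hcj]
    rw [C2a_dr_arg h1', hcj]
    constructor <;> linarith
  rw [hm] at hA
  have : |q'.arg + -q.arg| < bet q + bet q' := by
    rw [abs_lt]
    constructor <;> linarith
  linarith

end H24
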