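import Pool.Agent.Lib_MP_27c196_co.E.C1
import Pool.Agent.Lib_MP_27c196_co.E.C2
import Pool.Agent.Lib_MP_27c196_co.E.B2

/-! H24 E, piece C3: wall cells -/

set_option linter.unusedVariables false

noncomputable section

namespace H24

open Finset MeasureTheory

/-- two points with norms in `[1, 3/2]`, the first `< 2/√3`, and angle at most 0.67 rad (38.4 degrees); use `1 - x^2/2 ≤ cos x` are at distance `< 1` -/
theorem close_angle {q q' : ℂ} (h1 : 1 ≤ ‖q‖) (h2 : ‖q‖ < 2 / √3) (h1' : 1 ≤ ‖q'‖) (h2' : ‖q'‖ < 3 / 2)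
    (h : |q'.arg - q.arg| ≤ 0.67) : ‖q - q'‖ < 1 := by
  have hc : (0.7755 : ℝ) ≤ Real.cos (q'.arg - q.arg) := by
    have h3 := Real.one_sub_sq_div_two_le_cos (x := q'.arg - q.arg)
    have h4 : (q'.arg - q.arg) ^ 2 ≤ 0.67 ^ 2 := by
      rw [← sq_abs]
      exact pow_le_pow_left₀ (abs_nonneg _) h 2
    linarith
  have hr : ‖q‖ ≤ 1.155 := by
    refine h2.le.trans ?_
    rw [div_le_iff₀ (by positivity)]
    have : (1.732 : ℝ) ≤ √3 := Real.le_sqrt_of_sq_le (by norm_num)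
    linarith
  have e1 := Complex.norm_mul_cos_arg q
  have e2 := Complex.norm_mul_sin_arg q
  have e3 := Complex.norm_mul_cos_arg q'
  have e4 := Complex.norm_mul_sin_arg q'
  have hn : ‖q - q'‖ ^ 2 = ‖q‖ ^ 2 + ‖q'‖ ^ 2 - 2 * (‖q‖ * ‖q'‖) * Real.cos (q'.arg - q.arg) := by
    rw [Complex.sq_norm, Complex.normSq_apply, Complex.sub_re, Complex.sub_im, ← e1, ← e2, ← e3,
      ← e4, Real.cos_sub]
    have s1 := Real.sin_sq_add_cos_sq q.arg
    have s2 := Real.sin_sq_add_cos_sq q'.arg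
    linear_combination ‖q‖ ^ 2 * s1 + ‖q'‖ ^ 2 * s2
  have hlt : ‖q - q'‖ ^ 2 < 1 := by
    rw [hn]
    have h5 : (0 : ℝ) ≤ ‖q‖ * ‖q'‖ := by positivity
    have h6 : 2 * (‖q‖ * ‖q'‖) * 0.7755 ≤ 2 * (‖q‖ * ‖q'‖) * Real.cos (q'.arg - q.arg) :=
      mul_le_mul_of_nonneg_left hc (by linarith)
    have p1 := mul_nonneg (sub_nonneg.2 h1) (sub_nonneg.2 hr)
    have p2 := mul_nonneg (sub_nonneg.2 h1') (sub_nonneg.2 h2'.le)
    have p3 := mul_nonneg (sub_nonneg.2 hr) (sub_nonneg.2 h2'.le)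
    have p4 := mul_nonneg (sub_nonneg.2 hr) (sub_nonneg.2 h1')
    have p5 := mul_nonneg (sub_nonneg.2 h1) (sub_nonneg.2 h2'.le)
    have p6 := mul_nonneg (sub_nonneg.2 h1) (sub_nonneg.2 h1')
    nlinarith
  nlinarith [norm_nonneg (q - q')]

/-- `ψ` of the right side: the least value of `q.im / ‖q‖` over the `q ∈ Q` with `q.re > 0`, `‖q‖ < 3/2`, clamped to `[0, 1/10]` -/
def psR (Q : Finset ℂ) : ℝ :=
  max 0 ((insert (1 / 10 : ℝ) ((Q.filter (fun q => 0 < q.re ∧ ‖q‖ < 3 / 2)).image (fun q => q.im / ‖q‖))).min'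
    (Finset.insert_nonempty _ _))

/-- the reflected set -/
def refl (Q : Finset ℂ) : Finset ℂ := Q.image (fun q => -(starRingEnd ℂ) q)

private theorem C3_psR_nonneg (Q : Finset ℂ) : 0 ≤ psR Q := le_max_left _ _

private theorem C3_psR_le (Q : Finset ℂ) : psR Q ≤ 1 / 10 :=
  max_le (by norm_num) (Finset.min'_le _ _ (Finset.mem_insert_self _ _))

private theorem C3_psR_spec {Q : Finset ℂ} (hQ1 : ∀ q ∈ Q, 1 ≤ ‖q‖) (h : 0 < psR Q) {q : ℂ} (hq : q ∈ Q)
    (h1 : 0 < q.re) (h2 : ‖q‖ < 3 / 2) : psR Q * ‖q‖ ≤ q.im := by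
  have h0 : 0 < ‖q‖ := lt_of_lt_of_le one_pos (hQ1 q hq)
  rw [← le_div_iff₀ h0]
  unfold psR at h ⊢
  have h3 := Finset.min'_le
    (insert (1 / 10 : ℝ) ((Q.filter (fun q => 0 < q.re ∧ ‖q‖ < 3 / 2)).image (fun q => q.im / ‖q‖)))
    (q.im / ‖q‖) (Finset.mem_insert_of_mem (Finset.mem_image.2 ⟨q, Finset.mem_filter.2 ⟨hq, h1, h2⟩, rfl⟩))
  rcases lt_max_iff.1 h with h4 | h4
  · exact absurd h4 (lt_irrefl _)
  · rw [max_eq_right h4.le]
    exact h3

private theorem C3_le_psR {Q : Finset ℂ} {c : ℝ} (h0 : c ≤ 1 / 10)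
    (h : ∀ q ∈ Q, 0 < q.re → ‖q‖ < 3 / 2 → c ≤ q.im / ‖q‖) : c ≤ psR Q := by
  unfold psR
  refine le_max_of_le_right (Finset.le_min' _ _ _ fun x hx => ?_)
  rcases Finset.mem_insert.1 hx with rfl | hx
  · exact h0
  · obtain ⟨q, hq, rfl⟩ := Finset.mem_image.1 hx
    obtain ⟨a, b, c⟩ := Finset.mem_filter.1 hq
    exact h q a b c

private theorem C3_side {Q : Finset ℂ} (hQ : Sep1 Q) {h : ℝ} (hh0 : 0 ≤ h) (hh : h ≤ √3 / 12)
    (hy : ∀ q ∈ Q, -h ≤ q.im) {q : ℂ} (hq : q ∈ Q) (hn : ‖q‖ < 2 / √3) (ha : |q.arg| < bet q) :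
    max (0.01285 * q.arg) (0.046 * h) ≤ (3 / 32 - 1 / 50) * psR Q + h / 12 := by
  have h0 := C3_psR_nonneg Q
  refine max_le ?_ (by linarith)
  rcases le_or_gt q.arg 0 with hφ | hφ
  · linarith
  · have hb := bet_le (hQ.1 q hq)
    have hpi := Real.pi_lt_d4
    have ha' := (abs_lt.1 ha).2
    have hφ2 : q.arg < 0.5236 := by
      norm_num at hpi ⊢
      linarith
    have key : 0.175 * q.arg ≤ psR Q := by
      refine C3_le_psR (by linarith) fun q' hq' hre hn' => ?_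
      have h1' := hQ.1 q' hq'
      have h0' : 0 < ‖q'‖ := lt_of_lt_of_le one_pos h1'
      have e4 := Complex.norm_mul_sin_arg q'
      have e5 : q'.im / ‖q'‖ = Real.sin q'.arg := by
        rw [← e4]
        field_simp
      rw [e5]
      have hsin : 0.175 * q.arg ≤ Real.sin q.arg := by
        have h5 := Real.sin_gt_sub_cube hφ
        have h6 : q.arg ^ 3 ≤ q.arg * 0.5236 ^ 2 := by
          have h7 : q.arg ^ 2 ≤ 0.5236 ^ 2 := pow_le_pow_left₀ hφ.le hφ2.le 2
          have h8 := mul_le_mul_of_nonneg_left h7 hφ.le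
          calc q.arg ^ 3 = q.arg * q.arg ^ 2 := by ring
            _ ≤ _ := h8
        nlinarith
      by_cases hqq : q' = q
      · rw [hqq]
        exact hsin
      · have hfar : ¬ |q'.arg - q.arg| ≤ 0.67 := by
          intro h3
          have h4 := close_angle (hQ.1 q hq) hn h1' hn' h3
          exact absurd (hQ.2 q hq q' hq' (fun h => hqq h.symm)) (not_le.2 h4)
        have habs : |q'.arg| < Real.pi / 2 := Complex.abs_arg_lt_pi_div_two_iff.2 (Or.inl hre)
        rw [abs_lt] at habs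
        rcases le_or_gt 0 (q'.arg - q.arg) with h5 | h5
        · rw [abs_of_nonneg h5] at hfar
          refine hsin.trans ?_
          exact Real.sin_le_sin_of_le_of_le_pi_div_two (by linarith [Real.pi_pos]) habs.2.le
            (by linarith)
        · exfalso
          rw [abs_of_neg h5] at hfar
          have h6 : q'.arg ≤ -0.1464 := by linarith
          have h7 : Real.sin q'.arg ≤ Real.sin (-0.1464) :=
            Real.sin_le_sin_of_le_of_le_pi_div_two habs.1.le (by linarith [Real.pi_pos]) h6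
          rw [Real.sin_neg] at h7
          have h8 := Real.sin_gt_sub_cube (x := 0.1464) (by norm_num)
          have h9 : √3 < 1.7321 := by
            rw [Real.sqrt_lt' (by norm_num)]
            norm_num
          have h10 := hy q' hq'
          have h11 : Real.sin q'.arg < -(√3 / 12) := by
            norm_num at h8 h9 h7 ⊢
            linarith
          have h12 : 0 < √3 := by positivity
          nlinarith
    nlinarith

private theorem C3_mem_refl {Q : Finset ℂ} {q : ℂ} (hq : q ∈ Q) : -(starRingEnd ℂ) q ∈ refl Q :=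
  Finset.mem_image.2 ⟨q, hq, rfl⟩

private theorem C3_norm_refl (q : ℂ) : ‖-(starRingEnd ℂ) q‖ = ‖q‖ := by
  rw [norm_neg, RCLike.norm_conj]

private theorem C3_bet_refl (q : ℂ) : bet (-(starRingEnd ℂ) q) = bet q := by
  unfold bet
  rw [C3_norm_refl]

private theorem C3_sub_refl (q q' : ℂ) : ‖-(starRingEnd ℂ) q - -(starRingEnd ℂ) q'‖ = ‖q - q'‖ := by
  have : -(starRingEnd ℂ) q - -(starRingEnd ℂ) q' = -(starRingEnd ℂ) (q - q') := by
    rw [map_sub]
    ring
  rw [this, C3_norm_refl]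

private theorem C3_sep_refl {Q : Finset ℂ} (hQ : Sep1 Q) : Sep1 (refl Q) := by
  constructor
  · intro z hz
    obtain ⟨q, hq, rfl⟩ := Finset.mem_image.1 hz
    rw [C3_norm_refl]
    exact hQ.1 q hq
  · intro z hz z' hz' hne
    obtain ⟨q, hq, rfl⟩ := Finset.mem_image.1 hz
    obtain ⟨q', hq', rfl⟩ := Finset.mem_image.1 hz'
    rw [C3_sub_refl]
    exact hQ.2 q hq q' hq' (fun h => hne (by rw [h]))

private theorem C3_sum_one {S : Finset ℂ} {p : ℂ → Prop} [DecidablePred p] (m : ℂ → ℝ) {b : ℝ} (hb : 0 ≤ b)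
    (hu : ∀ q ∈ S, ∀ q' ∈ S, p q → p q' → q = q') (hm : ∀ q ∈ S, p q → m q ≤ b) :
    ∑ q ∈ S, (if p q then m q else 0) ≤ b := by
  rw [← Finset.sum_filter]
  have hc : (S.filter p).card ≤ 1 := by
    rw [Finset.card_le_one]
    intro q hq q' hq'
    obtain ⟨h1, h2⟩ := Finset.mem_filter.1 hq
    obtain ⟨h3, h4⟩ := Finset.mem_filter.1 hq'
    exact hu q h1 q' h3 h2 h4
  rcases Finset.eq_empty_or_nonempty (S.filter p) with h | ⟨q, hq⟩
  · rw [h, Finset.sum_empty]
    exact hb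
  · have h1 : S.filter p = {q} := by
      refine Finset.eq_singleton_iff_unique_mem.2 ⟨hq, fun q' hq' => ?_⟩
      exact Finset.card_le_one.1 hc q' hq' q hq
    rw [h1, Finset.sum_singleton]
    obtain ⟨h3, h4⟩ := Finset.mem_filter.1 hq
    exact hm q h3 h4

private theorem C3_lamU_nonneg (q : ℂ) : 0 ≤ lamU q := by
  unfold lamU
  have := measureReal_nonneg (μ := volume) (s := Sq q ∩ Up)
  linarith

private theorem C3_near {Q : Finset ℂ} {q : ℂ} (hq : q ∈ Qn Q) : q ∈ Q ∧ ‖q‖ < 2 / √3 :=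
  Finset.mem_filter.1 hq

private theorem C3_vol {Q : Finset ℂ} {h : ℝ} (hh0 : 0 ≤ h) :
    volume.real (Cell Q ∩ {z : ℂ | -(√3 / 4 + h) < z.im ∧ z.im < 0} ∩ Metric.ball 0 (4 / 5)) +
      volume.real (Cell Q ∩ Metric.ball 0 (1 / √3) ∩ Up) ≤
      volume.real (Cell Q ∩ {z : ℂ | -(√3 / 4 + h) < z.im} ∩ Metric.ball 0 (4 / 5)) := by
  have hs : (1.7 : ℝ) ≤ √3 := Real.le_sqrt_of_sq_le (by norm_num)
  have hball : Metric.ball (0 : ℂ) (1 / √3) ⊆ Metric.ball 0 (4 / 5) := by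
    refine Metric.ball_subset_ball ?_
    rw [div_le_iff₀ (by positivity)]
    linarith
  have hfin : ∀ S : Set ℂ, S ⊆ Metric.ball 0 (4 / 5) → volume S ≠ ⊤ := fun S hS =>
    ((measure_mono hS).trans_lt measure_ball_lt_top).ne
  have hmB : MeasurableSet (Cell Q ∩ Metric.ball 0 (1 / √3) ∩ Up) := by
    refine ((Cell_open Q).inter Metric.isOpen_ball).measurableSet.inter ?_
    exact (isOpen_lt continuous_const Complex.continuous_im).measurableSet
  rw [← measureReal_union ?_ hmB (hfin _ fun z hz => hz.2) (hfin _ fun z hz => hball hz.1.2)]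
  · refine measureReal_mono ?_ (hfin _ fun z hz => hz.2)
    rintro z (⟨⟨h1, h2⟩, h3⟩ | ⟨⟨h1, h2⟩, h3⟩)
    · exact ⟨⟨h1, h2.1⟩, h3⟩
    · refine ⟨⟨h1, ?_⟩, hball h2⟩
      have h4 : 0 < z.im := h3
      show -(√3 / 4 + h) < z.im
      linarith
  · rw [Set.disjoint_left]
    rintro z ⟨⟨-, h2⟩, -⟩ ⟨-, h3⟩
    have h4 : 0 < z.im := h3
    have h5 : z.im < 0 := h2.2
    linarith

open Classical in
/-- WALL LOWER BOUND. `lower_total` with `ψ = psR Q`, `ψ' = psR (refl Q)`, and `upper_aux` with `tri_mid`, `tri_right`, `tri_left`, `lamU_zero`, `right_unique`. If the arc of `q` is over the positive real axis and `φ = q.arg ≥ 0` then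
`q.im/‖q‖ = sin φ` is the least value in `psR` (another `q'` with smaller angle would be closer than 1 to `q`: `close_angle`), so `psR = min (sin φ) (1/10)`, `φ ≤ π/6`, `φ ≤ 1.05 sin φ` and
`3/32 psR - 0.01285 φ ≥ psR/50`. For `φ < 0` the loss is `0.046 h`, and `2/3 - 0.092 ≥ 1/2`. Finally `π/6 (1 - (1 - c0)) = √3/4`. -/
theorem wall_lower {Q : Finset ℂ} (hQ : Sep1 Q) {h : ℝ} (hh0 : 0 ≤ h) (hh : h ≤ √3 / 12) (hy : ∀ q ∈ Q, -h ≤ q.im) :
    √3 / 2 + h / 2 + (psR Q + psR (refl Q)) / 50 + (1 - c0) / 6 * (Real.pi - ∑ q ∈ Qn Q, lamU q) +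
      (1 / 6) * ∑ q ∈ (Qn Q).filter (fun q => 0 < lamU q), Gf (bet q) ≤
      volume.real (Cell Q ∩ {z : ℂ | -(√3 / 4 + h) < z.im} ∩ Metric.ball 0 (4 / 5)) := by
  have hy' : ∀ q ∈ refl Q, -h ≤ q.im := by
    intro z hz
    obtain ⟨q, hq, rfl⟩ := Finset.mem_image.1 hz
    simpa using hy q hq
  have hlow := lower_total (ψ := psR Q) (ψ' := psR (refl Q)) hh0 hh hQ.1 hy (C3_psR_nonneg _)
    (C3_psR_le _) (C3_psR_nonneg _) (C3_psR_le _) (fun h0 q hq h1 h2 => C3_psR_spec hQ.1 h0 hq h1 h2)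
    (fun h0 q hq h1 h2 => by
      have h3 := C3_psR_spec (C3_sep_refl hQ).1 h0 (C3_mem_refl hq) (by simpa using h1)
        (by rw [C3_norm_refl]; exact h2)
      rw [C3_norm_refl] at h3
      simpa using h3)
  have hup := upper_aux hQ
  have hvol := C3_vol (Q := Q) hh0
  set mR : ℂ → ℝ := fun q => max (0.01285 * q.arg) (0.046 * h) with hmR
  set mL : ℂ → ℝ := fun q => max (0.01285 * (-(starRingEnd ℂ) q).arg) (0.046 * h) with hmL
  have hmR0 : ∀ q, 0 ≤ mR q := fun q => le_max_of_le_right (by positivity)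
  have hmL0 : ∀ q, 0 ≤ mL q := fun q => le_max_of_le_right (by positivity)
  have hper : ∀ q ∈ Qn Q, c0 / 6 * lamU q + (if 0 < lamU q then (1 / 6) * Gf (bet q) else 0) -
      (if |q.arg| < bet q then mR q else 0) -
      (if |(-(starRingEnd ℂ) q).arg| < bet q then mL q else 0) ≤
      volume.real (Tri (‖q‖ / 2) (dr q) (-bet q) (bet q) ∩ Up) := by
    intro q hq
    obtain ⟨hqQ, hqn⟩ := C3_near hq
    have h1 := hQ.1 q hqQ
    have hR0 : 0 ≤ (if |q.arg| < bet q then mR q else 0) := by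
      split_ifs
      · exact hmR0 q
      · exact le_rfl
    have hL0 : 0 ≤ (if |(-(starRingEnd ℂ) q).arg| < bet q then mL q else 0) := by
      split_ifs
      · exact hmL0 q
      · exact le_rfl
    by_cases hl : 0 < lamU q
    · rw [if_pos hl]
      by_cases ha : bet q ≤ q.arg ∧ q.arg ≤ Real.pi - bet q
      · have h2 := tri_mid h1 hqn ha.1 ha.2
        linarith
      · by_cases hb : |q.arg| < bet q
        · have h2 := tri_right h1 hqn hb hh (hy q hqQ) hh0
          rw [if_pos hb]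
          have h3 : max (0.01285 * q.arg) (0.046 * h) = mR q := rfl
          rw [h3] at h2
          linarith
        · by_cases hc : |(-(starRingEnd ℂ) q).arg| < bet q
          · have h2 := tri_left h1 hqn hc hh (hy q hqQ) hh0
            rw [if_pos hc]
            have h3 : max (0.01285 * (-(starRingEnd ℂ) q).arg) (0.046 * h) = mL q := rfl
            rw [h3] at h2
            linarith
          · exact absurd (lamU_zero h1 hqn hh (hy q hqQ) ha hb hc) hl.ne'
    · have h2 : lamU q = 0 := le_antisymm (not_lt.1 hl) (C3_lamU_nonneg q)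
      rw [if_neg hl, h2]
      have h3 := measureReal_nonneg (μ := volume)
        (s := Tri (‖q‖ / 2) (dr q) (-bet q) (bet q) ∩ Up)
      linarith
  have hsum := Finset.sum_le_sum hper
  rw [Finset.sum_sub_distrib, Finset.sum_sub_distrib, Finset.sum_add_distrib, ← Finset.mul_sum] at hsum
  have hG : ∑ q ∈ Qn Q, (if 0 < lamU q then (1 / 6) * Gf (bet q) else 0) =
      (1 / 6) * ∑ q ∈ (Qn Q).filter (fun q => 0 < lamU q), Gf (bet q) := by
    rw [Finset.mul_sum, Finset.sum_filter]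
  have hRs : ∑ q ∈ Qn Q, (if |q.arg| < bet q then mR q else 0) ≤
      (3 / 32 - 1 / 50) * psR Q + h / 12 := by
    refine C3_sum_one mR ?_ ?_ ?_
    · have := C3_psR_nonneg Q
      linarith
    · intro q hq q' hq' ha ha'
      by_contra hne
      obtain ⟨a1, a2⟩ := C3_near hq
      obtain ⟨b1, b2⟩ := C3_near hq'
      exact right_unique (hQ.1 q a1) (hQ.1 q' b1) a2 b2 (hQ.2 q a1 q' b1 hne) ha ha'
    · intro q hq ha
      obtain ⟨a1, a2⟩ := C3_near hq
      exact C3_side hQ hh0 hh hy a1 a2 ha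
  have hLs : ∑ q ∈ Qn Q, (if |(-(starRingEnd ℂ) q).arg| < bet q then mL q else 0) ≤
      (3 / 32 - 1 / 50) * psR (refl Q) + h / 12 := by
    refine C3_sum_one mL ?_ ?_ ?_
    · have := C3_psR_nonneg (refl Q)
      linarith
    · intro q hq q' hq' ha ha'
      by_contra hne
      obtain ⟨a1, a2⟩ := C3_near hq
      obtain ⟨b1, b2⟩ := C3_near hq'
      refine right_unique (q := -(starRingEnd ℂ) q) (q' := -(starRingEnd ℂ) q')
        (by rw [C3_norm_refl]; exact hQ.1 q a1) (by rw [C3_norm_refl]; exact hQ.1 q' b1)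
        (by rw [C3_norm_refl]; exact a2) (by rw [C3_norm_refl]; exact b2)
        (by rw [C3_sub_refl]; exact hQ.2 q a1 q' b1 hne) (by rw [C3_bet_refl]; exact ha)
        (by rw [C3_bet_refl]; exact ha')
    · intro q hq ha
      obtain ⟨a1, a2⟩ := C3_near hq
      exact C3_side (C3_sep_refl hQ) hh0 hh hy' (C3_mem_refl a1) (by rw [C3_norm_refl]; exact a2)
        (by rw [C3_bet_refl]; exact ha)
  rw [hG] at hsum
  have hc0 : c0 * Real.pi = 3 * √3 / 2 := by
    unfold c0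
    field_simp
  have e1 : (1 - c0) / 6 * (Real.pi - ∑ q ∈ Qn Q, lamU q) =
      Real.pi / 6 - √3 / 4 - (∑ q ∈ Qn Q, lamU q) / 6 + c0 / 6 * ∑ q ∈ Qn Q, lamU q := by
    linear_combination (-(1 : ℝ) / 6) * hc0
  rw [e1]
  linarith

theorem wall_local_lower {Q : Finset ℂ} (hQ : Sep1 Q) {h : ℝ} (hh0 : 0 ≤ h) (hh : h ≤ √3 / 12)
    (hy : ∀ q ∈ Q, -h ≤ q.im) :
    √3 / 2 ≤ volume.real (Cell Q ∩ {z : ℂ | -(√3 / 4 + h) < z.im} ∩ Metric.ball 0 (4 / 5)) := by
  classical
  have h1 := wall_lower hQ hh0 hh hy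
  have h2 := sum_lamU_le hQ
  have h3 := C3_psR_nonneg Q
  have h4 := C3_psR_nonneg (refl Q)
  have h5 : 0 ≤ (1 - c0) / 6 * (Real.pi - ∑ q ∈ Qn Q, lamU q) := by
    have := c0_bounds.2
    refine mul_nonneg ?_ (by linarith)
    linarith
  have h6 : 0 ≤ ∑ q ∈ (Qn Q).filter (fun q => 0 < lamU q), Gf (bet q) := by
    refine Finset.sum_nonneg fun q hq => ?_
    obtain ⟨a1, a2⟩ := C3_near (Finset.mem_filter.1 hq).1
    have b1 := (bet_pos a2).le
    have b2 := bet_le (hQ.1 q a1)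
    refine le_trans ?_ (Gf_ge b1 b2)
    have : 0 ≤ min (bet q) (Real.pi / 6 - bet q) := le_min b1 (by linarith)
    positivity
  have h7 : 0 ≤ (1 / 6 : ℝ) * ∑ q ∈ (Qn Q).filter (fun q => 0 < lamU q), Gf (bet q) := by
    positivity
  refine le_trans ?_ h1
  linarith

end H24
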