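import Pool.Agent.Lib_MP_27c196_co.E.C3

/-! H24 E, piece C4: wall cells, stability -/

set_option linter.unusedVariables false

noncomputable section

namespace H24

open Finset MeasureTheory

private theorem C4_norm_exp (t : ℝ) : ‖Complex.exp ((t : ℂ) * Complex.I)‖ = 1 :=
  Complex.norm_exp_ofReal_mul_I t

private theorem C4_conj_exp (t : ℝ) :
    (starRingEnd ℂ) (Complex.exp ((t : ℂ) * Complex.I)) = Complex.exp (((-t : ℝ) : ℂ) * Complex.I) := by
  rw [← Complex.exp_conj]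
  simp

private theorem C4_exp_mul (s t : ℝ) :
    Complex.exp ((s : ℂ) * Complex.I) * Complex.exp ((t : ℂ) * Complex.I) =
      Complex.exp (((s + t : ℝ) : ℂ) * Complex.I) := by
  rw [← Complex.exp_add]
  push_cast
  ring_nf

/-- polar form relative to a direction -/
private theorem C4_polar (t : ℝ) (z : ℂ) :
    z = (‖z‖ : ℂ) * Complex.exp (((t + (z * (starRingEnd ℂ) (Complex.exp ((t : ℂ) * Complex.I))).arg : ℝ) : ℂ) *
      Complex.I) := by
  set w := z * (starRingEnd ℂ) (Complex.exp ((t : ℂ) * Complex.I)) with hw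
  have h1 : ‖w‖ = ‖z‖ := by
    rw [hw, norm_mul, Complex.norm_conj, C4_norm_exp, mul_one]
  have h2 : w * Complex.exp ((t : ℂ) * Complex.I) = z := by
    rw [hw, C4_conj_exp, mul_assoc, C4_exp_mul]
    simp
  have h3 := Complex.norm_mul_exp_arg_mul_I w
  rw [← h2]
  nth_rewrite 1 [← h3]
  rw [h2, h1, mul_assoc, C4_exp_mul, add_comm]

private theorem C4_arg_exp {r : ℝ} (hr : 0 < r) {u : ℝ} (h1 : -Real.pi < u) (h2 : u ≤ Real.pi) :
    ((r : ℂ) * Complex.exp ((u : ℂ) * Complex.I)).arg = u := by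
  rw [Complex.exp_mul_I]
  exact Complex.arg_mul_cos_add_sin_mul_I hr ⟨h1, h2⟩

private theorem C4_arg_rel {r : ℝ} (hr : 0 < r) {u s : ℝ} (h1 : -Real.pi < u - s) (h2 : u - s ≤ Real.pi) :
    ((r : ℂ) * Complex.exp ((u : ℂ) * Complex.I) *
      (starRingEnd ℂ) (Complex.exp ((s : ℂ) * Complex.I))).arg = u - s := by
  rw [C4_conj_exp, mul_assoc, C4_exp_mul, ← sub_eq_add_neg]
  exact C4_arg_exp hr h1 h2

private theorem C4_im {r u : ℝ} (hr : 0 < r) (h1 : 0 < u) (h2 : u < Real.pi) :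
    0 < ((r : ℂ) * Complex.exp ((u : ℂ) * Complex.I)).im := by
  rw [Complex.exp_mul_I, ← Complex.ofReal_cos, ← Complex.ofReal_sin]
  simp only [Complex.mul_im, Complex.add_im, Complex.add_re, Complex.ofReal_re, Complex.ofReal_im, Complex.mul_re,
    Complex.I_re, Complex.I_im, mul_zero, mul_one, zero_mul, sub_zero, add_zero, zero_add]
  exact mul_pos hr (Real.sin_pos_of_pos_of_lt_pi h1 h2)

private theorem C4_dr {q : ℂ} (hq : q ≠ 0) : dr q = Complex.exp ((q.arg : ℂ) * Complex.I) := by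
  unfold dr
  have h := Complex.norm_mul_exp_arg_mul_I q
  have h0 : (‖q‖ : ℂ) ≠ 0 := by
    simpa using hq
  nth_rewrite 1 [← h]
  field_simp

private theorem C4_dr_norm {q : ℂ} (hq : q ≠ 0) : ‖dr q‖ = 1 := by
  rw [C4_dr hq, C4_norm_exp]

private theorem C4_r0 : (0 : ℝ) < 1 / √3 := by positivity

private theorem C4_r0sq : (1 / √3) ^ 2 = (1 / 3 : ℝ) := by
  rw [div_pow, Real.sq_sqrt (by norm_num)]
  norm_num

private theorem C4_Qn {Q : Finset ℂ} (hQ : Sep1 Q) {q : ℂ} (hq : q ∈ Qn Q) :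
    q ∈ Q ∧ 1 ≤ ‖q‖ ∧ ‖q‖ < 2 / √3 ∧ q ≠ 0 := by
  unfold Qn at hq
  rw [Finset.mem_filter] at hq
  refine ⟨hq.1, hQ.1 q hq.1, hq.2, ?_⟩
  rintro rfl
  have := hQ.1 0 hq.1
  simp at this
  linarith

private theorem C4_Sq_meas (q : ℂ) : MeasurableSet (Sq q) := Sec_meas _ _ _ _

private theorem C4_Up_meas : MeasurableSet Up := by
  unfold Up
  exact measurableSet_lt measurable_const Complex.measurable_im

private theorem C4_Sq_sub (q : ℂ) : Sq q ⊆ Metric.ball 0 (1 / √3) := by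
  intro z hz
  rw [mem_ball_zero_iff]
  exact hz.2.1

private theorem C4_lamU_le {q : ℂ} (h1 : 1 ≤ ‖q‖) (h2 : ‖q‖ < 2 / √3) (hq : q ≠ 0) : lamU q ≤ 2 * bet q := by
  unfold lamU
  have hb0 := bet_pos h2
  have hb1 := bet_le h1
  have hpi := Real.pi_pos
  have hv : volume.real (Sq q) = (1 / √3) ^ 2 * (bet q - (-bet q)) / 2 :=
    Sec_vol C4_r0.le (C4_dr_norm hq) (by linarith) (by linarith) (by linarith)
  rw [C4_r0sq] at hv
  have hfin : volume (Sq q) ≠ ⊤ :=
    ((measure_mono (C4_Sq_sub q)).trans_lt measure_ball_lt_top).ne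
  have hm : volume.real (Sq q ∩ Up) ≤ volume.real (Sq q) := measureReal_mono Set.inter_subset_left hfin
  rw [hv] at hm
  linarith

private theorem C4_lamU_nonneg (q : ℂ) : 0 ≤ lamU q := by
  unfold lamU
  positivity

/-- a direction of the sector in the upper half plane -/
private theorem C4_lamU_pos {q : ℂ} {s t : ℝ} (hb : bet q ≤ Real.pi / 6) (hs : dr q = Complex.exp ((s : ℂ) * Complex.I))
    (h : |t - s| < bet q) (h0 : 0 < t) (h1 : t < Real.pi) : 0 < lamU q := by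
  have hpi := Real.pi_pos
  obtain ⟨δ, hδ0, hδ1, hδ2, hδ3⟩ : ∃ δ : ℝ, 0 < δ ∧ δ ≤ bet q - |t - s| ∧ δ ≤ t ∧ δ ≤ Real.pi - t := by
    refine ⟨min (bet q - |t - s|) (min t (Real.pi - t)), ?_, min_le_left _ _,
      (min_le_right _ _).trans (min_le_left _ _), (min_le_right _ _).trans (min_le_right _ _)⟩
    refine lt_min (by linarith) (lt_min h0 (by linarith))
  have habs : |t - s| ≥ 0 := abs_nonneg _
  have hsub : Sec (1 / √3) (Complex.exp ((t : ℂ) * Complex.I)) (-δ) δ ⊆ Sq q ∩ Up := by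
    rintro z ⟨hz0, hz1, hz2, hz3⟩
    have hzp := C4_polar t z
    set ω := (z * (starRingEnd ℂ) (Complex.exp ((t : ℂ) * Complex.I))).arg with hω
    have hn : 0 < ‖z‖ := norm_pos_iff.mpr hz0
    have h5 := abs_le.mp (le_refl |t - s|)
    have h6 : (z * (starRingEnd ℂ) (dr q)).arg = t + ω - s := by
      rw [hs]
      nth_rewrite 1 [hzp]
      exact C4_arg_rel hn (by linarith) (by linarith)
    refine ⟨⟨hz0, hz1, ?_, ?_⟩, ?_⟩
    · rw [h6]; linarith
    · rw [h6]; linarith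
    · show 0 < z.im
      rw [hzp]
      exact C4_im hn (by linarith) (by linarith)
  have hv : volume.real (Sec (1 / √3) (Complex.exp ((t : ℂ) * Complex.I)) (-δ) δ) =
      (1 / √3) ^ 2 * (δ - (-δ)) / 2 :=
    Sec_vol C4_r0.le (C4_norm_exp t) (by linarith) (by linarith) (by linarith)
  rw [C4_r0sq] at hv
  have hfin : volume (Sq q ∩ Up) ≠ ⊤ :=
    ((measure_mono (Set.inter_subset_left.trans (C4_Sq_sub q))).trans_lt measure_ball_lt_top).ne
  have hm := measureReal_mono hsub hfin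
  rw [hv] at hm
  unfold lamU
  linarith

/-- the part of the half disc that is not covered by the big sectors -/
private theorem C4_uncovered {Q : Finset ℂ} (hQ : Sep1 Q) {η : ℝ} (hη : 0 < η)
    (hS : Real.pi - ∑ q ∈ Qn Q, lamU q ≤ 34.8 * η)
    (hG : ∑ q ∈ (Qn Q).filter (fun q => 0 < lamU q), Gf (bet q) ≤ 6 * η) :
    volume.real ((Metric.ball 0 (1 / √3) ∩ Up) \ ⋃ q ∈ (Qn Q).filter (fun q => Real.pi / 12 < bet q), Sq q) <
      132 * η / 6 := by
  classical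
  have hpi := Real.pi_pos
  set big := (Qn Q).filter (fun q => Real.pi / 12 < bet q) with hbig
  have hbQ : ∀ q ∈ big, q ∈ Qn Q := fun q hq => (Finset.mem_filter.mp hq).1
  have h1 : (Metric.ball (0 : ℂ) (1 / √3) ∩ Up) \ ⋃ q ∈ big, Sq q =
      (Metric.ball (0 : ℂ) (1 / √3) ∩ Up) \ ⋃ q ∈ big, (Sq q ∩ Up) := by
    ext z
    simp only [Set.mem_sdiff, Set.mem_inter_iff, Set.mem_iUnion, not_exists, not_and]
    constructor
    · rintro ⟨⟨a, b⟩, c⟩
      exact ⟨⟨a, b⟩, fun q hq hz => absurd hz (c q hq)⟩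
    · rintro ⟨⟨a, b⟩, c⟩
      exact ⟨⟨a, b⟩, fun q hq hz => c q hq hz b⟩
  have hdis : Set.PairwiseDisjoint (↑big : Set ℂ) (fun q => Sq q ∩ Up) := by
    intro q hq q' hq' hne
    obtain ⟨a1, a2, a3, a4⟩ := C4_Qn hQ (hbQ q hq)
    obtain ⟨b1, b2, b3, b4⟩ := C4_Qn hQ (hbQ q' hq')
    exact (Sq_disjoint a2 b2 a3 b3 (hQ.2 q a1 q' b1 hne)).mono Set.inter_subset_left Set.inter_subset_left
  have hfin : ∀ q ∈ big, volume (Sq q ∩ Up) ≠ ⊤ := fun q _ =>
    ((measure_mono (Set.inter_subset_left.trans (C4_Sq_sub q))).trans_lt measure_ball_lt_top).ne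
  have hU := measureReal_biUnion_finset (μ := volume) hdis
    (fun q _ => (C4_Sq_meas q).inter C4_Up_meas) hfin
  have hsub : (⋃ q ∈ big, (Sq q ∩ Up)) ⊆ Metric.ball (0 : ℂ) (1 / √3) ∩ Up := by
    intro z hz
    simp only [Set.mem_iUnion] at hz
    obtain ⟨q, _, hz⟩ := hz
    exact ⟨C4_Sq_sub q hz.1, hz.2⟩
  have hfinH : volume (Metric.ball (0 : ℂ) (1 / √3) ∩ Up) ≠ ⊤ :=
    ((measure_mono Set.inter_subset_left).trans_lt measure_ball_lt_top).ne
  have hfinU : volume (⋃ q ∈ big, (Sq q ∩ Up)) ≠ ⊤ := ((measure_mono hsub).trans_lt hfinH.lt_top).ne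
  have hmU : MeasurableSet (⋃ q ∈ big, (Sq q ∩ Up)) :=
    Finset.measurableSet_biUnion big (fun q _ => (C4_Sq_meas q).inter C4_Up_meas)
  have hsplit := measureReal_add_sdiff (μ := volume) hmU (t := Metric.ball (0 : ℂ) (1 / √3) ∩ Up) hfinU hfinH
  rw [Set.union_eq_self_of_subset_left hsub, half_disc_vol C4_r0.le, C4_r0sq, hU] at hsplit
  rw [h1]
  have hlam : ∑ q ∈ big, volume.real (Sq q ∩ Up) = (∑ q ∈ big, lamU q) / 6 := by
    rw [Finset.sum_div]
    refine Finset.sum_congr rfl fun q _ => ?_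
    unfold lamU
    ring
  rw [hlam] at hsplit
  -- the small ones
  have hpart : ∑ q ∈ Qn Q, lamU q = ∑ q ∈ big, lamU q +
      ∑ q ∈ (Qn Q).filter (fun q => ¬ Real.pi / 12 < bet q), lamU q := by
    rw [hbig, Finset.sum_filter_add_sum_filter_not]
  have hsmall : ∑ q ∈ (Qn Q).filter (fun q => ¬ Real.pi / 12 < bet q), lamU q ≤ 96 * η := by
    have hA : ∑ q ∈ (Qn Q).filter (fun q => ¬ Real.pi / 12 < bet q), lamU q ≤
        ∑ q ∈ (Qn Q).filter (fun q => 0 < lamU q), 16 * Gf (bet q) := by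
      calc ∑ q ∈ (Qn Q).filter (fun q => ¬ Real.pi / 12 < bet q), lamU q
          = ∑ q ∈ ((Qn Q).filter (fun q => ¬ Real.pi / 12 < bet q)).filter (fun q => 0 < lamU q), lamU q := by
            symm
            refine Finset.sum_subset (Finset.filter_subset _ _) fun q hq hq' => ?_
            by_contra hne
            exact hq' (Finset.mem_filter.mpr ⟨hq, lt_of_le_of_ne (C4_lamU_nonneg q) (Ne.symm hne)⟩)
        _ ≤ ∑ q ∈ ((Qn Q).filter (fun q => ¬ Real.pi / 12 < bet q)).filter (fun q => 0 < lamU q),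
            16 * Gf (bet q) := by
            refine Finset.sum_le_sum fun q hq => ?_
            rw [Finset.mem_filter, Finset.mem_filter] at hq
            obtain ⟨⟨hq1, hq2⟩, hq3⟩ := hq
            obtain ⟨a1, a2, a3, a4⟩ := C4_Qn hQ hq1
            have hb0 := bet_pos a3
            have hb1 := bet_le a2
            have hg := Gf_ge hb0.le hb1
            have hl := C4_lamU_le a2 a3 a4
            have hmin : min (bet q) (Real.pi / 6 - bet q) = bet q := min_eq_left (by linarith)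
            rw [hmin] at hg
            linarith
        _ ≤ _ := by
            refine Finset.sum_le_sum_of_subset_of_nonneg ?_ ?_
            · intro q hq
              rw [Finset.mem_filter, Finset.mem_filter] at hq
              exact Finset.mem_filter.mpr ⟨hq.1.1, hq.2⟩
            · intro q hq _
              rw [Finset.mem_filter] at hq
              obtain ⟨a1, a2, a3, a4⟩ := C4_Qn hQ hq.1
              have hb0 := bet_pos a3
              have hb1 := bet_le a2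
              have hg := Gf_ge hb0.le hb1
              have hmin : 0 ≤ min (bet q) (Real.pi / 6 - bet q) := le_min hb0.le (by linarith)
              linarith
    rw [← Finset.mul_sum] at hA
    linarith
  linarith

private theorem C4_exp_near {q : ℂ} (h1 : 1 ≤ ‖q‖) {s a : ℝ} (hs : dr q = Complex.exp ((s : ℂ) * Complex.I)) :
    ‖q - Complex.exp ((a : ℂ) * Complex.I)‖ ≤ (‖q‖ - 1) + |s - a| := by
  have hq0 : q ≠ 0 := by
    rintro rfl
    simp at h1
    linarith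
  have hn : (‖q‖ : ℂ) ≠ 0 := by simpa using hq0
  have e1 : q - Complex.exp ((a : ℂ) * Complex.I) =
      ((‖q‖ - 1 : ℝ) : ℂ) * dr q + (Complex.exp ((s : ℂ) * Complex.I) - Complex.exp ((a : ℂ) * Complex.I)) := by
    rw [← hs]
    unfold dr
    push_cast
    field_simp
    ring
  have e2 : Complex.exp ((s : ℂ) * Complex.I) - Complex.exp ((a : ℂ) * Complex.I) =
      Complex.exp ((a : ℂ) * Complex.I) * (Complex.exp (Complex.I * ((s - a : ℝ) : ℂ)) - 1) := by
    rw [mul_sub, mul_one, ← Complex.exp_add]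
    congr 2
    push_cast
    ring
  rw [e1]
  refine (norm_add_le _ _).trans ?_
  refine add_le_add ?_ ?_
  · rw [norm_mul, C4_dr_norm hq0, mul_one, Complex.norm_real, Real.norm_eq_abs, abs_of_nonneg (by linarith)]
  · rw [e2, norm_mul, C4_norm_exp, one_mul]
    refine Real.norm_exp_I_mul_ofReal_sub_one_le.trans ?_
    rw [Real.norm_eq_abs]

/-- data of a big near point with direction `θ` and an arc in the upper half plane -/
private def C4P (Q : Finset ℂ) (q : ℂ) (θ : ℝ) : Prop :=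
  q ∈ Qn Q ∧ Real.pi / 12 < bet q ∧ dr q = Complex.exp ((θ : ℂ) * Complex.I) ∧ 0 < lamU q

private theorem C4_bet_ge {Q : Finset ℂ} (hQ : Sep1 Q) {η : ℝ}
    (hG : ∑ q ∈ (Qn Q).filter (fun q => 0 < lamU q), Gf (bet q) ≤ 6 * η) {q : ℂ} {θ : ℝ} (h : C4P Q q θ) :
    Real.pi / 6 - 48 * η ≤ bet q ∧ bet q ≤ Real.pi / 6 ∧ ‖q‖ ≤ 1 + 48 * η ∧ 1 ≤ ‖q‖ ∧ q ∈ Q := by
  obtain ⟨h1, h2, h3, h4⟩ := h
  obtain ⟨a1, a2, a3, a4⟩ := C4_Qn hQ h1
  have hb0 := bet_pos a3
  have hb1 := bet_le a2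
  have hg := Gf_ge hb0.le hb1
  have hmin : min (bet q) (Real.pi / 6 - bet q) = Real.pi / 6 - bet q := min_eq_right (by linarith)
  rw [hmin] at hg
  have hle : Gf (bet q) ≤ ∑ q ∈ (Qn Q).filter (fun q => 0 < lamU q), Gf (bet q) := by
    refine Finset.single_le_sum (f := fun q => Gf (bet q)) ?_ (Finset.mem_filter.mpr ⟨h1, h4⟩)
    intro q' hq'
    rw [Finset.mem_filter] at hq'
    obtain ⟨b1, b2, b3, b4⟩ := C4_Qn hQ hq'.1
    have hb0' := bet_pos b3
    have hb1' := bet_le b2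
    have hg' := Gf_ge hb0'.le hb1'
    have hmin' : 0 ≤ min (bet q') (Real.pi / 6 - bet q') := le_min hb0'.le (by linarith)
    show 0 ≤ Gf (bet q')
    linarith
  have hn := norm_le_of_bet a2 a3
  exact ⟨by linarith, hb1, by linarith, a2, a1⟩

private theorem C4_step {Q : Finset ℂ} (hQ : Sep1 Q) {η : ℝ} (hη : 0 < η) (hη1 : η ≤ 1 / 100000)
    (hS : Real.pi - ∑ q ∈ Qn Q, lamU q ≤ 34.8 * η)
    (hG : ∑ q ∈ (Qn Q).filter (fun q => 0 < lamU q), Gf (bet q) ≤ 6 * η) {q1 : ℂ} {θ1 : ℝ} (h : C4P Q q1 θ1)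
    (hθ0 : -(1 / 100) ≤ θ1) (hθ1 : θ1 ≤ 2 * Real.pi / 3 + 1 / 100) :
    ∃ q2 θ2, C4P Q q2 θ2 ∧ θ1 + Real.pi / 3 - 96 * η ≤ θ2 ∧ θ2 ≤ θ1 + Real.pi / 3 + 132 * η := by
  have hpi := Real.pi_gt_d2
  have hpi2 := Real.pi_lt_d2
  obtain ⟨c1, c2, c3, c4, c5⟩ := C4_bet_ge hQ hG h
  obtain ⟨h1, h2, h3, h4⟩ := h
  have hwin : Sec (1 / √3) (dr q1) (bet q1) (bet q1 + 132 * η) ⊆ Up := by
    rintro z ⟨hz0, hz1, hz2, hz3⟩
    rw [h3] at hz2 hz3
    have hzp := C4_polar θ1 z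
    have hn : 0 < ‖z‖ := norm_pos_iff.mpr hz0
    show 0 < z.im
    rw [hzp]
    exact C4_im hn (by linarith) (by linarith)
  obtain ⟨q2, hq2, hb2, hlo, hhi⟩ := next_neighbour hQ C4_Up_meas (ε := 132 * η) (by linarith) (by linarith) h1 hwin
    (C4_uncovered hQ hη hS hG)
  obtain ⟨a1, a2, a3, a4⟩ := C4_Qn hQ hq2
  have hb1' := bet_le a2
  set φ := (dr q2 * (starRingEnd ℂ) (dr q1)).arg with hφ
  have hdr2 : dr q2 = Complex.exp (((θ1 + φ : ℝ) : ℂ) * Complex.I) := by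
    have hp := C4_polar θ1 (dr q2)
    rw [C4_dr_norm a4, ← h3, ← hφ] at hp
    simpa using hp
  have hlam : 0 < lamU q2 := by
    refine C4_lamU_pos (s := θ1 + φ) (t := θ1 + φ - bet q2 + 1 / 10) hb1' hdr2 ?_ (by linarith) (by linarith)
    rw [abs_lt]
    constructor <;> linarith
  have hP : C4P Q q2 (θ1 + φ) := ⟨hq2, hb2, hdr2, hlam⟩
  obtain ⟨d1, d2, d3, d4, d5⟩ := C4_bet_ge hQ hG hP
  exact ⟨q2, θ1 + φ, hP, by linarith, by linarith⟩

/-- WALL LOCAL LEMMA. From `wall_lower`: `h ≤ 2 η`, `psR Q ≤ 50 η < 1/10`, so some `q_R ∈ Q` has `q.re > 0`, `‖q‖ < 3/2`, `-h ≤ q.im ≤ 50 η ‖q‖`; `π - sum lamU ≤ 34.8 η`; `sum Gf ≤ 6 η`, so `sum min (bet, π/6 - bet) ≤ 48 η` over the near points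
with `lamU > 0`. The part of the half disc not covered by the big sectors has area `≤ (34.8 η + 96 η)/6 < 132 η / 6`. So some `z` with `0 < arg z < 132 η` is in `Sq q'`, `q'` big; `q'.arg ∈ [-1.01 h, π/6 + 132 η]`; if `q' ≠ q_R` they would be closer
than 1 (`close_angle`); so `q_R` is big: norm `≤ 1 + 48 η`, `|arg| ≤ 60 η`. Then `next_neighbour` with `U = Up`, `ε = 132 η` three times (the windows are at the angles 30, 90, 150 degrees): angles `60, 120, 180` degrees up to `O(3 * 132 η + 3 * 96 η + 60 η)`. -/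
theorem wall_local {Q : Finset ℂ} (hQ : Sep1 Q) {h : ℝ} (hh0 : 0 ≤ h) (hh : h ≤ √3 / 12) (hy : ∀ q ∈ Q, -h ≤ q.im)
    {η : ℝ} (hη : η ≤ 1 / 100000)
    (hv : volume.real (Cell Q ∩ {z : ℂ | -(√3 / 4 + h) < z.im} ∩ Metric.ball 0 (4 / 5)) - √3 / 2 < η) :
    h ≤ 2 * η ∧ ∀ j : ℕ, j < 4 → ∃ q ∈ Q, ‖q - w6 ^ j‖ ≤ 2000 * η := by
  classical
  have hpi := Real.pi_gt_d2
  have hpi2 := Real.pi_lt_d2
  have hlow := wall_lower hQ hh0 hh hy
  have hc := c0_bounds
  have hps0 : 0 ≤ psR Q := le_max_left _ _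
  have hps0' : 0 ≤ psR (refl Q) := le_max_left _ _
  have hS0 : 0 ≤ Real.pi - ∑ q ∈ Qn Q, lamU q := by
    have := sum_lamU_le hQ
    linarith
  have hG0 : 0 ≤ ∑ q ∈ (Qn Q).filter (fun q => 0 < lamU q), Gf (bet q) := by
    refine Finset.sum_nonneg fun q' hq' => ?_
    rw [Finset.mem_filter] at hq'
    obtain ⟨b1, b2, b3, b4⟩ := C4_Qn hQ hq'.1
    have hb0' := bet_pos b3
    have hb1' := bet_le b2
    have hg' := Gf_ge hb0'.le hb1'
    have hmin' : 0 ≤ min (bet q') (Real.pi / 6 - bet q') := le_min hb0'.le (by linarith)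
    linarith
  have hprod : 0.1729 * (Real.pi - ∑ q ∈ Qn Q, lamU q) ≤ (1 - c0) * (Real.pi - ∑ q ∈ Qn Q, lamU q) :=
    mul_le_mul_of_nonneg_right (by linarith) hS0
  have hη0 : 0 < η := by nlinarith
  have hS : Real.pi - ∑ q ∈ Qn Q, lamU q ≤ 34.8 * η := by nlinarith
  have hG : ∑ q ∈ (Qn Q).filter (fun q => 0 < lamU q), Gf (bet q) ≤ 6 * η := by nlinarith
  have hps : psR Q ≤ 50 * η := by nlinarith
  have hh2 : h ≤ 2 * η := by nlinarith
  refine ⟨hh2, ?_⟩
  -- the right neighbour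
  obtain ⟨qR, hqR, hqRre, hqRn, hqRim⟩ : ∃ q ∈ Q, 0 < q.re ∧ ‖q‖ < 3 / 2 ∧ q.im / ‖q‖ ≤ 50 * η := by
    unfold psR at hps
    set m := (insert (1 / 10 : ℝ) ((Q.filter (fun q => 0 < q.re ∧ ‖q‖ < 3 / 2)).image (fun q => q.im / ‖q‖))).min'
      (Finset.insert_nonempty _ _) with hm
    have hm1 : m ≤ 50 * η := (le_max_right _ _).trans hps
    have hmem := Finset.min'_mem _ (Finset.insert_nonempty (1 / 10 : ℝ)
      ((Q.filter (fun q => 0 < q.re ∧ ‖q‖ < 3 / 2)).image (fun q => q.im / ‖q‖)))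
    rw [← hm, Finset.mem_insert, Finset.mem_image] at hmem
    rcases hmem with hmem | ⟨q, hq, hq'⟩
    · exfalso
      linarith
    · rw [Finset.mem_filter] at hq
      exact ⟨q, hq.1, hq.2.1, hq.2.2, by rw [hq']; exact hm1⟩
  have hqR1 : 1 ≤ ‖qR‖ := hQ.1 qR hqR
  have hqRarg : |qR.arg| ≤ 80 * η := by
    rw [Complex.arg_of_re_nonneg hqRre.le]
    have hx1 : |qR.im / ‖qR‖| ≤ 50 * η := by
      rw [abs_le]
      refine ⟨?_, hqRim⟩
      rw [le_div_iff₀ (by linarith)]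
      have := hy qR hqR
      nlinarith
    have hx2 : |Real.arcsin (qR.im / ‖qR‖)| ≤ Real.pi / 2 * |qR.im / ‖qR‖| := by
      have hle1 : |qR.im / ‖qR‖| ≤ 1 := by linarith
      have hx3 : |Real.arcsin (qR.im / ‖qR‖)| = Real.arcsin |qR.im / ‖qR‖| := by
        rcases le_total 0 (qR.im / ‖qR‖) with h0 | h0
        · rw [abs_of_nonneg h0, abs_of_nonneg (Real.arcsin_nonneg.mpr h0)]
        · rw [abs_of_nonpos h0, abs_of_nonpos (Real.arcsin_nonpos.mpr h0), Real.arcsin_neg]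
      rw [hx3]
      have hy0 : 0 ≤ Real.arcsin |qR.im / ‖qR‖| := Real.arcsin_nonneg.mpr (abs_nonneg _)
      have hy1 := Real.mul_le_sin hy0 (Real.arcsin_le_pi_div_two _)
      rw [Real.sin_arcsin (by linarith [abs_nonneg (qR.im / ‖qR‖)]) hle1] at hy1
      have hpp := Real.pi_pos
      have : Real.pi / 2 * (2 / Real.pi * Real.arcsin |qR.im / ‖qR‖|) ≤ Real.pi / 2 * |qR.im / ‖qR‖| :=
        mul_le_mul_of_nonneg_left hy1 (by positivity)
      have he : Real.pi / 2 * (2 / Real.pi * Real.arcsin |qR.im / ‖qR‖|) = Real.arcsin |qR.im / ‖qR‖| := by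
        field_simp
      linarith
    have hab := abs_nonneg (qR.im / ‖qR‖)
    nlinarith
  have hqRa := abs_le.mp hqRarg
  -- the first big point
  have hunc := C4_uncovered hQ hη0 hS hG
  obtain ⟨z, hz, hz'⟩ : ∃ z ∈ Sec (1 / √3) 1 0 (132 * η),
      z ∉ (Metric.ball 0 (1 / √3) ∩ Up) \ ⋃ q ∈ (Qn Q).filter (fun q => Real.pi / 12 < bet q), Sq q := by
    by_contra hcon
    push Not at hcon
    have hsub : Sec (1 / √3) 1 0 (132 * η) ⊆
        (Metric.ball 0 (1 / √3) ∩ Up) \ ⋃ q ∈ (Qn Q).filter (fun q => Real.pi / 12 < bet q), Sq q := hcon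
    have hfin : volume ((Metric.ball (0 : ℂ) (1 / √3) ∩ Up) \
        ⋃ q ∈ (Qn Q).filter (fun q => Real.pi / 12 < bet q), Sq q) ≠ ⊤ :=
      ((measure_mono (Set.sdiff_subset.trans Set.inter_subset_left)).trans_lt measure_ball_lt_top).ne
    have hm := measureReal_mono hsub hfin
    have hvv : volume.real (Sec (1 / √3) 1 0 (132 * η)) = (1 / √3) ^ 2 * (132 * η - 0) / 2 :=
      Sec_vol C4_r0.le (by simp) (by linarith) (by linarith) (by linarith)
    rw [hvv, C4_r0sq] at hm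
    linarith
  obtain ⟨hz0, hz1, hz2, hz3⟩ := hz
  rw [map_one, mul_one] at hz2 hz3
  have hzn : 0 < ‖z‖ := norm_pos_iff.mpr hz0
  have hzp : z = (‖z‖ : ℂ) * Complex.exp ((z.arg : ℂ) * Complex.I) := (Complex.norm_mul_exp_arg_mul_I z).symm
  have hzim : 0 < z.im := by
    rw [hzp]
    exact C4_im hzn hz2 (by linarith)
  have hzB : z ∈ Metric.ball (0 : ℂ) (1 / √3) ∩ Up := ⟨by rw [mem_ball_zero_iff]; exact hz1, hzim⟩
  have hzU : z ∈ ⋃ q ∈ (Qn Q).filter (fun q => Real.pi / 12 < bet q), Sq q := by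
    by_contra hcon
    exact hz' ⟨hzB, hcon⟩
  simp only [Set.mem_iUnion] at hzU
  obtain ⟨q0, hq0, hzq⟩ := hzU
  rw [Finset.mem_filter] at hq0
  obtain ⟨hq0Q, hq0b⟩ := hq0
  obtain ⟨a1, a2, a3, a4⟩ := C4_Qn hQ hq0Q
  have hb1 := bet_le a2
  obtain ⟨-, -, hω1, hω2⟩ := hzq
  have hdr := C4_dr a4
  have harg0 : q0.arg = z.arg - (z * (starRingEnd ℂ) (dr q0)).arg := by
    set ω := (z * (starRingEnd ℂ) (dr q0)).arg with hω
    have hp := C4_polar q0.arg z
    rw [← hdr, ← hω] at hp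
    -- `exp (z.arg I) = exp ((q0.arg + ω) I)`
    have hn : (‖z‖ : ℂ) ≠ 0 := by exact_mod_cast hzn.ne'
    have h2 : Complex.exp ((z.arg : ℂ) * Complex.I) = Complex.exp (((q0.arg + ω : ℝ) : ℂ) * Complex.I) := by
      have h3 : (‖z‖ : ℂ) * Complex.exp ((z.arg : ℂ) * Complex.I) =
          (‖z‖ : ℂ) * Complex.exp (((q0.arg + ω : ℝ) : ℂ) * Complex.I) := by
        rw [← hzp]; exact hp
      exact mul_left_cancel₀ hn h3
    have h4 : Complex.exp ((q0.arg : ℂ) * Complex.I) = Complex.exp (((z.arg - ω : ℝ) : ℂ) * Complex.I) := by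
      have h5 : Complex.exp (((z.arg - ω : ℝ) : ℂ) * Complex.I) =
          Complex.exp ((z.arg : ℂ) * Complex.I) * Complex.exp (((-ω : ℝ) : ℂ) * Complex.I) := by
        rw [C4_exp_mul]; ring_nf
      rw [h5, h2, C4_exp_mul]
      congr 2
      push_cast
      ring
    have h6 := C4_arg_exp (r := 1) one_pos (u := q0.arg) (Complex.neg_pi_lt_arg _) (Complex.arg_le_pi _)
    have h7 := C4_arg_exp (r := 1) one_pos (u := z.arg - ω) (by linarith) (by linarith)
    rw [h4, h7] at h6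
    exact h6.symm
  have hlam0 : 0 < lamU q0 := by
    refine C4_lamU_pos (s := q0.arg) (t := z.arg) hb1 hdr ?_ hz2 (by linarith)
    rw [abs_lt, harg0]
    constructor <;> linarith
  have heq : q0 = qR := by
    by_contra hne
    have h1 := close_angle (q := q0) (q' := qR) a2 a3 hqR1 hqRn (by
      rw [abs_le, harg0]
      constructor <;> linarith)
    have h2 := hQ.2 q0 a1 qR hqR hne
    linarith
  have hP0 : C4P Q q0 q0.arg := ⟨hq0Q, hq0b, hdr, hlam0⟩
  rw [← heq] at hqRa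
  obtain ⟨q1, θ1, hP1, hl1, hu1⟩ := C4_step hQ hη0 hη hS hG hP0 (by linarith) (by linarith)
  obtain ⟨q2, θ2, hP2, hl2, hu2⟩ := C4_step hQ hη0 hη hS hG hP1 (by linarith) (by linarith)
  obtain ⟨q3, θ3, hP3, hl3, hu3⟩ := C4_step hQ hη0 hη hS hG hP2 (by linarith) (by linarith)
  have hw : ∀ j : ℕ, w6 ^ j = Complex.exp (((j * (Real.pi / 3) : ℝ) : ℂ) * Complex.I) := by
    intro j
    have h1 : w6 = Complex.exp (((Real.pi / 3 : ℝ) : ℂ) * Complex.I) := by
      rw [Complex.exp_mul_I, ← Complex.ofReal_cos, ← Complex.ofReal_sin, Real.cos_pi_div_three,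
        Real.sin_pi_div_three]
      apply Complex.ext <;> simp [w6]
    rw [h1, ← Complex.exp_nat_mul]
    congr 1
    push_cast
    ring
  have hfinish : ∀ (q : ℂ) (θ : ℝ) (j : ℕ), C4P Q q θ → |θ - j * (Real.pi / 3)| ≤ 1900 * η →
      ∃ q ∈ Q, ‖q - w6 ^ j‖ ≤ 2000 * η := by
    intro q θ j hP hθ
    obtain ⟨d1, d2, d3, d4, d5⟩ := C4_bet_ge hQ hG hP
    refine ⟨q, d5, ?_⟩
    rw [hw j]
    refine (C4_exp_near d4 hP.2.2.1).trans ?_
    linarith
  intro j hj
  have hj4 : j = 0 ∨ j = 1 ∨ j = 2 ∨ j = 3 := by omega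
  rcases hj4 with rfl | rfl | rfl | rfl
  · refine hfinish q0 q0.arg 0 hP0 ?_
    rw [abs_le]
    push_cast
    constructor <;> linarith
  · refine hfinish q1 θ1 1 hP1 ?_
    rw [abs_le]
    push_cast
    constructor <;> linarith
  · refine hfinish q2 θ2 2 hP2 ?_
    rw [abs_le]
    push_cast
    constructor <;> linarith
  · refine hfinish q3 θ3 3 hP3 ?_
    rw [abs_le]
    push_cast
    constructor <;> linarith

end H24
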