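import Pool.Agent.Lib_MP_27c196_co.E.Defs

/-! H24 E, piece D1a: Voronoi cells in the triangle, area of the enlarged triangle, holes -/

set_option linter.unusedVariables false

noncomputable section

namespace H24

open Finset MeasureTheory

/-- the enlarged triangle -/
def Tplus (L : ℝ) : Set ℂ := {z | ∀ i, -(1 / 2) ≤ H L i z}

/-- truncated Voronoi cell of `p` -/
def Vor (L : ℝ) (X : Finset ℂ) (p : ℂ) : Set ℂ :=
  {z | ∀ q ∈ X, q ≠ p → ‖z - p‖ < ‖z - q‖} ∩ Tplus L ∩ Metric.ball p (4 / 5)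

/-- admissible configurations -/
structure Conf (L : ℝ) (X : Finset ℂ) : Prop where
  L20 : 20 ≤ L
  inT : ∀ p ∈ X, ∀ i, 0 ≤ H L i p
  sep : ∀ p ∈ X, ∀ p' ∈ X, p ≠ p' → 1 ≤ ‖p - p'‖

private lemma D1a_H_meas (L : ℝ) (i : Fin 3) : Measurable (H L i) := by
  fin_cases i
  · show Measurable fun z : ℂ => H L 0 z
    simp only [H, if_true]
    exact ((Complex.measurable_im.const_mul 2).div_const _)
  · show Measurable fun z : ℂ => H L 1 z
    have : (1 : Fin 3) ≠ 0 := by decide
    simp only [H, this, if_false, if_true]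
    exact Complex.measurable_re.sub (Complex.measurable_im.div_const _)
  · show Measurable fun z : ℂ => H L 2 z
    have h1 : (2 : Fin 3) ≠ 0 := by decide
    have h2 : (2 : Fin 3) ≠ 1 := by decide
    simp only [H, h1, h2, if_false]
    exact (measurable_const.sub Complex.measurable_re).sub (Complex.measurable_im.div_const _)

/-- area of a triangle with sides parallel to the walls -/
theorem D1a_tri_vol (L : ℝ) (a : Fin 3 → ℝ) (h : 0 ≤ L - a 0 - a 1 - a 2) :
    volume {w : ℂ | ∀ i, a i ≤ H L i w} = ENNReal.ofReal (√3 / 4 * (L - a 0 - a 1 - a 2) ^ 2) := by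
  have h3 := sqrt3_sq
  have h0 := sqrt3_pos
  set S : Set (ℝ × ℝ) := {p | a 0 ≤ 2 * p.2 / √3 ∧ a 1 ≤ p.1 - p.2 / √3 ∧
    a 2 ≤ L - p.1 - p.2 / √3} with hS
  have hSm : MeasurableSet S := by
    refine MeasurableSet.inter ?_ (MeasurableSet.inter ?_ ?_)
    · exact measurableSet_le measurable_const ((measurable_snd.const_mul 2).div_const _)
    · exact measurableSet_le measurable_const (measurable_fst.sub (measurable_snd.div_const _))
    · exact measurableSet_le measurable_const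
        ((measurable_const.sub measurable_fst).sub (measurable_snd.div_const _))
  have hpre : {w : ℂ | ∀ i, a i ≤ H L i w} = Complex.measurableEquivRealProd ⁻¹' S := by
    ext w
    simp only [Set.mem_ofPred_eq, Set.mem_preimage, hS, Complex.measurableEquivRealProd_apply,
      Fin.forall_fin_succ, H]
    simp
  rw [hpre, Complex.volume_preserving_equiv_real_prod.measure_preimage hSm.nullMeasurableSet,
    Measure.volume_eq_prod, Measure.prod_apply_symm hSm]
  set c : ℝ := L - a 1 - a 2 with hc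
  set A : ℝ := √3 / 2 * a 0 with hA
  set B : ℝ := √3 / 2 * c with hB
  have hAB : A ≤ B := by
    rw [hA, hB]
    apply mul_le_mul_of_nonneg_left _ (by positivity)
    rw [hc]; linarith
  have hsec : ∀ y : ℝ, volume ((fun x : ℝ => (x, y)) ⁻¹' S) =
      (Set.Icc A B).indicator (fun y => ENNReal.ofReal (c - 2 / √3 * y)) y := by
    intro y
    by_cases hy : A ≤ y
    · have e : (fun x : ℝ => (x, y)) ⁻¹' S = Set.Icc (a 1 + y / √3) (L - a 2 - y / √3) := by
        ext x
        simp only [Set.mem_preimage, hS, Set.mem_ofPred_eq, Set.mem_Icc]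
        have h4 : a 0 ≤ 2 * y / √3 := by
          rw [le_div_iff₀ h0]
          rw [hA] at hy
          linarith
        constructor
        · rintro ⟨_, h5, h6⟩
          constructor <;> linarith
        · rintro ⟨h5, h6⟩
          refine ⟨h4, ?_, ?_⟩ <;> linarith
      rw [e, Real.volume_Icc]
      have e2 : L - a 2 - y / √3 - (a 1 + y / √3) = c - 2 / √3 * y := by
        rw [hc]; ring
      rw [e2]
      by_cases hy' : y ≤ B
      · rw [Set.indicator_of_mem (show y ∈ Set.Icc A B from ⟨hy, hy'⟩)]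
      · rw [Set.indicator_of_notMem (fun h => hy' h.2)]
        rw [ENNReal.ofReal_eq_zero]
        push Not at hy'
        have h7 : c = 2 / √3 * B := by rw [hB]; field_simp
        rw [h7, ← mul_sub]
        apply mul_nonpos_of_nonneg_of_nonpos (by positivity)
        linarith
    · rw [Set.indicator_of_notMem (fun h => hy h.1)]
      have e : (fun x : ℝ => (x, y)) ⁻¹' S = ∅ := by
        ext x
        simp only [Set.mem_preimage, hS, Set.mem_ofPred_eq, Set.mem_empty_iff_false, iff_false]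
        rintro ⟨h5, _⟩
        apply hy
        rw [le_div_iff₀ h0] at h5
        rw [hA]; linarith
      rw [e, measure_empty]
  simp_rw [hsec]
  rw [lintegral_indicator measurableSet_Icc]
  have hint : IntegrableOn (fun y : ℝ => c - 2 / √3 * y) (Set.Icc A B) :=
    (Continuous.continuousOn (by fun_prop)).integrableOn_Icc
  rw [← ofReal_integral_eq_lintegral_ofReal hint]
  · congr 1
    rw [integral_Icc_eq_integral_Ioc, ← intervalIntegral.integral_of_le hAB,
      intervalIntegral.integral_sub (by simp) (by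
        apply Continuous.intervalIntegrable; fun_prop), intervalIntegral.integral_const,
      intervalIntegral.integral_const_mul, integral_id]
    rw [hA, hB, hc]
    simp only [smul_eq_mul]
    field_simp
    ring
  · refine (ae_restrict_iff' measurableSet_Icc).2 (Filter.Eventually.of_forall fun y hy => ?_)
    show (0 : ℝ) ≤ c - 2 / √3 * y
    have h7 : c = 2 / √3 * B := by rw [hB]; field_simp
    rw [h7, ← mul_sub]
    apply mul_nonneg (by positivity)
    linarith [hy.2]

private lemma D1a_tri_meas (L : ℝ) (a : Fin 3 → ℝ) : MeasurableSet {w : ℂ | ∀ i, a i ≤ H L i w} := by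
  have e : {w : ℂ | ∀ i, a i ≤ H L i w} = ⋂ i, {w : ℂ | a i ≤ H L i w} := by
    ext w; simp
  rw [e]
  exact MeasurableSet.iInter fun i => measurableSet_le measurable_const (D1a_H_meas L i)

theorem Vor_meas (L : ℝ) (X : Finset ℂ) (p : ℂ) : MeasurableSet (Vor L X p) := by
  refine MeasurableSet.inter (MeasurableSet.inter ?_ (D1a_tri_meas L fun _ => -(1 / 2)))
    Metric.isOpen_ball.measurableSet
  have e : {z : ℂ | ∀ q ∈ X, q ≠ p → ‖z - p‖ < ‖z - q‖} =
      ⋂ q ∈ X.filter (fun q => q ≠ p), {z : ℂ | ‖z - p‖ < ‖z - q‖} := by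
    ext z
    simp only [Set.mem_ofPred_eq, Set.mem_iInter, Finset.mem_filter]
    exact ⟨fun h q hq => h q hq.1 hq.2, fun h q hq hq' => h q ⟨hq, hq'⟩⟩
  rw [e]
  refine Finset.measurableSet_biInter _ fun q _ => ?_
  exact measurableSet_lt (measurable_id.sub_const p).norm (measurable_id.sub_const q).norm

theorem Vor_disjoint {L : ℝ} {X : Finset ℂ} {p p' : ℂ} (hp : p ∈ X) (hp' : p' ∈ X) (h : p ≠ p') :
    Disjoint (Vor L X p) (Vor L X p') := by
  rw [Set.disjoint_left]
  rintro z hz hz'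
  have h1 := hz.1.1 p' hp' h.symm
  have h2 := hz'.1.1 p hp h
  exact absurd h1 (not_lt.2 h2.le)

theorem Tplus_vol {L : ℝ} (hL : 0 ≤ L) : volume.real (Tplus L) = √3 / 4 * (L + 3 / 2) ^ 2 := by
  have h := D1a_tri_vol L (fun _ => -(1 / 2)) (by show 0 ≤ L - -(1 / 2) - -(1 / 2) - -(1 / 2); linarith)
  have e : Tplus L = {w : ℂ | ∀ i : Fin 3, (fun _ : Fin 3 => (-(1 / 2) : ℝ)) i ≤ H L i w} := rfl
  rw [Measure.real, e, h, ENNReal.toReal_ofReal (by positivity)]
  show √3 / 4 * (L - -(1 / 2) - -(1 / 2) - -(1 / 2)) ^ 2 = _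
  ring

/-- the height above the wall `i` in the rotated frame -/
theorem im_rot (L : ℝ) (i : Fin 3) (z p : ℂ) :
    ((z - p) * (starRingEnd ℂ) (dirv i)).im = √3 / 2 * (H L i z - H L i p) := by
  have h3 := sqrt3_sq
  have h0 := sqrt3_pos
  fin_cases i <;> simp [H, dirv, Complex.mul_im]
  all_goals field_simp
  all_goals nlinarith

/-- points of the triangle with heights at least `(1 - ρ/L) H i z` are at distance at most `ρ` from `z` -/
private lemma D1a_dist {L : ℝ} (hL : 0 < L) {z w : ℂ} (hz : ∀ i, 0 ≤ H L i z) {ρ : ℝ} (h0 : 0 ≤ ρ)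
    (hw : ∀ i, (1 - ρ / L) * H L i z ≤ H L i w) : ‖w - z‖ ≤ ρ := by
  apply le_of_sq_le_sq _ h0
  rw [normSq_eq_q L, q]
  have s1 := H_sum L z
  have s2 := H_sum L w
  set r := ρ / L with hr
  have hrL : r * L = ρ := by rw [hr]; field_simp
  have hr0 : 0 ≤ r := by rw [hr]; positivity
  have a0 := hw 0
  have a1 := hw 1
  have a2 := hw 2
  -- `e i = H w - (1 - r) H z`, `h i = r H z`
  have b0 : 0 ≤ r * H L 0 z := mul_nonneg hr0 (hz 0)
  have b1 : 0 ≤ r * H L 1 z := mul_nonneg hr0 (hz 1)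
  have b2 : 0 ≤ r * H L 2 z := mul_nonneg hr0 (hz 2)
  set e0 := H L 0 w - (1 - r) * H L 0 z with he0
  set e1 := H L 1 w - (1 - r) * H L 1 z with he1
  set e2 := H L 2 w - (1 - r) * H L 2 z with he2
  set k0 := r * H L 0 z with hk0
  set k1 := r * H L 1 z with hk1
  set k2 := r * H L 2 z with hk2
  have c0 : 0 ≤ e0 := by rw [he0]; linarith
  have c1 : 0 ≤ e1 := by rw [he1]; linarith
  have c2 : 0 ≤ e2 := by rw [he2]; linarith
  have d0 : H L 0 w - H L 0 z = e0 - k0 := by rw [he0, hk0]; ring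
  have d1 : H L 1 w - H L 1 z = e1 - k1 := by rw [he1, hk1]; ring
  have d2 : H L 2 w - H L 2 z = e2 - k2 := by rw [he2, hk2]; ring
  have t1 : e0 + e1 + e2 = ρ := by
    rw [he0, he1, he2]
    linear_combination s2 - (1 - r) * s1 + hrL
  have t2 : k0 + k1 + k2 = ρ := by
    rw [hk0, hk1, hk2]
    linear_combination r * s1 + hrL
  show ((H L 0 w - H L 0 z) ^ 2 + (H L 1 w - H L 1 z) ^ 2 + (H L 2 w - H L 2 z) ^ 2) / 2 ≤ ρ ^ 2
  rw [d0, d1, d2]
  have u1 : e0 ^ 2 + e1 ^ 2 + e2 ^ 2 ≤ ρ ^ 2 := by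
    rw [← t1]
    nlinarith [mul_nonneg c0 c1, mul_nonneg c0 c2, mul_nonneg c1 c2]
  have u2 : k0 ^ 2 + k1 ^ 2 + k2 ^ 2 ≤ ρ ^ 2 := by
    rw [← t2]
    nlinarith [mul_nonneg b0 b1, mul_nonneg b0 b2, mul_nonneg b1 b2]
  nlinarith [mul_nonneg c0 b0, mul_nonneg c1 b1, mul_nonneg c2 b2]

/-- a ball without points of `X`: the scaled copy `z + (ρ/L)(T_L - z)` of the triangle is in `Tplus` and meets no `Vor` -/
theorem hole {L : ℝ} {X : Finset ℂ} (hC : Conf L X) {z : ℂ} (hz : ∀ i, 0 ≤ H L i z) {ρ : ℝ} (h0 : 0 ≤ ρ) (hρ : ρ ≤ L)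
    (hX : ∀ p ∈ X, ρ + 4 / 5 ≤ ‖z - p‖) :
    √3 / 4 * ρ ^ 2 + ∑ p ∈ X, volume.real (Vor L X p) ≤ √3 / 4 * (L + 3 / 2) ^ 2 := by
  have hL : 0 < L := by have := hC.L20; linarith
  set a : Fin 3 → ℝ := fun i => (1 - ρ / L) * H L i z with ha
  set S : Set ℂ := {w : ℂ | ∀ i, a i ≤ H L i w} with hS
  have hr1 : ρ / L ≤ 1 := by rw [div_le_one hL]; exact hρ
  have hsum : L - a 0 - a 1 - a 2 = ρ := by
    have s1 := H_sum L z
    have hrL : ρ / L * L = ρ := by field_simp
    rw [ha]
    show L - (1 - ρ / L) * H L 0 z - (1 - ρ / L) * H L 1 z - (1 - ρ / L) * H L 2 z = ρ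
    linear_combination -(1 - ρ / L) * s1 + hrL
  have hSv : volume S = ENNReal.ofReal (√3 / 4 * ρ ^ 2) := by
    have := D1a_tri_vol L a (by rw [hsum]; exact h0)
    rwa [hsum] at this
  have hSm : MeasurableSet S := D1a_tri_meas L a
  have hTv : volume (Tplus L) = ENNReal.ofReal (√3 / 4 * (L + 3 / 2) ^ 2) := by
    have h := D1a_tri_vol L (fun _ => -(1 / 2))
      (by show 0 ≤ L - -(1 / 2) - -(1 / 2) - -(1 / 2); linarith)
    have e : Tplus L = {w : ℂ | ∀ i : Fin 3, (fun _ : Fin 3 => (-(1 / 2) : ℝ)) i ≤ H L i w} := rfl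
    rw [e, h]
    congr 1
    show √3 / 4 * (L - -(1 / 2) - -(1 / 2) - -(1 / 2)) ^ 2 = _
    ring
  have hST : S ⊆ Tplus L := by
    intro w hw i
    have h1 : a i ≤ H L i w := hw i
    have h2 : 0 ≤ a i := mul_nonneg (by linarith) (hz i)
    linarith
  have hSV : ∀ p ∈ X, Disjoint S (Vor L X p) := by
    intro p hp
    rw [Set.disjoint_left]
    intro w hw hw'
    have h1 : ‖w - z‖ ≤ ρ := D1a_dist hL hz h0 hw
    have h2 : ‖w - p‖ < 4 / 5 := by
      have := hw'.2
      rwa [Metric.mem_ball, dist_eq_norm] at this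
    have h3 := hX p hp
    have h4 : ‖z - p‖ ≤ ‖w - z‖ + ‖w - p‖ := by
      have : z - p = (w - p) - (w - z) := by ring
      rw [this]
      exact (norm_sub_le _ _).trans (by linarith)
    linarith
  have hVT : ∀ p ∈ X, Vor L X p ⊆ Tplus L := fun p _ w hw => hw.1.2
  have hfin : ∀ p ∈ X, volume (Vor L X p) ≠ ⊤ := fun p hp =>
    ne_top_of_le_ne_top (by rw [hTv]; exact ENNReal.ofReal_ne_top) (measure_mono (hVT p hp))
  have hU : volume (⋃ p ∈ X, Vor L X p) = ∑ p ∈ X, volume (Vor L X p) :=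
    measure_biUnion_finset (fun p hp p' hp' h => Vor_disjoint hp hp' h) fun p _ => Vor_meas L X p
  have hdis : Disjoint S (⋃ p ∈ X, Vor L X p) := by
    rw [Set.disjoint_iUnion₂_right]
    exact hSV
  have hle : volume S + ∑ p ∈ X, volume (Vor L X p) ≤ volume (Tplus L) := by
    rw [← hU, ← measure_union' hdis hSm]
    exact measure_mono (Set.union_subset hST (Set.iUnion₂_subset hVT))
  have hsumreal : ∑ p ∈ X, volume.real (Vor L X p) = (∑ p ∈ X, volume (Vor L X p)).toReal := by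
    rw [ENNReal.toReal_sum hfin]
    rfl
  have hsumfin : ∑ p ∈ X, volume (Vor L X p) ≠ ⊤ := ENNReal.sum_ne_top.2 hfin
  rw [hSv, hTv] at hle
  have h5 := ENNReal.toReal_mono ENNReal.ofReal_ne_top hle
  rw [ENNReal.toReal_add ENNReal.ofReal_ne_top hsumfin, ENNReal.toReal_ofReal (by positivity),
    ENNReal.toReal_ofReal (by positivity)] at h5
  rw [hsumreal]
  exact h5

end H24
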