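import Pool.Agent.Lib_MP_27c196_co.E.B2
import Pool.Agent.Lib_MP_27c196_co.E.D1a
import Pool.Agent.Lib_MP_27c196_co.E.C4
import Pool.Agent.Lib_MP_27c196_co.S.A2
import Pool.Agent.Lib_MP_27c196_co.S.A1

/-! H24 E, piece D1: from the local lemmas to the configuration in the triangle -/

set_option linter.unusedVariables false

noncomputable section

namespace H24

open Finset MeasureTheory

private theorem D1_lip (L : ℝ) (i : Fin 3) (z p : ℂ) : |H L i z - H L i p| ≤ 2 / √3 * ‖z - p‖ := by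
  have h1 := im_rot L i z p
  have h2 : |((z - p) * (starRingEnd ℂ) (dirv i)).im| ≤ ‖z - p‖ := by
    refine (Complex.abs_im_le_norm _).trans (le_of_eq ?_)
    rw [norm_mul, Complex.norm_conj, dirv_norm, mul_one]
  have h3 : H L i z - H L i p = 2 / √3 * ((z - p) * (starRingEnd ℂ) (dirv i)).im := by
    rw [h1]
    have := sqrt3_pos
    field_simp
  rw [h3, abs_mul, abs_of_pos (by have := sqrt3_pos; positivity)]
  exact mul_le_mul_of_nonneg_left h2 (by have := sqrt3_pos; positivity)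

private theorem D1_mp (p u : ℂ) (hu : ‖u‖ = 1) : MeasurePreserving (fun v : ℂ => p + u * v) volume volume := by
  have hc : u ∈ Submonoid.unitSphere ℂ := by
    show u ∈ Metric.sphere (0 : ℂ) 1
    rw [mem_sphere_zero_iff_norm]
    exact hu
  have h1 := (rotation (⟨u, hc⟩ : Circle)).measurePreserving
  exact (measurePreserving_add_left volume p).comp h1

/-- a set which is mapped into the truncated cell -/
private theorem D1_le {L : ℝ} {X : Finset ℂ} {p u : ℂ} (hu : ‖u‖ = 1) {A : Set ℂ}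
    (hA : ∀ v ∈ A, p + u * v ∈ Vor L X p) : volume.real A ≤ volume.real (Vor L X p) := by
  have h1 := (D1_mp p u hu).measure_preimage (Vor_meas L X p).nullMeasurableSet
  have h2 : volume A ≤ volume (Vor L X p) := by
    rw [← h1]
    exact measure_mono hA
  have h3 : volume (Vor L X p) ≠ ⊤ :=
    ((measure_mono Set.inter_subset_right).trans_lt measure_ball_lt_top).ne
  exact ENNReal.toReal_mono h3 h2

/-- the other points in the frame with origin `p` and first axis `u` -/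
private def D1_Q (X : Finset ℂ) (p u : ℂ) : Finset ℂ := (X.erase p).image fun q => (q - p) * (starRingEnd ℂ) u

private theorem D1_conj {u : ℂ} (hu : ‖u‖ = 1) : u * (starRingEnd ℂ) u = 1 := by
  rw [Complex.mul_conj, Complex.normSq_eq_norm_sq, hu]
  norm_num

private theorem D1_sep {L : ℝ} {X : Finset ℂ} (hC : Conf L X) {p u : ℂ} (hp : p ∈ X) (hu : ‖u‖ = 1) :
    Sep1 (D1_Q X p u) := by
  constructor
  · intro q hq
    obtain ⟨r, hr, rfl⟩ := Finset.mem_image.1 hq
    obtain ⟨hr1, hr2⟩ := Finset.mem_erase.1 hr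
    rw [norm_mul, Complex.norm_conj, hu, mul_one]
    exact hC.sep r hr2 p hp hr1
  · intro q hq q' hq' hne
    obtain ⟨r, hr, rfl⟩ := Finset.mem_image.1 hq
    obtain ⟨r', hr', rfl⟩ := Finset.mem_image.1 hq'
    rw [← sub_mul, norm_mul, Complex.norm_conj, hu, mul_one, sub_sub_sub_cancel_right]
    refine hC.sep r (Finset.mem_erase.1 hr).2 r' (Finset.mem_erase.1 hr').2 ?_
    rintro rfl
    exact hne rfl

private theorem D1_cell {X : Finset ℂ} {p u v : ℂ} (hu : ‖u‖ = 1) (hv : v ∈ Cell (D1_Q X p u)) :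
    ∀ q ∈ X, q ≠ p → ‖p + u * v - p‖ < ‖p + u * v - q‖ := by
  intro q hq hne
  have h1 := hv ((q - p) * (starRingEnd ℂ) u) (Finset.mem_image.2 ⟨q, Finset.mem_erase.2 ⟨hne, hq⟩, rfl⟩)
  have h2 : p + u * v - q = u * (v - (q - p) * (starRingEnd ℂ) u) := by
    have := D1_conj hu
    linear_combination (q - p) * this
  rw [h2, add_sub_cancel_left, norm_mul, norm_mul, hu, one_mul, one_mul]
  exact h1

private theorem D1_back {X : Finset ℂ} {p u w : ℂ} (hu : ‖u‖ = 1) {e : ℝ}
    (h : ∃ q ∈ D1_Q X p u, ‖q - w‖ ≤ e) : ∃ q ∈ X, ‖q - p - u * w‖ ≤ e := by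
  obtain ⟨q, hq, h1⟩ := h
  obtain ⟨r, hr, rfl⟩ := Finset.mem_image.1 hq
  refine ⟨r, (Finset.mem_erase.1 hr).2, ?_⟩
  have h2 : r - p - u * w = u * ((r - p) * (starRingEnd ℂ) u - w) := by
    have := D1_conj hu
    linear_combination (-(r - p)) * this
  rw [h2, norm_mul, hu, one_mul]
  exact h1

/-- one of six unit vectors at angles of 60 degrees points down -/
private theorem D1_down {G : ℂ} (hG : ‖G‖ = 1) : ∃ j : ℕ, (G * w6 ^ j).im ≤ -(√3 / 2) := by
  have h3 := sqrt3_sq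
  have h0 := sqrt3_pos
  have hn : G.re ^ 2 + G.im ^ 2 = 1 := by
    have h1 := Complex.normSq_eq_norm_sq G
    rw [hG, Complex.normSq_apply] at h1
    nlinarith
  have hw2 : w6 ^ 2 = ⟨-1 / 2, √3 / 2⟩ := by rw [← dirv_two]; simp [dirv]
  have e1 : (G * w6 ^ 1).im = √3 / 2 * G.re + G.im / 2 := by
    rw [pow_one, Complex.mul_im]
    simp only [w6]
    ring
  have e2 : (G * w6 ^ 2).im = √3 / 2 * G.re - G.im / 2 := by
    rw [hw2, Complex.mul_im]
    ring
  have e4 : (G * w6 ^ 4).im = -(√3 / 2 * G.re + G.im / 2) := by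
    have : G * w6 ^ 4 = -(G * w6 ^ 1) := by
      have h4 : w6 ^ 4 = w6 ^ 3 * w6 := by ring
      rw [h4, w6_cube]
      ring
    rw [this, Complex.neg_im, e1]
  have e5 : (G * w6 ^ 5).im = -(√3 / 2 * G.re - G.im / 2) := by
    have : G * w6 ^ 5 = -(G * w6 ^ 2) := by
      have h4 : w6 ^ 5 = w6 ^ 3 * w6 ^ 2 := by ring
      rw [h4, w6_cube]
      ring
    rw [this, Complex.neg_im, e2]
  have e3 : (G * w6 ^ 3).im = -G.im := by
    rw [w6_cube, mul_neg_one, Complex.neg_im]
  have e0 : (G * w6 ^ 0).im = G.im := by rw [pow_zero, mul_one]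
  by_contra hcon
  push Not at hcon
  have c0 := hcon 0
  have c1 := hcon 1
  have c2 := hcon 2
  have c3 := hcon 3
  have c4 := hcon 4
  have c5 := hcon 5
  rw [e0] at c0
  rw [e1] at c1
  rw [e2] at c2
  rw [e3] at c3
  rw [e4] at c4
  rw [e5] at c5
  -- squares
  have s0 : G.im ^ 2 < 3 / 4 := by nlinarith
  have s1 : (√3 * G.re + G.im) ^ 2 < 3 := by nlinarith
  have s2 : (√3 * G.re - G.im) ^ 2 < 3 := by nlinarith
  have t1 : 3 * G.re ^ 2 + G.im ^ 2 + 2 * (√3 * G.re * G.im) < 3 := by nlinarith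
  have t2 : 3 * G.re ^ 2 + G.im ^ 2 - 2 * (√3 * G.re * G.im) < 3 := by nlinarith
  -- so `|√3 re im| < im ^ 2`
  have u1 : √3 * G.re * G.im < G.im ^ 2 := by nlinarith
  have u2 : -(√3 * G.re * G.im) < G.im ^ 2 := by nlinarith
  have u3 : (√3 * G.re * G.im) ^ 2 < (G.im ^ 2) ^ 2 := sq_lt_sq' (by linarith) u1
  have u4 : (√3 * G.re * G.im) ^ 2 = 3 * G.re ^ 2 * G.im ^ 2 := by
    have : (√3 * G.re * G.im) ^ 2 = (√3 * √3) * G.re ^ 2 * G.im ^ 2 := by ring
    rw [this, h3]
  rw [u4] at u3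
  have u5 : 0 < G.im ^ 2 := by nlinarith [sq_nonneg (√3 * G.re * G.im)]
  nlinarith

/-- all heights `≥ 1/6`: `p + (Cell Q ∩ ball 0 (1/√3)) ⊆ Vor` with `Q = {q - p : q ∈ X, q ≠ p}`; `int_local_lower`, `int_local`. The lowest of six neighbours has `H i` lower by at least `1 - O(η)`, so `H i p ≥ 0.9`. -/
theorem vor_int {L : ℝ} {X : Finset ℂ} (hC : Conf L X) {p : ℂ} (hp : p ∈ X) (h6 : ∀ i, 1 / 6 ≤ H L i p) :
    √3 / 2 ≤ volume.real (Vor L X p) ∧ ∀ η ≤ 1 / 100000, volume.real (Vor L X p) - √3 / 2 < η →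
      IsInt L X (1000 * η) p := by
  have hu : ‖(1 : ℂ)‖ = 1 := norm_one
  have h3 := sqrt3_sq
  have h0 := sqrt3_pos
  have hg := sqrt3_gt
  have hsub : ∀ v ∈ Cell (D1_Q X p 1) ∩ Metric.ball 0 (1 / √3), p + 1 * v ∈ Vor L X p := by
    rintro v ⟨hv1, hv2⟩
    rw [mem_ball_zero_iff] at hv2
    refine ⟨⟨D1_cell hu hv1, ?_⟩, ?_⟩
    · intro i
      have h1 := D1_lip L i (p + 1 * v) p
      rw [one_mul, add_sub_cancel_left] at h1
      have h2 : 2 / √3 * ‖v‖ ≤ 2 / √3 * (1 / √3) :=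
        mul_le_mul_of_nonneg_left hv2.le (by positivity)
      have h4 : 2 / √3 * (1 / √3) = 2 / 3 := by
        rw [div_mul_div_comm, h3]
        norm_num
      have h5 := (abs_le.1 h1).1
      have h7 := h6 i
      rw [one_mul]
      linarith
    · rw [Metric.mem_ball, dist_eq_norm, one_mul, add_sub_cancel_left]
      refine hv2.trans ?_
      rw [div_lt_div_iff₀ h0 (by norm_num)]
      linarith
  have hle := D1_le hu hsub
  have hlow := int_local_lower (D1_sep hC hp hu)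
  refine ⟨hlow.trans hle, fun η hη hv => ?_⟩
  obtain ⟨F, hF, hj⟩ := int_local (D1_sep hC hp hu) hη (lt_of_le_of_lt (by linarith) hv)
  have hj' : ∀ j : ℕ, ∃ q ∈ X, ‖q - p - F * w6 ^ j‖ ≤ 1000 * η := by
    intro j
    obtain ⟨q, hq, h1⟩ := D1_back hu (hj j)
    rw [one_mul] at h1
    exact ⟨q, hq, h1⟩
  refine ⟨fun i => ?_, F, hF, hj'⟩
  obtain ⟨j, hjd⟩ := D1_down (G := F * (starRingEnd ℂ) (dirv i))
    (by rw [norm_mul, Complex.norm_conj, dirv_norm, hF, mul_one])
  obtain ⟨q, hq, h1⟩ := hj' j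
  have h2 := hC.inT q hq i
  have h4 := D1_lip L i q (p + F * w6 ^ j)
  have h5 : q - (p + F * w6 ^ j) = q - p - F * w6 ^ j := by ring
  rw [h5] at h4
  have h7 := im_rot L i (p + F * w6 ^ j) p
  have h8 : (p + F * w6 ^ j - p) * (starRingEnd ℂ) (dirv i) = F * (starRingEnd ℂ) (dirv i) * w6 ^ j := by
    ring
  rw [h8] at h7
  have h9 : H L i (p + F * w6 ^ j) - H L i p ≤ -1 := by
    have h10 : √3 / 2 * (H L i (p + F * w6 ^ j) - H L i p) ≤ √3 / 2 * (-1) := by linarith
    exact le_of_mul_le_mul_left h10 (by positivity)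
  have h10 : 2 / √3 * ‖q - p - F * w6 ^ j‖ ≤ 2 * (1000 * η) := by
    have h11 : 2 / √3 ≤ 2 := by
      rw [div_le_iff₀ h0]
      linarith
    exact mul_le_mul h11 h1 (norm_nonneg _) (by norm_num)
  have h12 := (abs_le.1 h4).2
  linarith

/-- `H i p < 1/6`, all heights `≤ L - 5` (so the two others are `≥ 4.8`): rotate by `conj (dirv i)` (`im_rot`), `h = (√3/2) H i p`, `Q = {(q - p) conj (dirv i)}`; `wall_local_lower`, `wall_local`
(`1, w, w^2, w^3` times `dirv i` are `dirv i, - dirv (i+1), dirv (i+2), - dirv i`). -/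
theorem vor_wall {L : ℝ} {X : Finset ℂ} (hC : Conf L X) {p : ℂ} (hp : p ∈ X) {i : Fin 3} (h6 : H L i p < 1 / 6)
    (h5 : ∀ j, H L j p ≤ L - 5) :
    √3 / 2 ≤ volume.real (Vor L X p) ∧ ∀ η ≤ 1 / 100000, volume.real (Vor L X p) - √3 / 2 < η →
      IsWall L X (2000 * η) i p := by
  have hu : ‖dirv i‖ = 1 := dirv_norm i
  have h3 := sqrt3_sq
  have h0 := sqrt3_pos
  have hg := sqrt3_gt
  have hpi := hC.inT p hp i
  have hother : ∀ j, j ≠ i → 4 ≤ H L j p := by
    intro j hj
    have hs := H_sum L p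
    have a0 := h5 0
    have a1 := h5 1
    have a2 := h5 2
    have b0 := hC.inT p hp 0
    have b1 := hC.inT p hp 1
    have b2 := hC.inT p hp 2
    fin_cases i <;> fin_cases j <;>
      simp only [Fin.zero_eta, Fin.mk_one, Fin.reduceFinMk, ne_eq, not_true_eq_false] at h6 hj ⊢ <;>
      linarith
  set h : ℝ := √3 / 2 * H L i p with hh
  have hh0 : 0 ≤ h := by positivity
  have hh1 : h ≤ √3 / 12 := by
    rw [hh]
    nlinarith
  have hy : ∀ q ∈ D1_Q X p (dirv i), -h ≤ q.im := by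
    intro q hq
    obtain ⟨r, hr, rfl⟩ := Finset.mem_image.1 hq
    have h1 := im_rot L i r p
    have h2 := hC.inT r (Finset.mem_erase.1 hr).2 i
    rw [h1, hh]
    nlinarith
  have hsub : ∀ v ∈ Cell (D1_Q X p (dirv i)) ∩ {z : ℂ | -(√3 / 4 + h) < z.im} ∩ Metric.ball 0 (4 / 5),
      p + dirv i * v ∈ Vor L X p := by
    rintro v ⟨⟨hv1, hv3⟩, hv2⟩
    rw [mem_ball_zero_iff] at hv2
    refine ⟨⟨D1_cell hu hv1, ?_⟩, ?_⟩
    · intro j
      by_cases hji : j = i
      · subst hji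
        have h1 := im_rot L j (p + dirv j * v) p
        have h2 : (p + dirv j * v - p) * (starRingEnd ℂ) (dirv j) = v := by
          have := D1_conj hu
          linear_combination v * this
        rw [h2] at h1
        have h4 : -(√3 / 4 + h) < v.im := hv3
        rw [h1, hh] at h4
        have h7 : √3 / 2 * (-(1 / 2)) < √3 / 2 * H L j (p + dirv j * v) := by linarith
        exact (lt_of_mul_lt_mul_left h7 (by positivity)).le
      · have h1 := D1_lip L j (p + dirv i * v) p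
        rw [add_sub_cancel_left, norm_mul, hu, one_mul] at h1
        have h2 : 2 / √3 * ‖v‖ ≤ 2 * (4 / 5) := by
          have h11 : 2 / √3 ≤ 2 := by
            rw [div_le_iff₀ h0]
            linarith
          exact mul_le_mul h11 hv2.le (norm_nonneg _) (by norm_num)
        have h4 := (abs_le.1 h1).1
        have h7 := hother j hji
        linarith
    · rw [Metric.mem_ball, dist_eq_norm, add_sub_cancel_left, norm_mul, hu, one_mul]
      exact hv2
  have hle := D1_le hu hsub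
  have hlow := wall_local_lower (D1_sep hC hp hu) hh0 hh1 hy
  refine ⟨hlow.trans hle, fun η hη hv => ?_⟩
  have hη0 : 0 < η := by linarith
  obtain ⟨h1, hj⟩ := wall_local (D1_sep hC hp hu) hh0 hh1 hy hη (lt_of_le_of_lt (by linarith) hv)
  have d1 : dirv i * w6 = -dirv (i + 1) := by
    have e3 := w6_cube
    have e6 := w6_six
    fin_cases i
    · show dirv 0 * w6 = -dirv 1
      rw [dirv_zero, dirv_one]
      linear_combination w6 * e3
    · show dirv 1 * w6 = -dirv 2
      rw [dirv_one, dirv_two]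
      linear_combination w6 ^ 2 * e3
    · show dirv 2 * w6 = -dirv 0
      rw [dirv_two, dirv_zero]
      linear_combination e3
  have d2 : dirv i * w6 ^ 2 = dirv (i + 2) := by
    have e3 := w6_cube
    have e6 := w6_six
    fin_cases i
    · show dirv 0 * w6 ^ 2 = dirv 2
      rw [dirv_zero, dirv_two]
      ring
    · show dirv 1 * w6 ^ 2 = dirv 0
      rw [dirv_one, dirv_zero]
      linear_combination e6
    · show dirv 2 * w6 ^ 2 = dirv 1
      rw [dirv_two, dirv_one]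
      ring
  refine ⟨?_, ?_, ?_, ?_, ?_⟩
  · have h2 : √3 / 2 * H L i p ≤ √3 / 2 * (2000 * η) := by
      rw [← hh]
      nlinarith
    exact le_of_mul_le_mul_left h2 (by positivity)
  · obtain ⟨q, hq, h2⟩ := D1_back hu (hj 0 (by norm_num))
    rw [pow_zero, mul_one] at h2
    exact ⟨q, hq, h2⟩
  · obtain ⟨q, hq, h2⟩ := D1_back hu (hj 3 (by norm_num))
    rw [w6_cube, mul_neg_one, sub_neg_eq_add] at h2
    exact ⟨q, hq, h2⟩
  · obtain ⟨q, hq, h2⟩ := D1_back hu (hj 1 (by norm_num))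
    rw [pow_one, d1, sub_neg_eq_add] at h2
    exact ⟨q, hq, h2⟩
  · obtain ⟨q, hq, h2⟩ := D1_back hu (hj 2 (by norm_num))
    rw [d2] at h2
    exact ⟨q, hq, h2⟩

end H24
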