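import Pool.Agent.Lib_MP_27c196_co.E.D1

/-! H24 E, piece D2: from a configuration to `SData` -/

set_option linter.unusedVariables false

noncomputable section

namespace H24

open Finset MeasureTheory

/-- the defect -/
def Def (L : ℝ) (X : Finset ℂ) : ℝ := √3 / 4 * (L + 3 / 2) ^ 2 - √3 / 2 * X.card

private theorem D2_H_le {L : ℝ} {z : ℂ} (hz : ∀ i, 0 ≤ H L i z) (i : Fin 3) : H L i z ≤ L := by
  have hs := H_sum L z
  have h0 := hz 0
  have h1 := hz 1
  have h2 := hz 2
  fin_cases i
  · show H L 0 z ≤ L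
    linarith
  · show H L 1 z ≤ L
    linarith
  · show H L 2 z ≤ L
    linarith

open Classical in
/-- at most 1800 points in the corner zones -/
private theorem D2_corners {L : ℝ} {X : Finset ℂ} (hC : Conf L X) :
    ((X.filter (fun z => ∃ i, L - 5 < H L i z)).card : ℝ) ≤ 1800 := by
  rcases X.eq_empty_or_nonempty with h0 | ⟨p0, hp0⟩
  · subst h0
    simp
  · have hL := hC.L20
    have hS : SData L X.card (1 / 1000) (1.3 * L) X (fun _ => (1 : ℝ)) := by
      refine ⟨hC.L20, by norm_num, by norm_num, by linarith, hC.inT, hC.sep, fun _ => by norm_num,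
        by simp, ?_, ?_⟩
      · intro p _ h _
        exfalso
        norm_num at h
      · intro z hz
        refine ⟨p0, hp0, norm_le_of_H L z p0 L fun i => ?_⟩
        have h1 := hz i
        have h2 := hC.inT p0 hp0 i
        have h3 := D2_H_le hz i
        have h4 := D2_H_le (hC.inT p0 hp0) i
        rw [abs_le]
        constructor <;> linarith
    have h5 := pack_corners hS (a := 5) (by norm_num)
    norm_num at h5 ⊢
    exact_mod_cast h5

private theorem D2_sum {L : ℝ} {X : Finset ℂ} (hC : Conf L X) :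
    ∑ p ∈ X, volume.real (Vor L X p) ≤ √3 / 4 * (L + 3 / 2) ^ 2 := by
  have hL := hC.L20
  have hT := Tplus_vol (L := L) (by linarith)
  have hpos : 0 < √3 / 4 * (L + 3 / 2) ^ 2 := by
    have := sqrt3_pos
    positivity
  have hfin : volume (Tplus L) ≠ ⊤ := by
    intro h
    rw [measureReal_def, h] at hT
    simp at hT
    linarith
  rw [← hT, ← measureReal_biUnion_finset (s := X) (f := fun p => Vor L X p)
    (fun p hp p' hp' hne => Vor_disjoint hp hp' hne) (fun p _ => Vor_meas L X p)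
    (fun p _ => ?_)]
  · refine measureReal_mono ?_ hfin
    intro z hz
    obtain ⟨p, -, hp⟩ := Set.mem_iUnion₂.1 hz
    exact hp.1.2
  · exact (lt_of_le_of_lt (measure_mono fun z hz => hz.1.2) (lt_top_iff_ne_top.2 hfin)).ne

open Classical in
/-- the excess -/
private def D2_exc (L : ℝ) (X : Finset ℂ) (p : ℂ) : ℝ :=
  if ∀ i, H L i p ≤ L - 5 then max 0 (volume.real (Vor L X p) - √3 / 2) else 0

private theorem D2_lower {L : ℝ} {X : Finset ℂ} (hC : Conf L X) {p : ℂ} (hp : p ∈ X)
    (h5 : ∀ i, H L i p ≤ L - 5) : √3 / 2 ≤ volume.real (Vor L X p) := by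
  by_cases h6 : ∀ i, 1 / 6 ≤ H L i p
  · exact (vor_int hC hp h6).1
  · push Not at h6
    obtain ⟨i, hi⟩ := h6
    exact (vor_wall hC hp hi h5).1

private theorem D2_exc_nonneg (L : ℝ) (X : Finset ℂ) (p : ℂ) : 0 ≤ D2_exc L X p := by
  unfold D2_exc
  split_ifs
  · exact le_max_left _ _
  · exact le_rfl

open Classical in
/-- `Σ vol ≥ Σ exc + (√3/2) (|X| - 1800)` -/
private theorem D2_exc_sum {L : ℝ} {X : Finset ℂ} (hC : Conf L X) :
    ∑ p ∈ X, D2_exc L X p + √3 / 2 * X.card ≤ ∑ p ∈ X, volume.real (Vor L X p) + 1560 := by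
  have h3 := sqrt3_lt
  have h30 := sqrt3_pos
  have hc := D2_corners hC
  have key : ∀ p ∈ X, D2_exc L X p + √3 / 2 ≤ volume.real (Vor L X p) +
      (if ∃ i, L - 5 < H L i p then √3 / 2 else 0) := by
    intro p hp
    unfold D2_exc
    by_cases h5 : ∀ i, H L i p ≤ L - 5
    · have h6 := D2_lower hC hp h5
      have h7 : ¬ ∃ i, L - 5 < H L i p := by
        rintro ⟨i, hi⟩
        linarith [h5 i]
      rw [if_pos h5, if_neg h7, max_eq_right (by linarith)]
      linarith
    · have h7 : ∃ i, L - 5 < H L i p := by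
        push Not at h5
        exact h5
      rw [if_neg h5, if_pos h7]
      have := measureReal_nonneg (μ := volume) (s := Vor L X p)
      linarith
  have h8 := Finset.sum_le_sum key
  rw [Finset.sum_add_distrib, Finset.sum_add_distrib, ← Finset.sum_filter, Finset.sum_const,
    Finset.sum_const, nsmul_eq_mul, nsmul_eq_mul] at h8
  have h9 : ((X.filter (fun z => ∃ i, L - 5 < H L i z)).card : ℝ) * (√3 / 2) ≤ 1560 := by
    have : ((X.filter (fun z => ∃ i, L - 5 < H L i z)).card : ℝ) * (√3 / 2) ≤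
        1800 * (√3 / 2) := mul_le_mul_of_nonneg_right hc (by positivity)
    linarith
  linarith

/-- THEOREM E. `exc p = max 0 (vol (Vor p) - √3/2)` if all `H i p ≤ L - 5`, else `0`; `err p = 2000 (exc p + 1/(|X|+1))`, `g1 = 1/1000`.
Sum: `sum_{p not in the corner zones} (√3/2 + exc p) ≤ vol (Tplus)` (`vor_int`, `vor_wall`, `Vor_disjoint`, `Tplus_vol`), at most `72 * 25` points in the corner zones (`pack_corners`, `a = 5`).
Good: `err p ≤ g1` gives `η := err p / 2000 ≤ 1/100000`, `exc p < η`. Density: `hole` with the `ρ` such that `√3/4 ρ² > Def + 2000`; `R0 = ρ + 1`. `E0, R0` depend only on the bound `D0` of the defect. -/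
theorem theoremE (D0 : ℝ) : ∃ E0 R0 : ℝ, 0 ≤ E0 ∧ 1 ≤ R0 ∧ ∀ (L : ℝ) (X : Finset ℂ), Conf L X → R0 ≤ L → Def L X ≤ D0 →
    ∃ err : ℂ → ℝ, SData L E0 (1 / 1000) R0 X err := by
  have hD := abs_nonneg D0
  have hD' := le_abs_self D0
  refine ⟨2000 * (|D0| + 1600), |D0| + 1601, by positivity, by linarith, ?_⟩
  intro L X hC hL hDef
  unfold Def at hDef
  have hsum := D2_sum hC
  have hexc := D2_exc_sum hC
  have h30 := sqrt3_pos
  have h31 := sqrt3_gt
  have hcard : (0 : ℝ) < (X.card : ℝ) + 1 := by positivity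
  refine ⟨fun p => 2000 * (D2_exc L X p + 1 / ((X.card : ℝ) + 1)), hC.L20, by norm_num, le_rfl,
    by linarith, hC.inT, hC.sep, ?_, ?_, ?_, ?_⟩
  · intro p
    have := D2_exc_nonneg L X p
    positivity
  · rw [← Finset.mul_sum, Finset.sum_add_distrib, Finset.sum_const, nsmul_eq_mul]
    have h1 : (X.card : ℝ) * (1 / ((X.card : ℝ) + 1)) ≤ 1 := by
      rw [mul_one_div, div_le_one hcard]
      linarith
    have h2 : ∑ p ∈ X, D2_exc L X p + (X.card : ℝ) * (1 / ((X.card : ℝ) + 1)) ≤ |D0| + 1600 := by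
      linarith
    exact mul_le_mul_of_nonneg_left h2 (by norm_num)
  · intro p hp herr h5
    have hinv : 0 < 1 / ((X.card : ℝ) + 1) := by positivity
    set η : ℝ := D2_exc L X p + 1 / ((X.card : ℝ) + 1) with hη
    have hη0 : 0 ≤ η := add_nonneg (D2_exc_nonneg L X p) hinv.le
    have hη1 : η ≤ 1 / 100000 := by
      have : 2000 * η ≤ 1 / 1000 := herr
      linarith
    have hlt : volume.real (Vor L X p) - √3 / 2 < η := by
      have h1 : volume.real (Vor L X p) - √3 / 2 ≤ D2_exc L X p := by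
        unfold D2_exc
        rw [if_pos h5]
        exact le_max_right _ _
      linarith
    by_cases h6 : ∀ i, 1 / 6 ≤ H L i p
    · left
      obtain ⟨h7, F, hF, h8⟩ := (vor_int hC hp h6).2 η hη1 hlt
      refine ⟨h7, F, hF, fun j => ?_⟩
      obtain ⟨q, hq, h9⟩ := h8 j
      refine ⟨q, hq, h9.trans ?_⟩
      show 1000 * η ≤ 2000 * η
      linarith
    · push Not at h6
      obtain ⟨i, hi⟩ := h6
      exact Or.inr ⟨i, (vor_wall hC hp hi h5).2 η hη1 hlt⟩
  · intro z hz
    by_contra hcon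
    push Not at hcon
    have h1 := hole hC hz (ρ := |D0| + 1600) (by positivity) (by linarith)
      (fun p hp => by linarith [hcon p hp])
    have h2 : 0 ≤ ∑ p ∈ X, D2_exc L X p := Finset.sum_nonneg fun p _ => D2_exc_nonneg L X p
    have h3 : (|D0| + 1600) * 640 ≤ √3 / 4 * (|D0| + 1600) ^ 2 := by
      have h4 : (0.4 : ℝ) ≤ √3 / 4 := by linarith
      have h5 : 0.4 * (|D0| + 1600) ^ 2 ≤ √3 / 4 * (|D0| + 1600) ^ 2 :=
        mul_le_mul_of_nonneg_right h4 (by positivity)
      nlinarith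
    linarith

/-- the sum of the cells is at most the area -/
theorem Def_ge {L : ℝ} {X : Finset ℂ} (hC : Conf L X) : -1600 ≤ Def L X := by
  have hsum := D2_sum hC
  have hexc := D2_exc_sum hC
  have h2 : 0 ≤ ∑ p ∈ X, D2_exc L X p := Finset.sum_nonneg fun p _ => D2_exc_nonneg L X p
  unfold Def
  linarith

end H24
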