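import Pool.Agent.Lib_MP_27c196_co.S.Defs

/-! H24, part E (area excess), definitions.  See `Pool/Agent/Lib_MP_27c196_co/Blueprint.md`, part E. -/

set_option linter.unusedSimpArgs false
set_option linter.unusedVariables false

noncomputable section

namespace H24

open Finset MeasureTheory

/-- cell of the origin with respect to the finite set `Q` (open) -/
def Cell (Q : Finset ℂ) : Set ℂ := {z | ∀ q ∈ Q, ‖z‖ < ‖z - q‖}

/-- open sector of radius `R` around the direction `e`, relative angles in `(α, β)` -/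
def Sec (R : ℝ) (e : ℂ) (α β : ℝ) : Set ℂ :=
  {z | z ≠ 0 ∧ ‖z‖ < R ∧ α < (z * (starRingEnd ℂ) e).arg ∧ (z * (starRingEnd ℂ) e).arg < β}

/-- open triangle with apex `0`, base on the line `re (z conj e) = c`, relative angles in `(a, b)` -/
def Tri (c : ℝ) (e : ℂ) (a b : ℝ) : Set ℂ :=
  {z | 0 < (z * (starRingEnd ℂ) e).re ∧ (z * (starRingEnd ℂ) e).re < c ∧
    (z * (starRingEnd ℂ) e).re * Real.tan a < (z * (starRingEnd ℂ) e).im ∧
    (z * (starRingEnd ℂ) e).im < (z * (starRingEnd ℂ) e).re * Real.tan b}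

/-- direction of `q` -/
def dr (q : ℂ) : ℂ := q / (‖q‖ : ℂ)

/-- half the arc cut by the bisector of `q` from the circle of radius `1/√3` -/
def bet (q : ℂ) : ℝ := Real.arccos (√3 / 2 * ‖q‖)

/-- the near points -/
def Qn (Q : Finset ℂ) : Finset ℂ := Q.filter (fun q => ‖q‖ < 2 / √3)

/-- the sector of `q` -/
def Sq (q : ℂ) : Set ℂ := Sec (1 / √3) (dr q) (-bet q) (bet q)

/-- the constant `3√3/(2π)` -/
def c0 : ℝ := 3 * √3 / (2 * Real.pi)

def Gf (b : ℝ) : ℝ := Real.sin b * Real.cos b - c0 * b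

/-- all the points are at distance at least 1 from `0` and from each other -/
def Sep1 (Q : Finset ℂ) : Prop := (∀ q ∈ Q, 1 ≤ ‖q‖) ∧ ∀ q ∈ Q, ∀ q' ∈ Q, q ≠ q' → 1 ≤ ‖q - q'‖

/-- the upper half plane -/
def Up : Set ℂ := {z | 0 < z.im}

/-- length of the arc of `q` in the upper half plane -/
def lamU (q : ℂ) : ℝ := 6 * volume.real (Sq q ∩ Up)

end H24
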